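import Pool.Agent.Run7.h385.PO.CLSA
import Pool.Agent.Q236.CR.Stm

/-!
# Project PQ: prime values of random polynomials at arguments up to a power of the height

Interface file (continuation of project PO, `Pool/Agent/Run7/h385/PO/Stm.lean`).  Every piece is a
closed proposition `S_XXX`, with a complete proof in its comment.  A piece `XXX` is a theorem
`t_XXX : (hypotheses S_YYY →) S_XXX` in a file `Pool/Agent/Run7/<you>/PQ/XXX.lean` which imports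
this file.  Never write a double quote.

`L = log X`, `w = ww X = ⌊log log X / 4⌋`, `W = WW X = ∏_{p ≤ w} p ≤ √L`.  The arguments `n` now lie in
`(m, m + L^C]` where `(m + 1)^(5 (d - 1)) L^B ≤ X`; the values `u(n) + W (t_0 + … + t_(d-1) n^(d-1))`
have the size `X (m + 1)^(d - 1)` up to powers of `L`.
-/

set_option autoImplicit false

namespace Pool.Agent.Run7.h385.PQ

open Finset
open Pool.Agent.H373R2.T7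
open Pool.Agent.H807R2.Dav
open Pool.Agent.Run7.h385.PO

/-- logarithm of the size `X (m + 1)^(d - 1)` of the values -/
noncomputable def lg (X d m : ℕ) : ℝ := Real.log (X * ((m : ℝ) + 1) ^ (d - 1))

noncomputable def rho2 (X d m : ℕ) : ℝ := (Vz (ww X))⁻¹ / lg X d m

/-- von Mangoldt's function minus its sieve model -/
noncomputable def gz (z n : ℕ) : ℝ := ArithmeticFunction.vonMangoldt n - lamz z n

/-! ## A. Exponential sums over primes in almost all intervals of length `K^(2/3) (log K)^B`,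
all frequencies at once -/

/-- TII (about 100 lines; adapt `typeII_lin` in `Pool/Agent/H373R2/T7/Lin.lean`, whose interval
`(N, N']` is now short).  After Cauchy–Schwarz over `m` the pair `l, l'` contributes only if some
`m > M` has `m l, m l' ∈ (N, N + S]`, so `m |l - l'| < S`, `|l - l'| < S / M`: for each `l` these `l'` lie in an
interval of at most `2 S / M + 1` integers; the `m` with `N < m l ≤ N + S` are at most `S / L + 1` consecutive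
integers, so `geo_bound` with `M := S / L + 1`.  `vino` with `J ≤ 2 S / M + 1` terms:
`(J / q + 1) (39 (S / L + 1) + 3 q (1 + log q))`. -/
def S_TII : Prop :=
  ∀ q : ℕ, 1 ≤ q → ∀ c : ℤ, IsCoprime c (q : ℤ) → ∀ α : ℝ, |α - c / q| ≤ 1 / (q : ℝ) ^ 2 →
  ∀ N S M L : ℕ, 1 ≤ M → 1 ≤ L → ∀ a b : ℕ → ℂ,
    ‖∑ m ∈ Ioc M (2 * M), ∑ l ∈ Ioc L (2 * L), a m * b l *
      (if N < m * l ∧ m * l ≤ N + S then ee (((m * l : ℕ) : ℝ) * α) else 0)‖ ^ 2 ≤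
      (∑ m ∈ Ioc M (2 * M), ‖a m‖ ^ 2) * ((∑ l ∈ Ioc L (2 * L), ‖b l‖ ^ 2) *
        ((2 * (S : ℝ) / (M * q) + 2) * (39 * ((S : ℝ) / L + 1) + 3 * q * (1 + Real.log q))))

/-- MIN (about 150 lines; uses TII; adapt `block_lin` in `Pool/Agent/H373R2/T7/Minor.lean`).  With
`l = log N`, `V = ⌈N l^A / S⌉` (`A = U + 20`, `B = 3 A`; so `V² ≤ S / l^A` because `S ≥ N^(2/3) l^B`, and
`N / V ≤ S / l^A`), `vaughan_gen` (`Vau.lean`) with `E n = ee (n α)`, its `U := V`, `N' = N + S ≤ 2 N`: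
type I: `‖∑_{l ∈ (N/m, b]} ee (m l α)‖ ≤ KK (2 S / m) (m α)` (`geo_bound`, at most `S / m + 1 ≤ 2 S / m` terms), and
`typeI_lin` with `N := S`, `D = V²`: `≤ 600 (log₂ D + 1) (S / q + V² + q) (1 + log q)`, `q ≤ S / l^B`.
type II: `V < 2 M`, `V < 2 L`, `M L ≤ N + S ≤ 2 N` give `M, L ≤ 4 N / V ≤ 4 S / l^A`; TII gives
`A₂ B₂ (2 S / q + 2 M) (39 (S + L) + 3 q L (1 + log q)) ≤ A₂ B₂ R²`,
`R² = C (1 + log q) (S² / q + S² / l^A + q N) ≤ S² / l^(A - 3)` as `q N ≤ S² / l^B`. -/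
def S_MIN : Prop :=
  ∀ U : ℕ, ∃ B N0 : ℕ, ∀ N : ℕ, N0 ≤ N → ∀ S : ℕ, (N : ℝ) ^ (2 / 3 : ℝ) * Real.log N ^ B ≤ S → S ≤ N →
  ∀ q : ℕ, Real.log N ^ B ≤ q → (q : ℝ) * N * Real.log N ^ B ≤ (S : ℝ) ^ 2 →
  ∀ c : ℤ, IsCoprime c (q : ℤ) → ∀ α : ℝ, |α - c / q| ≤ 1 / (q : ℝ) ^ 2 →
  ‖∑ n ∈ Ioc N (N + S), ((ArithmeticFunction.vonMangoldt n : ℝ) : ℂ) * ee ((n : ℝ) * α)‖ ≤ S / Real.log N ^ U

/-- MINZ (about 170 lines; adapt `lamz_minor` in `Pool/Agent/H373R2/T7/LamZ2.lean`, with `Ioc N (N + S)` in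
place of `Icc 1 N`).  `choice 1 E (U + 2) 8`: `r` with `(z + 1)^(8 r) ≤ N`, so `D = (z + 1)^r ≤ N^(1/8)`.  The number of
multiples of `∏ S'` in the window is at most `S / ∏ S' + 1`; the `+ 1` terms add up to `D` (use
`sum_small_le` with `F = 1`, or `card_small`).  The exponential sum over the multiples of `e` in the window has at
most `S / e + 1 ≤ 2 S / e` consecutive terms (`e ≤ D ≤ S`): `geo_bound`, `KK (2 S / e) (e α)`, `typeI_lin` with `N := S`. -/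
def S_MINZ : Prop :=
  ∀ E U : ℕ, ∃ N0 : ℕ, ∀ N : ℕ, N0 ≤ N → ∀ z : ℕ, 1 ≤ z → (z : ℝ) ≤ Real.log N ^ E →
  ∀ S : ℕ, √(N : ℝ) ≤ S → S ≤ N → ∀ q : ℕ, Real.log N ^ (U + 6) ≤ q → (q : ℝ) * Real.log N ^ (U + 6) ≤ S →
  ∀ c : ℤ, IsCoprime c (q : ℤ) → ∀ α : ℝ, |α - c / q| ≤ 1 / (q : ℝ) ^ 2 →
  ‖∑ n ∈ Ioc N (N + S), ((lamz z n : ℝ) : ℂ) * ee ((n : ℝ) * α)‖ ≤ S / Real.log N ^ U

/-- MAJ (about 250 lines; uses `S_SIA` and `S_LZ` of `Pool/Agent/Q236/CR/Stm.lean`, both proved: see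
`Pool/Agent/Run7/h385/CR/All.lean`).  `l = log x`, `B` large in terms of `A, U`.
(i) For `1 ≤ q ≤ l^A`, `0 ≤ b < q` let `T_{q,b}(v) = ‖∑_{n ∈ (v, v+Y]} gz z n e(b n / q)‖`.  SIA and LZ (both main terms are
`cc q b Y`; `q ≤ z`) at `x` and at `2x`, and Cauchy–Schwarz: `∑_{v ∈ (x, 4x]} T_{q,b}(v) ≤ x Y / l^(U')`, `U'` large.
(ii) averaging: for `h : ℕ → ℂ`, `‖h‖ ≤ R` on `(v, v + S + Y]`:
`Y ‖∑_{n ∈ (v, v+S]} h n‖ ≤ ∑_{v' ∈ [v, v+S)} ‖∑_{n ∈ (v', v'+Y]} h n‖ + 2 Y² R`, because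
`∑_{v' ∈ [v, v+S)} ∑_{j=1}^Y h (v' + j) = ∑_{j=1}^Y ∑_{n ∈ [v+j, v+S+j)} h n` and each inner sum differs from the sum over
`(v, v+S]` by at most `2 Y R`.
(iii) `h n = gz z n · ee (n θ)`, `θ = a / q + β`: on `(v', v' + Y]`, `ee (n β) = ee (v' β) (1 + O(2 π |β| Y))`,
`|β| Y ≤ l^(-B)`; `|gz z n| ≤ 3 l` (`Vz_inv_small`).  So for `v ∈ s` the norm is at most
`(1/Y) ∑_{v' ∈ [v, v+S)} T_{q v, a v mod q v}(v') + S · 3 l · 7 l^(-B) + 6 Y l`.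
(iv) Sum over `v ∈ s`: bound `T_{q v, ..}` by the sum over all `q ≤ l^A`, `b < q`; each `v' ∈ (x, 3x]` occurs for at most `S`
values of `v`: total `≤ (S / Y) l^(2A) · x Y / l^(U') + x S / l^(B - 3) + 6 x Y l`, and `Y ≤ S / l^B`.
(`e` of `H469R2.NK` and `ee` are both `exp (2 π i x)`.) -/
def S_MAJ : Prop :=
  ∀ A U : ℕ, ∃ B : ℕ, ∀ E : ℕ, ∃ x0 : ℕ, ∀ x : ℕ, x0 ≤ x → ∀ z : ℕ, Real.log x ^ B ≤ z →
  (z : ℝ) ≤ Real.log x ^ E → ∀ S Y : ℕ, (x : ℝ) ^ (1 / 3 : ℝ) * Real.log x ^ B ≤ Y →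
  (Y : ℝ) * Real.log x ^ B ≤ S → S ≤ x → ∀ s : Finset ℕ, s ⊆ Ioc x (2 * x) →
  ∀ (q : ℕ → ℕ) (a : ℕ → ℤ) (θ : ℕ → ℝ),
  (∀ v ∈ s, 1 ≤ q v ∧ (q v : ℝ) ≤ Real.log x ^ A ∧ |θ v - a v / q v| * (Y * Real.log x ^ B) ≤ 1) →
  ∑ v ∈ s, ‖∑ n ∈ Ioc v (v + S), ((gz z n : ℝ) : ℂ) * ee ((n : ℝ) * θ v)‖ ≤ x * S / Real.log x ^ U

/-- SUPA (about 180 lines; uses MIN, MINZ, MAJ).  `L = log K`.  `A` = the exponent `B` of MIN for `U + 3` (at least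
`U + 10`), `B₁` = the `B` of MAJ for `(A + 1, U + 3)`, `B` much larger.  The `v ≤ K / L^(U+4)` trivially: `|gz z n| ≤ 3 L`.
The others in at most `2 L` dyadic ranges `(x, 2x]` (`x = ⌈K / 2^j⌉` or so; `log x ≥ L / 2`; cut at `K`).  In one range:
Dirichlet (`Real.exists_int_int_abs_mul_sub_le` or a lemma of the tree) gives for `θ v` an approximation
`|θ v - a/q| ≤ 1 / (q Q)`, `1 ≤ q ≤ Q = ⌊S² / (2 x L^(A+1))⌋`, `(a, q) = 1` (so also `≤ 1/q²`).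
If `q > L^A`: MIN and MINZ at `N = v`: `≤ 2 S / (log v)^(U+3)`.
If `q ≤ L^A`: `|θ v - a/q| ≤ 1 / Q ≤ 4 x L^(A+1) / S²`, so with `Y = ⌊S² / (8 x L^(A + 1 + B₁))⌋` (which is
`≥ x^(1/3) L^(B₁)` because `S ≥ K^(2/3) L^B`, and `Y L^(B₁) ≤ S` as `S ≤ K / L^B`... for small `x` the hypothesis `S ≤ x` of
MAJ holds as `x ≥ K / L^(U+5)` and `S ≤ K / L^B`) MAJ applies to the set `s` of these `v`. -/
def S_SUPA : Prop :=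
  ∀ U : ℕ, ∃ B : ℕ, ∀ E : ℕ, ∃ K0 : ℕ, ∀ K : ℕ, K0 ≤ K → ∀ z : ℕ, Real.log K ^ B ≤ z →
  (z : ℝ) ≤ Real.log K ^ E → ∀ S : ℕ, (K : ℝ) ^ (2 / 3 : ℝ) * Real.log K ^ B ≤ S → (S : ℝ) * Real.log K ^ B ≤ K →
  ∀ θ : ℕ → ℝ,
  ∑ v ∈ Icc 1 K, ‖∑ n ∈ Ioc v (v + S), ((gz z n : ℝ) : ℂ) * ee ((n : ℝ) * θ v)‖ ≤ K * S / Real.log K ^ U

/-- SUPT (about 120 lines; uses SUPA): both signs, supremum over the frequency.  Take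
`Bd v = ⨆ θ, ‖…‖` (bounded by the trivial bound; `ciSup`), and for each `v` a `θ v` with
`Bd v ≤ ‖… (θ v)‖ + 1 / K`.  For `v > S`: the window is `(v - S - 1, v + S]`, of length `2 S + 1`; apply SUPA with
`2 S + 1` and exponent `U + 2`, `‖∑_m D(v+m) ee(m θ)‖ = ‖∑_n D(n) ee(n θ)‖`; for `v < -S` by the symmetry `v ↦ -v`, `θ ↦ -θ`;
`|v| ≤ S`: trivially `(2 S + 1)² · 4 log K ≤ K S / (3 (log K)^U)`. -/
def S_SUPT : Prop :=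
  ∀ U : ℕ, ∃ B : ℕ, ∀ E : ℕ, ∃ K0 : ℕ, ∀ K : ℕ, K0 ≤ K → ∀ z : ℕ, Real.log K ^ B ≤ z →
  (z : ℝ) ≤ Real.log K ^ E → ∀ S : ℕ, (K : ℝ) ^ (2 / 3 : ℝ) * Real.log K ^ B ≤ S → (S : ℝ) * Real.log K ^ B ≤ K →
  ∃ Bd : ℤ → ℝ, (∀ v, 0 ≤ Bd v) ∧
    (∀ v : ℤ, |v| ≤ K → ∀ θ : ℝ,
      ‖∑ m ∈ Icc (-(S : ℤ)) S, ((gz z (v + m).natAbs : ℝ) : ℂ) * ee ((m : ℝ) * θ)‖ ≤ Bd v) ∧
    ∑ v ∈ Icc (-(K : ℤ)) K, Bd v ≤ K * S / Real.log K ^ U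

/-! ## B. Primes against their model -/

/-- DIST (about 100 lines).  For fixed `t_j`, `1 ≤ j ≤ d - 2`, and a value `v`, the `t_(d-1)` for which
`t_0 = (v - u) / W - … - t_(d-1) n^(d-1)` lies in `[0, Y_0)` are at most `Y_0 / n^(d-1) + 1 ≤ 2 Y_0 / n^(d-1)`, and `t_0`
is determined; so each value is taken at most `2 ∏ Y / (Y_(d-1) n^(d-1))` times. -/
def S_DIST : Prop :=
  ∀ (d : ℕ) (hd : 2 ≤ d) (Y : Fin d → ℕ) (W n : ℕ), 1 ≤ W → 1 ≤ n → n ^ (d - 1) ≤ Y ⟨0, by omega⟩ →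
  ∀ (u : ℤ) (K : ℕ) (G : ℤ → ℝ), (∀ v, 0 ≤ G v) → (∀ t ∈ box Y, |u + ev W t n| ≤ K) →
    (∑ t ∈ box Y, G (u + ev W t n)) * ((Y ⟨d - 1, by omega⟩ : ℝ) * (n : ℝ) ^ (d - 1)) ≤
      2 * (∏ j, (Y j : ℝ)) * ∑ v ∈ Icc (-(K : ℤ)) K, G v

/-- TERM2 (adapt `Pool/Agent/Run7/h385/PO/TERM.lean`; taken by helper385). -/
def S_TERM2 : Prop :=
  ∀ (d k : ℕ), 1 ≤ d → k + 1 ≤ 2 * d → ∀ n : Fin k → ℕ, Function.Injective n →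
    ∀ N H : ℕ, 1 ≤ H → (∀ i, n i ≤ N) → (∀ i j, |(n i : ℤ) - n j| ≤ H) →
    ∀ (u : Fin k → ℤ) (W : ℕ), 1 ≤ W → ∀ (Y : Fin d → ℕ) (K Ym : ℕ), (∀ j, Ym ≤ Y j) →
    (∀ t : Fin d → ℤ, (∀ j, |t j| ≤ 2 * (Y j : ℤ)) → ∀ i, |u i + ev W t (n i)| ≤ K) →
    ∀ (φ : Fin k → ℤ → ℝ) (R : ℝ), 1 ≤ R → (∀ i, ∀ m : ℤ, |m| ≤ K → |φ i m| ≤ R) →
    ∀ (i0 : Fin k) (S S' : ℕ) (Bd : ℤ → ℝ), 1 ≤ S → 2 * W * S * H ^ (d - 1) ≤ S' → (∀ v, 0 ≤ Bd v) →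
    (∀ v : ℤ, |v| ≤ K → ∀ θ : ℝ,
      ‖∑ m ∈ Icc (-(S' : ℤ)) S', ((φ i0 (v + m) : ℝ) : ℂ) * ee ((m : ℝ) * θ)‖ ≤ Bd v) →
    2 * S * (N + 1) ^ (d - 1) ≤ Ym →
    |∑ t ∈ box Y, ∏ i, φ i (u i + ev W t (n i))| ≤
      R ^ (2 * k) / S * (∑ t ∈ box Y, Bd (u i0 + ev W t (n i0))) +
        2 * d * (2 * S * ((N : ℝ) + 1) ^ (d - 1) / Ym) * R ^ k * ∏ j, (Y j : ℝ)

/-- DIFF2 (about 220 lines; uses TERM2, DIST, SUPT; adapt `Pool/Agent/Run7/h871/PO/DIFF.lean`).  Telescoping and TERM2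
with `φ_i(v) = Λ(|v|)`, `lamz z |v|` or, for `i0`, `gz z |v|`.  `Q = (m+1)^(d-1)`; `m + L^C ≤ (m+1) L^C`; all values are at most
`K = ⌈X Q L^(C d + C + 5)⌉`; `R = 2 log K ≤ 5 L`; `N = ⌊m + L^C⌋`, `H = ⌈L^C⌉`, `S = ⌊X / (Q L^(C3))⌋`, `S' = 2 W S H^(d-1)`,
`Ym = ⌈X / L^C⌉`.  Main term: by DIST (`n_i0 ≥ m + 1`, `Y_(d-1) ≥ X / L^C`) and SUPT with exponent `U'`:
`R^(2k) / S · (2 L^C ∏ Y / (X Q)) · K S' / (log K)^(U') ≤ ∏ Y L^(c - U')` where `c` depends only on `C, d, k` (NOT on `C3`):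
choose `U'` first, then `B'` of SUPT, then `C3` (larger than `B'`, `U`, …: so `S' (log K)^(B') ≤ K` and the shift error
`2 d (2 S (N+1)^(d-1) / Ym) R^k ≤ L^(-U-1)`), then `B` (so `K^(2/3) (log K)^(B') ≤ S'`, as `Q^5 L^B ≤ X`, and
`n^(d-1) ≤ Y_0`, and `z` is large enough for SUPT). -/
def S_DIFF2 : Prop :=
  ∀ (d k C U : ℕ), 2 ≤ d → k + 1 ≤ 2 * d → ∃ B : ℕ, ∀ E : ℕ, ∃ X0 : ℕ, ∀ X : ℕ, X0 ≤ X →
    ∀ z : ℕ, Real.log X ^ B ≤ z → (z : ℝ) ≤ Real.log X ^ E →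
    ∀ m : ℕ, ((m : ℝ) + 1) ^ (5 * (d - 1)) * Real.log X ^ B ≤ X →
    ∀ n : Fin k → ℕ, Function.Injective n → (∀ i, m < n i ∧ (n i : ℝ) ≤ m + Real.log X ^ C) →
    ∀ W : ℕ, 1 ≤ W → (W : ℝ) ≤ Real.log X →
    ∀ u : Fin k → ℤ, (∀ i, |(u i : ℝ)| ≤ X * ((m : ℝ) + 1) ^ (d - 1) * Real.log X ^ C) →
    ∀ Y : Fin d → ℕ, (∀ j, (X : ℝ) / Real.log X ^ C ≤ Y j ∧ (Y j : ℝ) ≤ X) →
    |∑ t ∈ box Y, (∏ i, ArithmeticFunction.vonMangoldt (u i + ev W t (n i)).natAbs -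
        ∏ i, lamz z (u i + ev W t (n i)).natAbs)| ≤ (∏ j, (Y j : ℝ)) / Real.log X ^ U

/-- PROD2 (adapt `Pool/Agent/Run7/h13/PO/PROD.lean`: there the sizes of the `n_i` are only used to bound the
differences `n_i - n_j`). -/
def S_PROD2 : Prop :=
  ∀ (d k C : ℕ), 2 ≤ d → ∀ ε : ℝ, 0 < ε → ∃ X0 : ℕ, ∀ X : ℕ, X0 ≤ X → ∀ z : ℕ, ww X ≤ z →
    ∀ n : Fin k → ℕ, Function.Injective n → (∀ i j, |(n i : ℝ) - n j| ≤ Real.log X ^ C) → ∀ u : Fin k → ℤ,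
    |∏ p ∈ (pz z).filter (fun p => ww X < p), (1 - gg d n u (WW X) p) - (Vz z / Vz (ww X)) ^ k| ≤
      ε * (Vz z / Vz (ww X)) ^ k

/-- MODEL2 (uses PROD2; adapt `Pool/Agent/Run7/h13/PO/MODEL.lean`, nothing changes). -/
def S_MODEL2 : Prop :=
  ∀ (d k C E : ℕ), 2 ≤ d → ∀ ε : ℝ, 0 < ε → ∃ X0 : ℕ, ∀ X : ℕ, X0 ≤ X →
    ∀ z : ℕ, 1 ≤ z → ww X ≤ z → (z : ℝ) ≤ Real.log X ^ E →
    ∀ n : Fin k → ℕ, Function.Injective n → (∀ i j, |(n i : ℝ) - n j| ≤ Real.log X ^ C) →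
    ∀ u : Fin k → ℤ, (∀ i, IsCoprime (u i) (WW X : ℤ)) →
    ∀ Y : Fin d → ℕ, (∀ j, (X : ℝ) / Real.log X ^ C ≤ Y j) →
    |∑ t ∈ box Y, ∏ i, lamz z (u i + ev (WW X) t (n i)).natAbs - (∏ j, (Y j : ℝ)) * ((Vz (ww X))⁻¹) ^ k| ≤
      ε * ((∏ j, (Y j : ℝ)) * ((Vz (ww X))⁻¹) ^ k)

/-! ## C. Prime values -/

/-- PRIMES2 (about 250 lines; uses DIFF2, MODEL2, DIST; adapt `Pool/Agent/Run7/h871/PO/PRIMES.lean`).  `lg = lg X d m`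
lies in `[L, 2 L]` (`Q = (m+1)^(d-1) ≤ X`).  A value `v` is bad if `|v| ≤ X Q / L^D` or `|v| ≤ K = ⌈X Q L^(C d + C + 5)⌉` is a proper
prime power; by DIST (`G` = indicator function of the bad values; instead of RARE) the `t` with a bad value number at
most `k (2 L^C / (X Q)) (2 X Q / L^D + 1 + 4 √K log K) ∏ Y ≤ ∏ Y / L^(2k+2)`; for good values `|log |v| - lg| ≤ C' log L`, so
`Λ(|v|) = lg 1[|v| prime] (1 + O(log L / L))`. -/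
def S_PRIMES2 : Prop :=
  ∀ (d k C : ℕ), 2 ≤ d → k + 1 ≤ 2 * d → ∃ B : ℕ, ∀ ε : ℝ, 0 < ε → ∃ X0 : ℕ, ∀ X : ℕ, X0 ≤ X →
    ∀ m : ℕ, ((m : ℝ) + 1) ^ (5 * (d - 1)) * Real.log X ^ B ≤ X →
    ∀ n : Fin k → ℕ, Function.Injective n → (∀ i, m < n i ∧ (n i : ℝ) ≤ m + Real.log X ^ C) →
    ∀ u : Fin k → ℤ, (∀ i, |(u i : ℝ)| ≤ X * ((m : ℝ) + 1) ^ (d - 1) * Real.log X ^ C) →
    (∀ i, IsCoprime (u i) (WW X : ℤ)) →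
    ∀ Y : Fin d → ℕ, (∀ j, (X : ℝ) / Real.log X ^ C ≤ Y j ∧ (Y j : ℝ) ≤ X) →
    |(((box Y).filter (fun t => ∀ i, (u i + ev (WW X) t (n i)).natAbs.Prime)).card : ℝ) -
        (∏ j, (Y j : ℝ)) * rho2 X d m ^ k| ≤ ε * ((∏ j, (Y j : ℝ)) * rho2 X d m ^ k)

/-- the number of the `n ∈ T` with all values prime -/
def pc {g d : ℕ} (W : ℕ) (u : Fin g → ℕ → ℤ) (t : Fin g → Fin d → ℤ) (T : Finset ℕ) : ℕ :=
  (T.filter (fun n => ∀ l, (u l n + ev W (t l) n).natAbs.Prime)).card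

/-- JM (about 200 lines; uses PRIMES2; adapt `Pool/Agent/Run7/h215/PO/MOM.lean`): joint moments over two disjoint sets of
arguments.  `(#A)_k (#A')_k'` for disjoint `A ⊆ T`, `A' ⊆ T'` is the number of the injective `n : Fin (k + k') → T ∪ T'`
with the first `k` values in `A` and the last `k'` in `A'` (pairs of embeddings; `Fin.append`, injective because `T`, `T'`
are disjoint).  If `k + k' = 0` it is trivial. -/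
def S_JM : Prop :=
  ∀ (d g k k' C : ℕ), 2 ≤ d → k + k' + 1 ≤ 2 * d → ∃ B : ℕ, ∀ ε : ℝ, 0 < ε → ∃ X0 : ℕ, ∀ X : ℕ, X0 ≤ X →
    ∀ m : ℕ, ((m : ℝ) + 1) ^ (5 * (d - 1)) * Real.log X ^ B ≤ X →
    ∀ T T' : Finset ℕ, Disjoint T T' →
    (∀ n ∈ T, m < n ∧ (n : ℝ) ≤ m + Real.log X ^ C) → (∀ n ∈ T', m < n ∧ (n : ℝ) ≤ m + Real.log X ^ C) →
    ∀ u : Fin g → ℕ → ℤ,
    (∀ l, ∀ n, n ∈ T ∨ n ∈ T' → |(u l n : ℝ)| ≤ X * ((m : ℝ) + 1) ^ (d - 1) * Real.log X ^ C ∧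
      IsCoprime (u l n) (WW X : ℤ)) →
    ∀ Y : Fin g → Fin d → ℕ, (∀ l j, (X : ℝ) / Real.log X ^ C ≤ Y l j ∧ (Y l j : ℝ) ≤ X) →
    |∑ t ∈ Fintype.piFinset (fun l => box (Y l)),
        (((pc (WW X) u t T).descFactorial k : ℕ) : ℝ) * (((pc (WW X) u t T').descFactorial k' : ℕ) : ℝ) -
        (∏ l, ∏ j, (Y l j : ℝ)) * (((T.card.descFactorial k : ℕ) : ℝ) * ((T'.card.descFactorial k' : ℕ) : ℝ)) *
          rho2 X d m ^ (g * (k + k'))| ≤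
      ε * ((∏ l, ∏ j, (Y l j : ℝ)) * (((T.card.descFactorial k : ℕ) : ℝ) * ((T'.card.descFactorial k' : ℕ) : ℝ)) *
          rho2 X d m ^ (g * (k + k')))

end Pool.Agent.Run7.h385.PQ
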