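import Pool.Agent.Run7.h385.PQ.CLSJ
import Pool.Agent.Run7.h385.PO.ALLA

/-! # Project PQ: all classes modulo `W` together -/

set_option autoImplicit false

namespace Pool.Agent.Run7.h385.PQ

open Finset hiding box
open Pool.Agent.H373R2.T7
open Pool.Agent.H807R2.Dav
open Pool.Agent.Run7.h385.PO

lemma facts2 (hWS : S_WSMALL) (g d C C1 : ℕ) (hd : 2 ≤ d) : ∃ X0 : ℕ, ∀ X : ℕ, X0 ≤ X →
    1 ≤ WW X ∧ 1 ≤ Real.log X ∧ ∀ (m : ℕ) (F : Fin g → ℕ → ℤ),
    (∀ l, ∀ n : ℕ, m < n → (n : ℝ) ≤ m + Real.log X ^ C →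
      |(F l n : ℝ)| ≤ X * ((m : ℝ) + 1) ^ (d - 1) * Real.log X ^ C1) →
    ∀ (a : Fin g → Fin d → ℤ) (Y : Fin g → Fin d → ℕ),
    (∀ l j, |(a l j : ℝ)| ≤ X ∧ (X : ℝ) / Real.log X ^ C1 ≤ Y l j ∧ (Y l j : ℝ) ≤ X) →
    ∀ r ∈ Fintype.piFinset (fun _ : Fin g => box (fun _ : Fin d => WW X)),
      (∀ l j, (X : ℝ) / Real.log X ^ (C + C1 + C * d + 2) ≤ (((Y l j + WW X - 1 - (r l j).toNat) / WW X : ℕ) : ℝ) ∧
        ((((Y l j + WW X - 1 - (r l j).toNat) / WW X : ℕ)) : ℝ) ≤ X) ∧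
      (∀ l, ∀ n : ℕ, m < n → (n : ℝ) ≤ m + Real.log X ^ C →
        |(fv F (fun l j => a l j + r l j) l n : ℝ)| ≤
          X * ((m : ℝ) + 1) ^ (d - 1) * Real.log X ^ (C + C1 + C * d + 2)) := by
  obtain ⟨n1, h1⟩ := facts hWS g d C C1 hd
  obtain ⟨n2, h2⟩ := hWS.2
  obtain ⟨n3, h3⟩ := ev_L' (2 * d + 2)
  refine ⟨max n1 (max n2 (max n3 2)), fun X hX => ?_⟩
  obtain ⟨hW1, hL1, a1⟩ := h1 X (le_trans (le_max_left _ _) hX)
  obtain ⟨hWsq, _, _⟩ := h2 X (le_trans (le_trans (le_max_left _ _) (le_max_right _ _)) hX)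
  have a3 := h3 X (le_trans (le_trans (le_trans (le_max_left _ _) (le_max_right _ _)) (le_max_right _ _)) hX)
  have hX2 : 2 ≤ X := le_trans (le_trans (le_trans (le_max_right _ _) (le_max_right _ _)) (le_max_right _ _)) hX
  set L := Real.log X with hL
  have hdr : (2 : ℝ) ≤ d := by exact_mod_cast hd
  have hL0 : 0 < L := by linarith
  have hXr : (2 : ℝ) ≤ X := by exact_mod_cast hX2
  have hX0 : (0 : ℝ) < X := by linarith
  set W := WW X with hW
  have hWr1 : (1 : ℝ) ≤ W := by exact_mod_cast hW1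
  have hWL : (W : ℝ) ≤ L := by nlinarith
  refine ⟨hW1, hL1, fun m F hFb a Y haY r hr => ⟨?_, ?_⟩⟩
  · have b := a1 (fun _ _ => 0) (fun l n _ => by
      simp only [Int.cast_zero, abs_zero]; positivity) a Y haY r hr
    exact b.1
  · rw [Fintype.mem_piFinset] at hr
    intro l n hmn hn
    have hr1 := hr l
    unfold box at hr1
    rw [Fintype.mem_piFinset] at hr1
    unfold fv
    push_cast
    refine (abs_add_le _ _).trans ?_
    set Q : ℝ := ((m : ℝ) + 1) ^ (d - 1) with hQ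
    have hm0 : (0 : ℝ) ≤ m := Nat.cast_nonneg _
    have hQ1 : 1 ≤ Q := one_le_pow₀ (by linarith)
    have hLC1 : 1 ≤ L ^ C := one_le_pow₀ hL1
    have hn2 : (n : ℝ) ≤ (m + 1) * L ^ C := by nlinarith
    have hn1 : (1 : ℝ) ≤ n := by exact_mod_cast (by omega : 1 ≤ n)
    have hnd : (n : ℝ) ^ (d - 1) ≤ Q * L ^ (C * d) := by
      calc (n : ℝ) ^ (d - 1) ≤ (((m : ℝ) + 1) * L ^ C) ^ (d - 1) := pow_le_pow_left₀ (by linarith) hn2 _
        _ = Q * L ^ (C * (d - 1)) := by rw [mul_pow, ← pow_mul, hQ]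
        _ ≤ Q * L ^ (C * d) := by
            apply mul_le_mul_of_nonneg_left _ (by linarith)
            apply pow_le_pow_right₀ hL1
            exact Nat.mul_le_mul_left _ (by omega)
    have h5 : |∑ j : Fin d, ((a l j : ℝ) + (r l j : ℝ)) * (n : ℝ) ^ (j : ℕ)| ≤ d * ((2 * X) * (Q * L ^ (C * d))) := by
      refine (abs_sum_le_sum_abs _ _).trans ?_
      have h6 : ∀ j ∈ (univ : Finset (Fin d)), |((a l j : ℝ) + (r l j : ℝ)) * (n : ℝ) ^ (j : ℕ)| ≤
          (2 * X) * (Q * L ^ (C * d)) := by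
        intro j _
        have hr2 : 0 ≤ r l j ∧ r l j < (W : ℤ) := mem_Ico.1 (hr1 j)
        rw [abs_mul]
        apply mul_le_mul
        · refine (abs_add_le _ _).trans ?_
          have h7 : |(r l j : ℝ)| ≤ X := by
            have h8 : (0 : ℝ) ≤ r l j := by exact_mod_cast hr2.1
            have h9 : (r l j : ℝ) < W := by exact_mod_cast hr2.2
            rw [abs_of_nonneg h8]
            have h10 : L ≤ X := by
              have := Real.log_le_sub_one_of_pos hX0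
              linarith
            linarith
          linarith [(haY l j).1]
        · rw [abs_pow, Nat.abs_cast]
          calc (n : ℝ) ^ (j : ℕ) ≤ (n : ℝ) ^ (d - 1) := by
                apply pow_le_pow_right₀ hn1
                have := j.2
                omega
            _ ≤ _ := hnd
        · positivity
        · positivity
      refine (sum_le_sum h6).trans (le_of_eq ?_)
      rw [sum_const, card_univ, Fintype.card_fin, nsmul_eq_mul]
    have h6 := hFb l n hmn hn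
    have h7 : L ^ C1 ≤ L ^ (C + C1 + C * d) := pow_le_pow_right₀ hL1 (by omega)
    have h8 : L ^ (C * d) ≤ L ^ (C + C1 + C * d) := pow_le_pow_right₀ hL1 (by omega)
    have h9 : L ^ (C + C1 + C * d + 2) = L ^ (C + C1 + C * d) * (L * L) := by rw [pow_add]; ring
    set P := L ^ (C + C1 + C * d) with hP
    have hP0 : 0 < P := by positivity
    rw [h9]
    have hXQ : 0 < X * Q := by positivity
    have h10 : X * Q * L ^ C1 ≤ X * Q * P := mul_le_mul_of_nonneg_left h7 hXQ.le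
    have h11 : (d : ℝ) * ((2 * X) * (Q * L ^ (C * d))) ≤ d * ((2 * X) * (Q * P)) := by gcongr
    have h12 : (1 + 2 * d : ℝ) ≤ L * L := by nlinarith
    have h13 : X * Q * P * (1 + 2 * d) ≤ X * Q * P * (L * L) := mul_le_mul_of_nonneg_left h12 (by positivity)
    nlinarith

lemma lamB_congr {g : ℕ} (X d m : ℕ) (f f' : Fin g → ℕ → ℤ) (A : Finset ℕ)
    (h : ∀ p ∈ pz (ww X), ∀ l n, (p : ℤ) ∣ f l n - f' l n) : lamB X d m f A = lamB X d m f' A := by
  have e : A.filter (fun n => ∀ l, ∀ p ∈ pz (ww X), ¬ (p : ℤ) ∣ f l n) =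
      A.filter (fun n => ∀ l, ∀ p ∈ pz (ww X), ¬ (p : ℤ) ∣ f' l n) := by
    apply filter_congr
    intro n _
    constructor
    · intro h1 l p hp h2
      apply h1 l p hp
      have := dvd_add h2 (h p hp l n)
      rwa [add_sub_cancel] at this
    · intro h1 l p hp h2
      apply h1 l p hp
      have := dvd_sub h2 (h p hp l n)
      rwa [sub_sub_cancel] at this
  unfold lamB
  rw [e]

/-- two disjoint sets of arguments, depending on the classes of the coefficients modulo `W` -/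
def S_ALLJ : Prop :=
  ∀ (d g k k' C C1 : ℕ), 2 ≤ d → 1 ≤ g → k + k' + 1 ≤ 2 * d → ∃ B : ℕ, ∀ Lam ε : ℝ, 0 < Lam → 0 < ε →
    ∃ X0 : ℕ, ∀ X : ℕ, X0 ≤ X → ∀ m : ℕ, ((m : ℝ) + 1) ^ (5 * (d - 1)) * Real.log X ^ B ≤ X →
    ∀ F : Fin g → ℕ → ℤ,
    (∀ l, ∀ n : ℕ, m < n → (n : ℝ) ≤ m + Real.log X ^ C →
      |(F l n : ℝ)| ≤ X * ((m : ℝ) + 1) ^ (d - 1) * Real.log X ^ C1) →
    ∀ (a : Fin g → Fin d → ℤ) (Y : Fin g → Fin d → ℕ),
    (∀ l j, |(a l j : ℝ)| ≤ X ∧ (X : ℝ) / Real.log X ^ C1 ≤ Y l j ∧ (Y l j : ℝ) ≤ X) →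
    ∀ (AA AA' : (Fin g → Fin d → ℤ) → Finset ℕ) (EE : (Fin g → Fin d → ℤ) → Prop) [DecidablePred EE],
    (∀ c c', (∀ l j, (WW X : ℤ) ∣ c l j - c' l j) → AA c = AA c' ∧ AA' c = AA' c' ∧ (EE c ↔ EE c')) →
    (∀ c, EE c → Disjoint (AA c) (AA' c) ∧
      (∀ n, n ∈ AA c ∨ n ∈ AA' c → m < n ∧ (n : ℝ) ≤ m + Real.log X ^ C) ∧
      lamB X d m (fv F c) (AA c) ≤ Lam ∧ lamB X d m (fv F c) (AA' c) ≤ Lam) →
    |∑ c ∈ (cbox a Y).filter EE, ((((cntA (fv F c) (AA c)).descFactorial k : ℕ) : ℝ) *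
        (((cntA (fv F c) (AA' c)).descFactorial k' : ℕ) : ℝ) -
        lamB X d m (fv F c) (AA c) ^ k * lamB X d m (fv F c) (AA' c) ^ k')| ≤
      ε * ((cbox a Y).filter EE).card

set_option maxHeartbeats 4000000 in
theorem t_ALLJ (hCLS : S_CLSJ) (hSP : S_SPLIT) (hWS : S_WSMALL) : S_ALLJ := by
  intro d g k k' C C1 hd hg hk
  obtain ⟨B, hB⟩ := hCLS d g k k' (C + C1 + C * d + 2) hd hg hk
  refine ⟨B, ?_⟩
  intro Lam ε hLam hε
  obtain ⟨n1, h1⟩ := hB Lam ε hLam hε
  obtain ⟨n2, h2⟩ := facts2 hWS g d C C1 hd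
  refine ⟨max n1 n2, fun X hX m hm F hFb a Y haY AA AA' EE _ hper hAE => ?_⟩
  have a1 := h1 X (le_trans (le_max_left _ _) hX) m hm
  obtain ⟨hW1, hL1, h3⟩ := h2 X (le_trans (le_max_right _ _) hX)
  have a2 := h3 m F hFb a Y haY
  set L := Real.log X with hL
  set W := WW X with hW
  have hLC : L ^ C ≤ L ^ (C + C1 + C * d + 2) := pow_le_pow_right₀ hL1 (by omega)
  set Φ : (Fin g → Fin d → ℤ) → ℝ := fun c => if EE c then
    ((((cntA (fv F c) (AA c)).descFactorial k : ℕ) : ℝ) * (((cntA (fv F c) (AA' c)).descFactorial k' : ℕ) : ℝ) -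
      lamB X d m (fv F c) (AA c) ^ k * lamB X d m (fv F c) (AA' c) ^ k') else 0 with hΦ
  set Ψ : (Fin g → Fin d → ℤ) → ℝ := fun c => if EE c then ε else 0 with hΨ
  have e1 : ∑ c ∈ (cbox a Y).filter EE, ((((cntA (fv F c) (AA c)).descFactorial k : ℕ) : ℝ) *
      (((cntA (fv F c) (AA' c)).descFactorial k' : ℕ) : ℝ) -
        lamB X d m (fv F c) (AA c) ^ k * lamB X d m (fv F c) (AA' c) ^ k') =
      ∑ c ∈ cbox a Y, Φ c := by
    rw [hΦ, ← sum_filter]
  have e2 : ε * (((cbox a Y).filter EE).card : ℝ) = ∑ c ∈ cbox a Y, Ψ c := by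
    rw [hΨ, ← sum_filter, sum_const, nsmul_eq_mul, mul_comm]
  rw [e1, e2]
  apply glob hSP g d W hW1 a Y Φ Ψ
  intro r hr
  obtain ⟨b1, b2⟩ := a2 r hr
  set c0 : Fin g → Fin d → ℤ := fun l j => a l j + r l j with hc0
  set u : Fin g → ℕ → ℤ := fv F c0 with hu
  have hval : ∀ t : Fin g → Fin d → ℤ, fv F (fun l j => a l j + r l j + W * t l j) = fun l n => u l n + ev W (t l) n :=
    fun t => fv_split F a r t W
  have hpc : ∀ t : Fin g → Fin d → ℤ, AA (fun l j => a l j + r l j + W * t l j) = AA c0 ∧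
      AA' (fun l j => a l j + r l j + W * t l j) = AA' c0 ∧
      (EE (fun l j => a l j + r l j + W * t l j) ↔ EE c0) := by
    intro t
    apply hper
    intro l j
    exact ⟨t l j, by rw [hc0]; ring⟩
  have hlam : ∀ (S : Finset ℕ) (t : Fin g → Fin d → ℤ),
      lamB X d m (fv F (fun l j => a l j + r l j + W * t l j)) S = lamB X d m u S := by
    intro S t
    rw [hval]
    apply lamB_congr
    intro p hp l n
    simp only [add_sub_cancel_left]
    unfold ev
    exact (dvd_WW hp).mul_right _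
  by_cases hE : EE c0
  · obtain ⟨c1, c2, c3, c4⟩ := hAE c0 hE
    have h5 := a1 u (AA c0) (AA' c0) c1 (fun n hn => ⟨(c2 n hn).1, (c2 n hn).2.trans (by linarith)⟩)
      (fun l n hn => b2 l n (c2 n hn).1 (c2 n hn).2) c3 c4
      (fun l j => (Y l j + W - 1 - (r l j).toNat) / W) b1
    have hcard := card_pibox (fun l j => (Y l j + W - 1 - (r l j).toNat) / W)
    have e6 : ∑ t ∈ Fintype.piFinset (fun l => box (fun j => (Y l j + W - 1 - (r l j).toNat) / W)),
        Φ (fun l j => a l j + r l j + W * t l j) =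
        ∑ t ∈ Fintype.piFinset (fun l => box (fun j => (Y l j + W - 1 - (r l j).toNat) / W)),
          (((cntA (fun l n => u l n + ev W (t l) n) (AA c0)).descFactorial k : ℕ) : ℝ) *
          (((cntA (fun l n => u l n + ev W (t l) n) (AA' c0)).descFactorial k' : ℕ) : ℝ) -
        lamB X d m u (AA c0) ^ k * lamB X d m u (AA' c0) ^ k' *
          ∏ l, ∏ j, (((Y l j + W - 1 - (r l j).toNat) / W : ℕ) : ℝ) := by
      have e7 : ∀ t ∈ Fintype.piFinset (fun l => box (fun j => (Y l j + W - 1 - (r l j).toNat) / W)),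
          Φ (fun l j => a l j + r l j + W * t l j) =
          (((cntA (fun l n => u l n + ev W (t l) n) (AA c0)).descFactorial k : ℕ) : ℝ) *
          (((cntA (fun l n => u l n + ev W (t l) n) (AA' c0)).descFactorial k' : ℕ) : ℝ) -
            lamB X d m u (AA c0) ^ k * lamB X d m u (AA' c0) ^ k' := by
        intro t _
        rw [hΦ]
        simp only
        rw [if_pos ((hpc t).2.2.2 hE), (hpc t).1, (hpc t).2.1, hlam, hlam, hval]
      rw [sum_congr rfl e7, sum_sub_distrib, sum_const, nsmul_eq_mul, hcard,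
        mul_comm (lamB X d m u (AA c0) ^ k * lamB X d m u (AA' c0) ^ k')]
    have e8 : ∑ t ∈ Fintype.piFinset (fun l => box (fun j => (Y l j + W - 1 - (r l j).toNat) / W)),
        Ψ (fun l j => a l j + r l j + W * t l j) = ε * ∏ l, ∏ j, (((Y l j + W - 1 - (r l j).toNat) / W : ℕ) : ℝ) := by
      have e7 : ∀ t ∈ Fintype.piFinset (fun l => box (fun j => (Y l j + W - 1 - (r l j).toNat) / W)),
          Ψ (fun l j => a l j + r l j + W * t l j) = ε := by
        intro t _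
        rw [hΨ]
        simp only
        rw [if_pos ((hpc t).2.2.2 hE)]
      rw [sum_congr rfl e7, sum_const, nsmul_eq_mul, hcard, mul_comm]
    rw [e6, e8]
    exact h5
  · have e7 : ∀ t ∈ Fintype.piFinset (fun l => box (fun j => (Y l j + W - 1 - (r l j).toNat) / W)),
        Φ (fun l j => a l j + r l j + W * t l j) = 0 := by
      intro t _
      rw [hΦ]
      simp only
      rw [if_neg (fun h => hE ((hpc t).2.2.1 h))]
    have e8 : ∀ t ∈ Fintype.piFinset (fun l => box (fun j => (Y l j + W - 1 - (r l j).toNat) / W)),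
        Ψ (fun l j => a l j + r l j + W * t l j) = 0 := by
      intro t _
      rw [hΨ]
      simp only
      rw [if_neg (fun h => hE ((hpc t).2.2.1 h))]
    rw [sum_congr rfl e7, sum_congr rfl e8, sum_const_zero, abs_zero]

end Pool.Agent.Run7.h385.PQ
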