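import Pool.Agent.Run7.h385.PQ.STAT

/-! # Project PQ: polynomial language -/

set_option autoImplicit false

namespace Pool.Agent.Run7.h385.PQ.Fin2

open Finset hiding box
open scoped Polynomial
open Pool.Agent.H373R2.T7
open Pool.Agent.Run7.h385
open Pool.Agent.Run7.h385.PO.Fin1

/-- the length `⌈lam (log (X (m+1)^(d-1)))^g / const⌉` of the window at `m` -/
noncomputable def len {g : ℕ} (X d m : ℕ) (lam : ℝ) (f : Fin g → ℤ[X]) : ℕ :=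
  ⌈lam * Real.log (X * ((m : ℝ) + 1) ^ (d - 1)) ^ g / const f (w X)⌉₊

/-- the number of the `n` in the window at `m` such that `|f_1(n)|, …, |f_g(n)|` are all prime -/
noncomputable def pw {g : ℕ} (X d : ℕ) (lam : ℝ) (f : Fin g → ℤ[X]) (m : ℕ) : ℕ := P f (Ioc m (m + len X d m lam f))

/-- sizes -/
def Sizes2 {g d : ℕ} (C X N : ℕ) (F : Fin g → ℤ[X]) (a : Fin g → Fin d → ℤ) (Y : Fin g → Fin d → ℕ) : Prop :=
  (∀ l, ∀ n : ℕ, 1 ≤ n → n ≤ N → |(((F l).eval (n : ℤ) : ℤ) : ℝ)| ≤ X * (n : ℝ) ^ (d - 1) * Real.log X ^ C) ∧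
  (∀ l j, |(a l j : ℝ)| ≤ X ∧ (X : ℝ) / Real.log X ^ C ≤ Y l j ∧ (Y l j : ℝ) ≤ X)

lemma pw_eq {g d : ℕ} (X : ℕ) (lam : ℝ) (F : Fin g → ℤ[X]) (c : Fin g → Fin d → ℤ) (m : ℕ) :
    pw X d lam (poly F c) m = cw X d lam (PO.fv (vals F) c) m := by
  unfold pw cw wd
  rw [P_eq, vals_poly]
  unfold len len2 lg
  rw [const_eq, vals_poly, w_eq]

lemma adm_eq2 {g d : ℕ} (X : ℕ) (F : Fin g → ℤ[X]) (a : Fin g → Fin d → ℤ) (Y : Fin g → Fin d → ℕ) :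
    adm X F a Y = Adm X (vals F) a Y := adm_eq X F a Y

lemma hyp2 {g d : ℕ} (C X N m M : ℕ) (F : Fin g → ℤ[X]) (a : Fin g → Fin d → ℤ) (Y : Fin g → Fin d → ℕ)
    (h : Sizes2 C X N F a Y) (hN : (m : ℝ) + M + Real.log X ^ (g + 5) ≤ N) : Hyp2 C X m M (vals F) a Y := by
  refine ⟨per_vals F, fun l n hn1 hn2 => ?_, h.2⟩
  apply h.1 l n (by omega)
  have : (n : ℝ) ≤ N := hn2.trans hN
  exact_mod_cast this

theorem main (hA : S_ALLJ) (d g C : ℕ) (hd : 2 ≤ d) (hg : 1 ≤ g) :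
    ∃ B : ℕ, ∀ lam ε : ℝ, 0 < lam → 0 < ε → ∃ c0 : ℝ, 0 < c0 ∧ ∃ X0 : ℕ, ∀ X : ℕ, X0 ≤ X → ∀ N : ℕ,
      (N : ℝ) ^ (5 * (d - 1)) * Real.log X ^ B ≤ X →
      ∀ (F : Fin g → ℤ[X]) (a : Fin g → Fin d → ℤ) (Y : Fin g → Fin d → ℕ), Sizes2 C X N F a Y →
      (∀ m M : ℕ, Real.log X ^ (g + 3) ≤ M → (m : ℝ) + M + Real.log X ^ (g + 5) ≤ N →
        ∃ bad : Finset (Fin g → Fin d → ℤ), bad ⊆ adm X F a Y ∧ (bad.card : ℝ) ≤ ε * (adm X F a Y).card ∧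
          ∀ c ∈ adm X F a Y, c ∉ bad → Stats (d - 1) lam ε (Ioc m (m + M)) (pw X d lam (poly F c)) ∧
            c0 * M ≤ (((Ioc m (m + M)).filter (fun i => d - 1 ≤ pw X d lam (poly F c) i)).card : ℝ)) ∧
      (∀ m : ℕ, (m : ℝ) + Real.log X ^ (g + 5) ≤ N →
        Stats (2 * d - 1) lam ε (adm X F a Y) (fun c => pw X d lam (poly F c) m)) := by
  obtain ⟨B1, hB1⟩ := quenched_stats hA Run7.h215.PO.t_TCOUNT Run7.h215.PO.t_WSMALL d g C hd hg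
  obtain ⟨B2, hB2⟩ := annealed_stats hA Run7.h215.PO.t_TCOUNT Run7.h215.PO.t_WSMALL d g C hd hg
  refine ⟨max B1 B2, fun lam ε hlam hε => ?_⟩
  obtain ⟨c0, hc0, X1, h1⟩ := hB1 lam ε hlam hε
  obtain ⟨X2, h2⟩ := hB2 lam ε hlam hε
  obtain ⟨X3, h3⟩ := Pool.Agent.H373R2.T7.ev_L' 1
  refine ⟨c0, hc0, max X1 (max X2 X3), fun X hX N hN F a Y hS => ?_⟩
  have a1 := h1 X (le_trans (le_max_left _ _) hX)
  have a2 := h2 X (le_trans (le_trans (le_max_left _ _) (le_max_right _ _)) hX)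
  have hL1 := h3 X (le_trans (le_trans (le_max_right _ _) (le_max_right _ _)) hX)
  have hLg : 1 ≤ Real.log X ^ (g + 5) := one_le_pow₀ hL1
  have hmB : ∀ m M : ℕ, (m : ℝ) + M + Real.log X ^ (g + 5) ≤ N → ∀ B' ≤ max B1 B2,
      ((m : ℝ) + M + 1) ^ (5 * (d - 1)) * Real.log X ^ B' ≤ X := by
    intro m M hmM B' hB'
    refine le_trans ?_ hN
    apply mul_le_mul
    · apply pow_le_pow_left₀ (by positivity)
      linarith
    · exact pow_le_pow_right₀ hL1 hB'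
    · positivity
    · positivity
  refine ⟨fun m M hM hmM => ?_, fun m hm => ?_⟩
  · obtain ⟨bad, hb1, hb2, hb3⟩ := a1 m M hM (hmB m M hmM _ (le_max_left _ _)) (vals F) a Y (hyp2 C X N m M F a Y hS hmM)
    rw [adm_eq2]
    refine ⟨bad, hb1, hb2, fun c hc hcb => ?_⟩
    have h4 := hb3 c hc hcb
    unfold Good at h4
    have e : (fun i => cw X d lam (PO.fv (vals F) c) i) = pw X d lam (poly F c) := by
      funext i
      rw [pw_eq]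
    rw [e] at h4
    simp only [← pw_eq] at h4
    exact h4
  · have hm' : (m : ℝ) + (0 : ℕ) + Real.log X ^ (g + 5) ≤ N := by push_cast; linarith
    have h4 := a2 m 0 (hmB m 0 hm' _ (le_max_right _ _)) (vals F) a Y (hyp2 C X N m 0 F a Y hS hm') m le_rfl (by omega)
    rw [adm_eq2]
    simp only [pw_eq]
    exact h4

end Pool.Agent.Run7.h385.PQ.Fin2
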