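import Pool.Agent.Run7.h385.PQ.Stm
import Pool.Agent.Run7.h270.PQ.SUPT

/-!
# Project PQ, piece SUPA: exponential sums in almost all intervals, arbitrary frequencies
-/

set_option autoImplicit false

namespace Pool.Agent.Run7.h385.PQ

open Finset hiding box
open Pool.Agent.H373R2.T7
open Pool.Agent.H807R2.Dav
open Pool.Agent.Run7.h270.PQ (TT TT_nonneg gz_le)

/-- Dirichlet's approximation with a coprime fraction -/
lemma dir (θ : ℝ) (Q : ℕ) (hQ : 1 ≤ Q) : ∃ q : ℕ, 1 ≤ q ∧ q ≤ Q ∧ ∃ a : ℤ, IsCoprime a (q : ℤ) ∧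
    |θ - a / q| ≤ 1 / (q : ℝ) ^ 2 ∧ |θ - a / q| * Q ≤ 1 := by
  obtain ⟨r, hr1, hr2⟩ := Real.exists_rat_abs_sub_le_and_den_le θ (n := Q) (by omega)
  have hq0 : (0 : ℝ) < r.den := by exact_mod_cast r.den_pos
  have hq1 : (1 : ℝ) ≤ r.den := by exact_mod_cast r.den_pos
  have hqQ : (r.den : ℝ) ≤ Q := by exact_mod_cast hr2
  have hr : (r : ℝ) = (r.num : ℝ) / r.den := by
    exact_mod_cast (Rat.num_div_den r).symm
  refine ⟨r.den, r.den_pos, hr2, r.num, ?_, ?_, ?_⟩
  · rw [Int.isCoprime_iff_gcd_eq_one]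
    exact r.reduced
  · rw [← hr]
    refine hr1.trans ?_
    apply one_div_le_one_div_of_le (by positivity)
    rw [sq]
    apply mul_le_mul_of_nonneg_right _ hq0.le
    linarith
  · rw [← hr]
    have h1 : |θ - r| * Q ≤ 1 / (((Q : ℝ) + 1) * r.den) * Q := mul_le_mul_of_nonneg_right hr1 (Nat.cast_nonneg _)
    refine h1.trans ?_
    rw [one_div, inv_mul_le_iff₀ (by positivity)]
    nlinarith

lemma TT_triv (K z S v : ℕ) (θ : ℝ) (hK : 2 ≤ K) (hV : (Vz z)⁻¹ ≤ Real.log K) (hvS : v + S ≤ 2 * K) :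
    TT z S v θ ≤ 4 * Real.log K * S := by
  have hKr : (2 : ℝ) ≤ K := by exact_mod_cast hK
  have h1 : Real.log ((2 * K : ℕ) : ℝ) ≤ 2 * Real.log K := by
    push_cast
    rw [Real.log_mul (by norm_num) (by linarith)]
    have := Real.log_le_log (by norm_num) hKr
    linarith
  have h2 : Real.log (K : ℝ) ≤ Real.log ((2 * K : ℕ) : ℝ) := by
    apply Real.log_le_log (by linarith)
    push_cast
    linarith
  unfold TT
  refine (norm_sum_le _ _).trans ?_
  have h3 : ∀ n ∈ Ioc v (v + S), ‖((gz z n : ℝ) : ℂ) * ee ((n : ℝ) * θ)‖ ≤ 4 * Real.log K := by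
    intro n hn
    rw [mem_Ioc] at hn
    rw [norm_mul, norm_ee, mul_one, Complex.norm_real, Real.norm_eq_abs]
    have h4 := gz_le (z := z) (n := n) (K := 2 * K) (by omega) (by omega) (hV.trans h2)
    linarith
  refine (sum_le_sum h3).trans (le_of_eq ?_)
  rw [sum_const, nsmul_eq_mul, Nat.card_Ioc]
  have : v + S - v = S := by omega
  rw [this]
  ring

lemma TT_split (z S v : ℕ) (θ : ℝ) : TT z S v θ ≤
    ‖∑ n ∈ Ioc v (v + S), ((ArithmeticFunction.vonMangoldt n : ℝ) : ℂ) * ee ((n : ℝ) * θ)‖ +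
    ‖∑ n ∈ Ioc v (v + S), ((lamz z n : ℝ) : ℂ) * ee ((n : ℝ) * θ)‖ := by
  unfold TT
  have e : ∑ n ∈ Ioc v (v + S), ((gz z n : ℝ) : ℂ) * ee ((n : ℝ) * θ) =
      ∑ n ∈ Ioc v (v + S), ((ArithmeticFunction.vonMangoldt n : ℝ) : ℂ) * ee ((n : ℝ) * θ) -
      ∑ n ∈ Ioc v (v + S), ((lamz z n : ℝ) : ℂ) * ee ((n : ℝ) * θ) := by
    rw [← sum_sub_distrib]
    apply sum_congr rfl
    intro n _
    unfold gz
    push_cast
    ring
  rw [e]
  exact norm_sub_le _ _

set_option maxHeartbeats 4000000 in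
theorem t_SUPA (hMIN : S_MIN) (hMINZ : S_MINZ) (hMAJ : S_MAJ) : S_SUPA := by
  intro U
  obtain ⟨BM, n1, hmin⟩ := hMIN (U + 2)
  set A := max BM (U + 8) with hA
  have hABM : BM ≤ A := le_max_left _ _
  have hAU : U + 8 ≤ A := le_max_right _ _
  obtain ⟨B1, hB1⟩ := hMAJ (A + 1) (U + 3)
  refine ⟨A + 2 * B1 + U + BM + 10, fun E => ?_⟩
  set B := A + 2 * B1 + U + BM + 10 with hB
  obtain ⟨n2, hminz⟩ := hMINZ (E + 1) (U + 2)
  obtain ⟨n3, hmaj⟩ := hB1 (E + 1)
  obtain ⟨n4, hV⟩ := Vz_inv_small E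
  obtain ⟨n5, h5⟩ := ev_L' (max (2 ^ (A + B + E + U + 20)) (2 * (n1 + n2 + n3) + 2))
  -- sizes
  have hlim : Filter.Tendsto (fun N : ℕ => Real.log (N : ℝ)) Filter.atTop Filter.atTop :=
    Real.tendsto_log_atTop.comp (tendsto_natCast_atTop_atTop (R := ℝ))
  have hev : ∀ᶠ N : ℕ in Filter.atTop, Real.log 2 + ((U : ℝ) + 4) * Real.log (Real.log N) ≤ (1 / 2) * Real.log N := by
    have g5 := (Real.isLittleO_log_id_atTop).bound (show (0 : ℝ) < 1 / (4 * (U + 4)) by positivity)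
    have g6 := hlim.eventually g5
    filter_upwards [g6, hlim.eventually_ge_atTop 4] with N h7 h8
    rw [Real.norm_of_nonneg (Real.log_nonneg (by linarith)), id, Real.norm_of_nonneg (by linarith), div_mul_eq_mul_div,
      le_div_iff₀ (by positivity)] at h7
    have h9 := Real.log_two_lt_d9
    nlinarith
  obtain ⟨n6, h6⟩ := Filter.eventually_atTop.1 hev
  refine ⟨max (max n4 n5) (max n6 3), fun K hK z hz1 hz2 S hS1 hS2 θ => ?_⟩
  have a4 := hV K (le_trans (le_trans (le_max_left _ _) (le_max_left _ _)) hK)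
  have a5 := h5 K (le_trans (le_trans (le_max_right _ _) (le_max_left _ _)) hK)
  have a6 := h6 K (le_trans (le_trans (le_max_left _ _) (le_max_right _ _)) hK)
  have hK3 : 3 ≤ K := le_trans (le_trans (le_max_right _ _) (le_max_right _ _)) hK
  set L := Real.log K with hL
  have hKr : (3 : ℝ) ≤ K := by exact_mod_cast hK3
  have hK0 : (0 : ℝ) < K := by linarith
  have hL1 : (2 : ℝ) ^ (A + B + E + U + 20) ≤ L := (le_max_left _ _).trans a5
  have hL2 : 2 * ((n1 : ℝ) + n2 + n3) + 2 ≤ L := (le_max_right _ _).trans a5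
  have hpw : ∀ i ≤ A + B + E + U + 20, (2 : ℝ) ^ i ≤ L := fun i hi =>
    (pow_le_pow_right₀ (by norm_num) hi).trans hL1
  have hL16 : 16 ≤ L := by have := hpw 4 (by omega); linarith
  have hL0 : 0 < L := by linarith
  have hLone : 1 ≤ L := by linarith
  have hz : 1 ≤ z := by
    have : (1 : ℝ) ≤ z := (one_le_pow₀ hLone).trans hz1
    exact_mod_cast this
  have hVz := a4 z hz hz2
  have hSB : ∀ i ≤ B, (S : ℝ) * L ^ i ≤ K := fun i hi =>
    (mul_le_mul_of_nonneg_left (pow_le_pow_right₀ hLone hi) (Nat.cast_nonneg _)).trans hS2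
  have hSK : (S : ℝ) ≤ K := by have := hSB 0 (by omega); simpa using this
  have hK23 : (0 : ℝ) < (K : ℝ) ^ (2 / 3 : ℝ) := by positivity
  have hSlow : ∀ i ≤ B, (K : ℝ) ^ (2 / 3 : ℝ) * L ^ i ≤ S := fun i hi =>
    (mul_le_mul_of_nonneg_left (pow_le_pow_right₀ hLone hi) hK23.le).trans hS1
  have hS0 : (0 : ℝ) < S := lt_of_lt_of_le (by positivity) (hSlow 0 (by omega))
  have hSK' : S ≤ K := by exact_mod_cast hSK
  -- the cube root
  set k3 : ℝ := (K : ℝ) ^ (1 / 3 : ℝ) with hk3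
  have hk30 : 0 < k3 := by positivity
  have hk31 : 1 ≤ k3 := Real.one_le_rpow (by linarith) (by norm_num)
  have hk33 : k3 ^ 3 = K := by
    rw [hk3, ← Real.rpow_natCast, ← Real.rpow_mul hK0.le]
    norm_num
  have hk32 : (K : ℝ) ^ (2 / 3 : ℝ) = k3 ^ 2 := by
    rw [hk3, ← Real.rpow_natCast, ← Real.rpow_mul hK0.le]
    norm_num
  have hS2low : (K : ℝ) * k3 * L ^ (2 * (A + B1 + 1)) ≤ (S : ℝ) ^ 2 := by
    have h1 := hSlow (A + B1 + 1) (by omega)
    have h2 := pow_le_pow_left₀ (by positivity) h1 2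
    refine le_trans (le_of_eq ?_) h2
    rw [hk32]
    calc (K : ℝ) * k3 * L ^ (2 * (A + B1 + 1)) = k3 ^ 3 * k3 * L ^ (2 * (A + B1 + 1)) := by rw [hk33]
      _ = (k3 ^ 2 * L ^ (A + B1 + 1)) ^ 2 := by rw [mul_pow, ← pow_mul L, mul_comm (A + B1 + 1) 2]; ring
  -- the logarithm of the relevant places
  have hlog : ∀ v : ℕ, (K : ℝ) ≤ 2 * L ^ (U + 4) * v → L / 2 ≤ Real.log v ∧ n1 + n2 + n3 + 2 ≤ v := by
    intro v hv
    have hv0 : (0 : ℝ) < v := by
      by_contra h
      push Not at h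
      have h1 : 2 * L ^ (U + 4) * (v : ℝ) ≤ 0 := mul_nonpos_of_nonneg_of_nonpos (by positivity) h
      linarith
    have h1 := Real.log_le_log hK0 hv
    rw [Real.log_mul (by positivity) hv0.ne', Real.log_mul (by norm_num) (by positivity), Real.log_pow] at h1
    push_cast at h1
    have h2 : L / 2 ≤ Real.log v := by
      rw [← hL] at h1
      linarith
    refine ⟨h2, ?_⟩
    have h3 := Real.log_le_sub_one_of_pos hv0
    have h4 : ((n1 + n2 + n3 + 2 : ℕ) : ℝ) ≤ v := by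
      push_cast
      linarith
    exact_mod_cast h4
  have hLhalf : ∀ i ≤ A + B + E + U + 10, ∀ l : ℝ, L / 2 ≤ l → L ^ i ≤ l ^ (i + 1) := by
    intro i hi l hl
    have hl0 : 0 < l := by linarith
    rw [pow_succ]
    have h1 : (L / 2) ^ i * (L / 2) ≤ l ^ i * l := by
      apply mul_le_mul (pow_le_pow_left₀ (by positivity) hl i) hl (by positivity) (by positivity)
    refine le_trans ?_ h1
    rw [div_pow, div_mul_div_comm, le_div_iff₀ (by positivity)]
    have h3 := hpw (i + 1) (by omega)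
    have h4 : (2 : ℝ) ^ i * 2 = 2 ^ (i + 1) := by ring
    rw [h4]
    exact mul_le_mul_of_nonneg_left h3 (by positivity)
  -- Dirichlet
  set R : ℝ := (S : ℝ) ^ 2 / (K * L ^ A) with hR
  have hRlow : k3 * L ^ (A + 2 * B1 + 2) ≤ R := by
    rw [hR, le_div_iff₀ (by positivity)]
    refine le_trans (le_of_eq ?_) hS2low
    have : 2 * (A + B1 + 1) = (A + 2 * B1 + 2) + A := by ring
    rw [this, pow_add]
    ring
  have hR4 : 4 ≤ R := by
    have h1 : L ≤ L ^ (A + 2 * B1 + 2) := by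
      calc L = L ^ 1 := (pow_one L).symm
        _ ≤ _ := pow_le_pow_right₀ hLone (by omega)
    have h2 : 1 * L ≤ k3 * L ^ (A + 2 * B1 + 2) := mul_le_mul hk31 h1 hL0.le hk30.le
    linarith
  set Q : ℕ := ⌊R⌋₊ with hQ
  have hQR : (Q : ℝ) ≤ R := Nat.floor_le (by linarith)
  have hQR2 : R / 2 ≤ Q := by
    have := (Nat.lt_floor_add_one R).le
    rw [← hQ] at this
    linarith
  have hQ1 : 1 ≤ Q := by
    have : (1 : ℝ) ≤ Q := by linarith
    exact_mod_cast this
  choose qq hq1 hqQ aa hcop hap1 hap2 using fun v : ℕ => dir (θ v) Q hQ1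
  have hRK : R * (K * L ^ A) = (S : ℝ) ^ 2 := by
    rw [hR]
    exact div_mul_cancel₀ _ (by positivity)
  have hqK : ∀ v, (qq v : ℝ) * (K * L ^ A) ≤ (S : ℝ) ^ 2 := by
    intro v
    rw [← hRK]
    apply mul_le_mul_of_nonneg_right _ (by positivity)
    have : (qq v : ℝ) ≤ Q := by exact_mod_cast hqQ v
    linarith
  set D := (Icc 1 K).filter (fun v : ℕ => (K : ℝ) < L ^ (U + 4) * v) with hD
  have hDv : ∀ v ∈ D, 1 ≤ v ∧ v ≤ K ∧ (K : ℝ) < L ^ (U + 4) * v ∧ L / 2 ≤ Real.log v ∧ n1 + n2 + n3 + 2 ≤ v ∧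
      Real.log v ≤ L := by
    intro v hv
    rw [hD, mem_filter, mem_Icc] at hv
    obtain ⟨⟨h1, h2⟩, h3⟩ := hv
    obtain ⟨h4, h5⟩ := hlog v (by
      have : (0 : ℝ) ≤ L ^ (U + 4) * v := by positivity
      linarith)
    refine ⟨h1, h2, h3, h4, h5, ?_⟩
    apply Real.log_le_log (by exact_mod_cast h1) (by exact_mod_cast h2)
  -- part 1: the small places
  have part1 : ∑ v ∈ (Icc 1 K).filter (fun v : ℕ => ¬ (K : ℝ) < L ^ (U + 4) * v), TT z S v (θ v) ≤
      K * S / L ^ U * (1 / 3) := by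
    have h1 : ∀ v ∈ (Icc 1 K).filter (fun v : ℕ => ¬ (K : ℝ) < L ^ (U + 4) * v), TT z S v (θ v) ≤ 4 * L * S := by
      intro v hv
      rw [mem_filter, mem_Icc] at hv
      exact TT_triv K z S v (θ v) (by omega) hVz (by omega)
    refine (sum_le_sum h1).trans ?_
    rw [sum_const, nsmul_eq_mul]
    have h2 : (((Icc 1 K).filter (fun v : ℕ => ¬ (K : ℝ) < L ^ (U + 4) * v)).card : ℝ) ≤ K / L ^ (U + 4) := by
      have h3 : (Icc 1 K).filter (fun v : ℕ => ¬ (K : ℝ) < L ^ (U + 4) * v) ⊆ Icc 1 ⌊(K : ℝ) / L ^ (U + 4)⌋₊ := by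
        intro v hv
        rw [mem_filter, mem_Icc] at hv
        rw [mem_Icc]
        refine ⟨hv.1.1, Nat.le_floor ?_⟩
        rw [le_div_iff₀ (by positivity)]
        have := not_lt.1 hv.2
        linarith
      have h4 := card_le_card h3
      rw [Nat.card_Icc, Nat.add_sub_cancel] at h4
      have h5 : (⌊(K : ℝ) / L ^ (U + 4)⌋₊ : ℝ) ≤ K / L ^ (U + 4) := Nat.floor_le (by positivity)
      exact le_trans (by exact_mod_cast h4) h5
    calc (((Icc 1 K).filter (fun v : ℕ => ¬ (K : ℝ) < L ^ (U + 4) * v)).card : ℝ) * (4 * L * S) ≤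
          K / L ^ (U + 4) * (4 * L * S) := mul_le_mul_of_nonneg_right h2 (by positivity)
      _ = K * S / L ^ U * (4 / L ^ 3) := by
          rw [pow_add]
          field_simp
      _ ≤ K * S / L ^ U * (1 / 3) := by
          apply mul_le_mul_of_nonneg_left _ (by positivity)
          rw [div_le_div_iff₀ (by positivity) (by norm_num)]
          have : L ^ 1 ≤ L ^ 3 := pow_le_pow_right₀ hLone (by norm_num)
          linarith
  -- part 2: minor arcs
  have part2 : ∑ v ∈ D.filter (fun v : ℕ => L ^ A < qq v), TT z S v (θ v) ≤ K * S / L ^ U * (1 / 3) := by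
    have h1 : ∀ v ∈ D.filter (fun v : ℕ => L ^ A < qq v), TT z S v (θ v) ≤ 2 * (S / L ^ (U + 1)) := by
      intro v hv
      rw [mem_filter] at hv
      obtain ⟨b1, b2, b3, b4, b5, b6⟩ := hDv v hv.1
      have hqA := hv.2
      have hv0 : (0 : ℝ) < v := by exact_mod_cast b1
      have hvK : (v : ℝ) ≤ K := by exact_mod_cast b2
      have hlv0 : 0 < Real.log v := by linarith
      have hlv1 : 1 ≤ Real.log v := by linarith
      have hSv : (S : ℝ) ≤ v := by
        have h2 := hSB (U + 4) (by omega)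
        have h3 : (S : ℝ) * L ^ (U + 4) < v * L ^ (U + 4) := by linarith
        exact (lt_of_mul_lt_mul_right h3 (by positivity)).le
      have hSv' : S ≤ v := by exact_mod_cast hSv
      have hAm : ∀ i ≤ A, Real.log v ^ i ≤ L ^ A := fun i hi =>
        (pow_le_pow_left₀ hlv0.le b6 i).trans (pow_le_pow_right₀ hLone hi)
      have g1 := hmin v (by omega) S (by
        refine le_trans ?_ (hSlow BM (by omega))
        apply mul_le_mul (Real.rpow_le_rpow hv0.le hvK (by norm_num)) (pow_le_pow_left₀ hlv0.le b6 _) (by positivity)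
          (by positivity)) hSv' (qq v) ((hAm BM hABM).trans hqA.le) (by
        refine le_trans ?_ (hqK v)
        rw [mul_assoc]
        apply mul_le_mul_of_nonneg_left _ (Nat.cast_nonneg _)
        exact mul_le_mul hvK (hAm BM hABM) (by positivity) hK0.le) (aa v) (hcop v) (θ v) (hap1 v)
      have g2 := hminz v (by omega) z hz (hz2.trans (hLhalf E (by omega) _ b4)) S (by
        calc √(v : ℝ) ≤ √(K : ℝ) := Real.sqrt_le_sqrt hvK
          _ = (K : ℝ) ^ (1 / 2 : ℝ) := Real.sqrt_eq_rpow _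
          _ ≤ (K : ℝ) ^ (2 / 3 : ℝ) := Real.rpow_le_rpow_of_exponent_le (by linarith) (by norm_num)
          _ ≤ S := by have := hSlow 0 (by omega); simpa using this) hSv' (qq v) ((hAm (U + 2 + 6) (by omega)).trans hqA.le) (by
        have h2 : (qq v : ℝ) * Real.log v ^ (U + 2 + 6) ≤ qq v * L ^ A :=
          mul_le_mul_of_nonneg_left (hAm _ (by omega)) (Nat.cast_nonneg _)
        refine h2.trans ?_
        have h3 := hqK v
        have h4 : (S : ℝ) ^ 2 ≤ S * K := by rw [sq]; exact mul_le_mul_of_nonneg_left hSK hS0.le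
        have h5 : (qq v : ℝ) * L ^ A * K ≤ S * K := by
          calc (qq v : ℝ) * L ^ A * K = (qq v : ℝ) * (K * L ^ A) := by ring
            _ ≤ _ := h3.trans h4
        exact le_of_mul_le_mul_right h5 hK0) (aa v) (hcop v) (θ v) (hap1 v)
      refine (TT_split z S v (θ v)).trans ?_
      have h2 : (S : ℝ) / Real.log v ^ (U + 2) ≤ S / L ^ (U + 1) := by
        apply div_le_div_of_nonneg_left hS0.le (by positivity)
        exact hLhalf (U + 1) (by omega) _ b4
      linarith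
    refine (sum_le_sum h1).trans ?_
    rw [sum_const, nsmul_eq_mul]
    have h2 : ((D.filter (fun v : ℕ => L ^ A < qq v)).card : ℝ) ≤ K := by
      have h3 : (D.filter (fun v : ℕ => L ^ A < qq v)).card ≤ (Icc 1 K).card :=
        card_le_card ((filter_subset _ _).trans (filter_subset _ _))
      rw [Nat.card_Icc, Nat.add_sub_cancel] at h3
      exact_mod_cast h3
    calc ((D.filter (fun v : ℕ => L ^ A < qq v)).card : ℝ) * (2 * (S / L ^ (U + 1))) ≤ K * (2 * (S / L ^ (U + 1))) :=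
          mul_le_mul_of_nonneg_right h2 (by positivity)
      _ = K * S / L ^ U * (2 / L) := by
          rw [pow_succ]
          field_simp
      _ ≤ K * S / L ^ U * (1 / 3) := by
          apply mul_le_mul_of_nonneg_left _ (by positivity)
          rw [div_le_div_iff₀ hL0 (by norm_num)]
          linarith
  -- part 3: major arcs
  set Ma := D.filter (fun v : ℕ => ¬ L ^ A < qq v) with hMa
  set J : ℕ := Nat.log 2 K + 1 with hJ
  set Y : ℕ := ⌊R / (2 * L ^ B1)⌋₊ with hY
  have hY0 : 0 ≤ R / (2 * L ^ B1) := by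
    have : 0 < R := by linarith
    positivity
  have hY1 : (Y : ℝ) ≤ R / (2 * L ^ B1) := Nat.floor_le hY0
  have hYlow : k3 * L ^ B1 ≤ Y := by
    have h1 := (Nat.lt_floor_add_one (R / (2 * L ^ B1))).le
    rw [← hY] at h1
    have h2 : 2 * (k3 * L ^ B1) ≤ R / (2 * L ^ B1) := by
      rw [le_div_iff₀ (by positivity)]
      refine le_trans ?_ hRlow
      have h3 : L ^ (A + 2 * B1 + 2) = L ^ A * L ^ 2 * (L ^ B1 * L ^ B1) := by
        rw [← pow_add, ← pow_add, ← pow_add]
        congr 1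
        ring
      rw [h3]
      have h4 : 4 ≤ L ^ A * L ^ 2 := by
        have h5 : 1 ≤ L ^ A := one_le_pow₀ hLone
        nlinarith
      calc 2 * (k3 * L ^ B1) * (2 * L ^ B1) = k3 * (4 * (L ^ B1 * L ^ B1)) := by ring
        _ ≤ k3 * (L ^ A * L ^ 2 * (L ^ B1 * L ^ B1)) := by
            apply mul_le_mul_of_nonneg_left _ hk30.le
            exact mul_le_mul_of_nonneg_right h4 (by positivity)
    have h3 : 1 ≤ k3 * L ^ B1 := one_le_mul_of_one_le_of_one_le hk31 (one_le_pow₀ hLone)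
    linarith
  have hYB : (Y : ℝ) * L ^ B1 ≤ R / 2 := by
    calc (Y : ℝ) * L ^ B1 ≤ R / (2 * L ^ B1) * L ^ B1 := mul_le_mul_of_nonneg_right hY1 (by positivity)
      _ = R / 2 := by field_simp
  have hRS : R / 2 ≤ S := by
    have h1 : R ≤ S := by
      rw [hR, div_le_iff₀ (by positivity), sq]
      apply mul_le_mul_of_nonneg_left _ hS0.le
      have : 1 ≤ L ^ A := one_le_pow₀ hLone
      nlinarith
    linarith
  have hcell : ∀ i ∈ range J, ∑ v ∈ Ma.filter (fun v => Nat.log 2 (v - 1) = i), TT z S v (θ v) ≤ K * S / L ^ (U + 2) := by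
    intro i _
    rcases (Ma.filter (fun v => Nat.log 2 (v - 1) = i)).eq_empty_or_nonempty with h0 | ⟨v0, hv0⟩
    · rw [h0, sum_empty]; positivity
    have hsub : ∀ v ∈ Ma.filter (fun v => Nat.log 2 (v - 1) = i), v ∈ D ∧ (qq v : ℝ) ≤ L ^ A ∧ 2 ^ i < v ∧ v ≤ 2 * 2 ^ i := by
      intro v hv
      rw [mem_filter, hMa, mem_filter] at hv
      obtain ⟨⟨h1, h2⟩, h3⟩ := hv
      obtain ⟨b1, b2, b3, b4, b5, b6⟩ := hDv v h1
      have h4 := Nat.pow_log_le_self 2 (x := v - 1) (by omega)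
      have h5 := Nat.lt_pow_succ_log_self (b := 2) (by norm_num) (v - 1)
      rw [h3] at h4 h5
      rw [Nat.succ_eq_add_one, pow_succ] at h5
      exact ⟨h1, not_lt.1 h2, by omega, by omega⟩
    obtain ⟨c1, c2, c3, c4⟩ := hsub v0 hv0
    obtain ⟨b1, b2, b3, b4, b5, b6⟩ := hDv v0 c1
    set x : ℕ := 2 ^ i with hx
    have hxK : (x : ℝ) ≤ K := by
      have : x ≤ K := by omega
      exact_mod_cast this
    have hx0 : (0 : ℝ) < x := by
      have : 0 < x := by rw [hx]; positivity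
      exact_mod_cast this
    have hKx : (K : ℝ) ≤ 2 * L ^ (U + 4) * x := by
      have h1 : (v0 : ℝ) ≤ 2 * x := by exact_mod_cast c4
      have h2 : L ^ (U + 4) * (v0 : ℝ) ≤ L ^ (U + 4) * (2 * x) := mul_le_mul_of_nonneg_left h1 (by positivity)
      linarith
    obtain ⟨d1, d2⟩ := hlog x hKx
    have d3 : Real.log x ≤ L := Real.log_le_log hx0 hxK
    have hlx0 : 0 < Real.log x := by linarith
    have hSx : (S : ℝ) ≤ x := by
      have h1 := hSB (U + 5) (by omega)
      have h2 : (S : ℝ) * L * L ^ (U + 4) ≤ 2 * x * L ^ (U + 4) := by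
        calc (S : ℝ) * L * L ^ (U + 4) = S * L ^ (U + 5) := by ring
          _ ≤ K := h1
          _ ≤ 2 * L ^ (U + 4) * x := hKx
          _ = _ := by ring
      have h3 := le_of_mul_le_mul_right h2 (by positivity)
      nlinarith
    have hlB1 : Real.log x ^ B1 ≤ L ^ B1 := pow_le_pow_left₀ hlx0.le d3 _
    have hYx : (Y : ℝ) * Real.log x ^ B1 ≤ R / 2 :=
      (mul_le_mul_of_nonneg_left hlB1 (Nat.cast_nonneg _)).trans hYB
    have g1 := hmaj x (by omega) z (hlB1.trans ((pow_le_pow_right₀ hLone (by omega)).trans hz1))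
      (hz2.trans (hLhalf E (by omega) _ d1)) S Y (by
        refine le_trans ?_ hYlow
        apply mul_le_mul _ hlB1 (by positivity) hk30.le
        exact Real.rpow_le_rpow hx0.le hxK (by norm_num)) (hYx.trans hRS) (by exact_mod_cast hSx)
      (Ma.filter (fun v => Nat.log 2 (v - 1) = i)) (by
        intro v hv
        obtain ⟨_, _, e1, e2⟩ := hsub v hv
        rw [mem_Ioc]
        exact ⟨e1, e2⟩) qq aa θ (by
        intro v hv
        obtain ⟨_, e0, _, _⟩ := hsub v hv
        refine ⟨hq1 v, e0.trans (hLhalf A (by omega) _ d1), ?_⟩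
        refine le_trans ?_ (hap2 v)
        exact mul_le_mul_of_nonneg_left (hYx.trans hQR2) (abs_nonneg _))
    have g2 : ∑ v ∈ Ma.filter (fun v => Nat.log 2 (v - 1) = i), TT z S v (θ v) ≤ x * S / Real.log x ^ (U + 3) := g1
    refine g2.trans ?_
    apply div_le_div₀ (by positivity) (mul_le_mul_of_nonneg_right hxK hS0.le) (by positivity)
    exact hLhalf (U + 2) (by omega) _ d1
  have part3 : ∑ v ∈ Ma, TT z S v (θ v) ≤ K * S / L ^ U * (1 / 3) := by
    have h1 : ∑ i ∈ range J, ∑ v ∈ Ma.filter (fun v => Nat.log 2 (v - 1) = i), TT z S v (θ v) = ∑ v ∈ Ma, TT z S v (θ v) := by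
      apply sum_fiberwise_of_maps_to
      intro v hv
      rw [hMa, mem_filter] at hv
      obtain ⟨b1, b2, _⟩ := hDv v hv.1
      rw [mem_range, hJ]
      have : Nat.log 2 (v - 1) ≤ Nat.log 2 K := Nat.log_mono_right (by omega)
      omega
    rw [← h1]
    refine (sum_le_sum hcell).trans ?_
    rw [sum_const, nsmul_eq_mul, card_range]
    have h2 : (J : ℝ) ≤ 2 * L := by
      have h3 : (2 : ℝ) ^ (Nat.log 2 K) ≤ K := by exact_mod_cast Nat.pow_log_le_self 2 (x := K) (by omega)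
      have h4 := Real.log_le_log (by positivity) h3
      rw [Real.log_pow] at h4
      have h5 := Real.log_two_gt_d9
      rw [hJ]
      push_cast
      have h6 : (0 : ℝ) ≤ Nat.log 2 K := Nat.cast_nonneg _
      have h7 : (Nat.log 2 K : ℝ) * 0.6931471803 ≤ Nat.log 2 K * Real.log 2 := mul_le_mul_of_nonneg_left h5.le h6
      rw [← hL] at h4
      nlinarith
    calc (J : ℝ) * (K * S / L ^ (U + 2)) ≤ 2 * L * (K * S / L ^ (U + 2)) := mul_le_mul_of_nonneg_right h2 (by positivity)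
      _ = K * S / L ^ U * (2 / L) := by
          rw [pow_add]
          field_simp
      _ ≤ K * S / L ^ U * (1 / 3) := by
          apply mul_le_mul_of_nonneg_left _ (by positivity)
          rw [div_le_div_iff₀ hL0 (by norm_num)]
          linarith
  have hfin : ∑ v ∈ Icc 1 K, TT z S v (θ v) =
      (∑ v ∈ D.filter (fun v : ℕ => L ^ A < qq v), TT z S v (θ v) + ∑ v ∈ Ma, TT z S v (θ v)) +
      ∑ v ∈ (Icc 1 K).filter (fun v : ℕ => ¬ (K : ℝ) < L ^ (U + 4) * v), TT z S v (θ v) := by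
    rw [hMa, sum_filter_add_sum_filter_not, hD, sum_filter_add_sum_filter_not]
  have hgoal : ∑ v ∈ Icc 1 K, TT z S v (θ v) ≤ K * S / L ^ U := by
    rw [hfin]
    have : (0 : ℝ) ≤ K * S / L ^ U := by positivity
    linarith
  exact hgoal

end Pool.Agent.Run7.h385.PQ
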