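import Pool.Agent.Run7.h385.PQ.AsmJ
import Pool.Agent.Run7.h385.PQ.SUPA
import Pool.Agent.Run7.h385.PQ.Fin2
import Pool.Agent.Run7.h887.PQ.MAJ

/-! # Project PQ: assembly -/

set_option autoImplicit false

namespace Pool.Agent.Run7.h385.PQ

theorem a_SUPA : S_SUPA := t_SUPA b_MIN b_MINZ (Run7.h887.PQ.t_MAJ b_SIA b_LZ)

theorem a_JM : S_JM := b_JM a_SUPA

theorem a_ALLJ : S_ALLJ := b_ALLJ a_SUPA

end Pool.Agent.Run7.h385.PQ
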