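import Pool.Agent.Run7.h385.PQ.Stm
import Pool.Agent.Run7.h385.PO.TERM
import Pool.Agent.Run7.h385.PO.BIL
import Pool.Agent.Run7.h416.PO.COEF

set_option autoImplicit false

namespace Pool.Agent.Run7.h385.PQ

open Finset
open Pool.Agent.H373R2.T7
open Pool.Agent.H807R2.Dav
open Pool.Agent.Run7.h385.PO

lemma coef2 (d k : ℕ) (n : Fin k → ℕ) (N : ℕ) (hN : ∀ i, n i ≤ N) (A : Finset (Fin k)) (hA : A.card < d) :
    ∃ a : Fin d → ℤ, (∀ x : ℤ, ∑ j : Fin d, a j * x ^ (j : ℕ) = ∏ i ∈ A, (x - (n i : ℤ))) ∧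
      ∀ j, |a j| ≤ ((N : ℤ) + 1) ^ (d - 1) := by
  classical
  have key : ∀ A : Finset (Fin k), ∀ j : ℕ,
      |(∏ i ∈ A, (Polynomial.X - Polynomial.C (n i : ℤ))).coeff j| ≤ ((N : ℤ) + 1) ^ A.card := by
    intro A
    induction A using Finset.induction_on with
    | empty =>
      intro j
      simp only [prod_empty, card_empty, pow_zero, Polynomial.coeff_one]
      split_ifs <;> simp
    | insert a s ha ih =>
      intro j
      rw [prod_insert ha, card_insert_of_notMem ha, sub_mul, Polynomial.coeff_sub,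
        Polynomial.coeff_C_mul, pow_succ]
      have h1 : |(Polynomial.X * ∏ i ∈ s, (Polynomial.X - Polynomial.C (n i : ℤ))).coeff j| ≤
          ((N : ℤ) + 1) ^ s.card := by
        rcases j with _ | j
        · rw [Polynomial.coeff_zero_eq_eval_zero]
          simp only [Polynomial.eval_mul, Polynomial.eval_X, zero_mul, abs_zero]
          positivity
        · rw [Polynomial.coeff_X_mul]; exact ih j
      have h2 : |(n a : ℤ) * (∏ i ∈ s, (Polynomial.X - Polynomial.C (n i : ℤ))).coeff j| ≤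
          (N : ℤ) * ((N : ℤ) + 1) ^ s.card := by
        rw [abs_mul]
        refine mul_le_mul ?_ (ih j) (abs_nonneg _) (by positivity)
        rw [abs_of_nonneg (by positivity)]
        exact_mod_cast hN a
      calc _ ≤ _ := abs_sub _ _
        _ ≤ ((N : ℤ) + 1) ^ s.card + (N : ℤ) * ((N : ℤ) + 1) ^ s.card := add_le_add h1 h2
        _ = _ := by ring
  have hdeg : (∏ i ∈ A, (Polynomial.X - Polynomial.C (n i : ℤ))).natDegree < d := by
    rw [Polynomial.natDegree_prod_of_monic _ _ (fun i _ => Polynomial.monic_X_sub_C _)]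
    simp only [Polynomial.natDegree_X_sub_C, sum_const, smul_eq_mul, mul_one]
    exact hA
  refine ⟨fun j => (∏ i ∈ A, (Polynomial.X - Polynomial.C (n i : ℤ))).coeff j, fun x => ?_,
    fun j => ?_⟩
  · have h1 := Polynomial.eval_eq_sum_range' hdeg x
    have h2 := Fin.sum_univ_eq_sum_range
      (fun j => (∏ i ∈ A, (Polynomial.X - Polynomial.C (n i : ℤ))).coeff j * x ^ j) d
    refine h2.trans (h1.symm.trans ?_)
    rw [Polynomial.eval_prod]
    simp
  · refine (key A j).trans ?_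
    exact pow_le_pow_right₀ (by omega) (by omega)

set_option maxHeartbeats 4000000 in
theorem t_TERM2' (hBIL : S_BIL) (hSHIFT : S_SHIFT) : S_TERM2 := by
  intro d k hd hk n hinj N Hn hHn hn hnH u W hW Y K Ym hYm hK φ R hR hφ i0 S S' Bd hS hS' hBd0 hB hSY
  -- splitting
  have hcard : (univ.erase i0).card = k - 1 := by
    rw [card_erase_of_mem (mem_univ _), card_univ, Fintype.card_fin]
  obtain ⟨A, hAs, hAc⟩ := exists_subset_card_eq (s := univ.erase i0) (n := min (k - 1) (d - 1)) (by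
    rw [hcard]; exact min_le_left _ _)
  set A' := (univ.erase i0) \ A with hA'
  have hA'c : A'.card < d := by
    rw [hA', card_sdiff_of_subset hAs, hcard, hAc]
    omega
  have hAc' : A.card < d := by
    rw [hAc]; omega
  obtain ⟨a, ha, hab⟩ := coef2 d k n N hn A hAc'
  obtain ⟨b, hb, hbb⟩ := coef2 d k n N hn A' hA'c
  have hi0A : i0 ∉ A := fun h => (mem_erase.1 (hAs h)).1 rfl
  have hi0A' : i0 ∉ A' := fun h => (mem_erase.1 (mem_sdiff.1 h).1).1 rfl
  -- values of the two polynomials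
  have hPAi : ∀ i ∈ A, ∑ j : Fin d, a j * (n i : ℤ) ^ (j : ℕ) = 0 := by
    intro i hi
    rw [ha]
    exact prod_eq_zero hi (sub_self _)
  have hPBi : ∀ i ∈ A', ∑ j : Fin d, b j * (n i : ℤ) ^ (j : ℕ) = 0 := by
    intro i hi
    rw [hb]
    exact prod_eq_zero hi (sub_self _)
  have hWne : (W : ℤ) ≠ 0 := by
    have : 0 < W := hW
    exact_mod_cast this.ne'
  have hα : (W : ℤ) * ∑ j : Fin d, a j * (n i0 : ℤ) ^ (j : ℕ) ≠ 0 := by
    apply mul_ne_zero hWne
    rw [ha, prod_ne_zero_iff]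
    intro i hi h0
    have h1 : (n i0 : ℤ) = n i := by linarith
    have h2 : n i0 = n i := by exact_mod_cast h1
    exact hi0A (hinj h2 ▸ hi)
  have hβ : (W : ℤ) * ∑ j : Fin d, b j * (n i0 : ℤ) ^ (j : ℕ) ≠ 0 := by
    apply mul_ne_zero hWne
    rw [hb, prod_ne_zero_iff]
    intro i hi h0
    have h1 : (n i0 : ℤ) = n i := by linarith
    have h2 : n i0 = n i := by exact_mod_cast h1
    exact hi0A' (hinj h2 ▸ hi)
  have hprodb : ∀ A : Finset (Fin k), A.card < d → |∏ i ∈ A, ((n i0 : ℤ) - n i)| ≤ (Hn : ℤ) ^ (d - 1) := by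
    intro A hA
    rw [abs_prod]
    calc ∏ i ∈ A, |(n i0 : ℤ) - n i| ≤ ∏ i ∈ A, (Hn : ℤ) := prod_le_prod (fun _ _ => abs_nonneg _) (fun i _ => hnH i0 i)
      _ = (Hn : ℤ) ^ A.card := by rw [prod_const]
      _ ≤ (Hn : ℤ) ^ (d - 1) := by
        apply pow_le_pow_right₀
        · exact_mod_cast hHn
        · omega
  have hαb : |(W : ℤ) * ∑ j : Fin d, a j * (n i0 : ℤ) ^ (j : ℕ)| ≤ W * (Hn : ℤ) ^ (d - 1) := by
    rw [ha, abs_mul, Nat.abs_cast]
    exact mul_le_mul_of_nonneg_left (hprodb A hAc') (Nat.cast_nonneg _)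
  have hβb : |(W : ℤ) * ∑ j : Fin d, b j * (n i0 : ℤ) ^ (j : ℕ)| ≤ W * (Hn : ℤ) ^ (d - 1) := by
    rw [hb, abs_mul, Nat.abs_cast]
    exact mul_le_mul_of_nonneg_left (hprodb A' hA'c) (Nat.cast_nonneg _)
  set G : (Fin d → ℤ) → ℝ := fun t => ∏ i, φ i (u i + ev W t (n i)) with hG
  have hGb : ∀ t : Fin d → ℤ, (∀ j, |t j| ≤ 2 * (Y j : ℤ)) → |G t| ≤ R ^ k := by
    intro t ht
    exact prod_abs_le univ _ R hR (fun i _ => hφ i _ (hK t ht i))
  -- sizes
  have hS0 : (0 : ℝ) < S := by exact_mod_cast hS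
  have hYm0 : 0 < Ym := by
    have : 0 < 2 * S * (N + 1) ^ (d - 1) := by positivity
    omega
  have hYmr : (0 : ℝ) < Ym := by exact_mod_cast hYm0
  set H : ℝ := 2 * S * ((N : ℝ) + 1) ^ (d - 1) / Ym with hH
  have hH0 : 0 ≤ H := by positivity
  have hH1 : H ≤ 1 := by
    rw [hH, div_le_one hYmr]
    exact_mod_cast hSY
  have hHY : ∀ j, 2 * S * ((N : ℝ) + 1) ^ (d - 1) ≤ H * Y j := by
    intro j
    have h1 : H * Ym = 2 * S * ((N : ℝ) + 1) ^ (d - 1) := by
      rw [hH]; field_simp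
    rw [← h1]
    apply mul_le_mul_of_nonneg_left _ hH0
    exact_mod_cast hYm j
  have hvb : ∀ s ∈ range S, ∀ s' ∈ range S, ∀ j, |(s : ℤ) * a j + (s' : ℤ) * b j| ≤ 2 * S * ((N : ℤ) + 1) ^ (d - 1) := by
    intro s hs s' hs' j
    rw [mem_range] at hs hs'
    have h1 : |(s : ℤ) * a j| ≤ S * ((N : ℤ) + 1) ^ (d - 1) := by
      rw [abs_mul, Nat.abs_cast]
      apply mul_le_mul _ (hab j) (abs_nonneg _) (by positivity)
      exact_mod_cast hs.le
    have h2 : |(s' : ℤ) * b j| ≤ S * ((N : ℤ) + 1) ^ (d - 1) := by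
      rw [abs_mul, Nat.abs_cast]
      apply mul_le_mul _ (hbb j) (abs_nonneg _) (by positivity)
      exact_mod_cast hs'.le
    have h3 := abs_add_le ((s : ℤ) * a j) ((s' : ℤ) * b j)
    linarith
  have hSYz : ∀ j, 2 * S * ((N : ℤ) + 1) ^ (d - 1) ≤ Y j := by
    intro j
    have := hSY.trans (hYm j)
    exact_mod_cast this
  have htv : ∀ t ∈ box Y, ∀ s ∈ range S, ∀ s' ∈ range S, ∀ j,
      |(t + (fun j => (s : ℤ) * a j + (s' : ℤ) * b j)) j| ≤ 2 * (Y j : ℤ) := by
    intro t ht s hs s' hs' j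
    rw [mem_box] at ht
    have h1 := hvb s hs s' hs' j
    have h2 := hSYz j
    have h3 := ht j
    rw [Pi.add_apply]
    rw [abs_le] at h1 ⊢
    constructor <;> linarith
  -- the shift
  have hsh : ∀ s ∈ range S, ∀ s' ∈ range S,
      |∑ t ∈ box Y, G (t + (fun j => (s : ℤ) * a j + (s' : ℤ) * b j)) - ∑ t ∈ box Y, G t| ≤
        2 * d * H * R ^ k * ∏ j, (Y j : ℝ) := by
    intro s hs s' hs'
    apply hSHIFT d Y _ G (R ^ k) H (by positivity) hH0 hH1 _ hGb
    intro j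
    refine le_trans ?_ (hHY j)
    exact_mod_cast hvb s hs s' hs' j
  -- the inner sums
  have hin : ∀ t ∈ box Y, |∑ s ∈ range S, ∑ s' ∈ range S,
      G (t + (fun j => (s : ℤ) * a j + (s' : ℤ) * b j))| ≤ Bd (u i0 + ev W t (n i0)) * S * (R ^ k) ^ 2 := by
    intro t ht
    set f : ℕ → ℝ := fun s => ∏ i ∈ A', φ i (u i + ev W t (n i) + W * ((s : ℤ) * ∑ j : Fin d, a j * (n i : ℤ) ^ (j : ℕ))) with hf
    set h : ℕ → ℝ := fun s' => ∏ i ∈ A, φ i (u i + ev W t (n i) + W * ((s' : ℤ) * ∑ j : Fin d, b j * (n i : ℤ) ^ (j : ℕ))) with hh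
    have hval : ∀ (s s' : ℕ) (i : Fin k), u i + ev W (t + (fun j => (s : ℤ) * a j + (s' : ℤ) * b j)) (n i) =
        u i + ev W t (n i) + W * ((s : ℤ) * ∑ j : Fin d, a j * (n i : ℤ) ^ (j : ℕ)) +
          W * ((s' : ℤ) * ∑ j : Fin d, b j * (n i : ℤ) ^ (j : ℕ)) := by
      intro s s' i
      rw [ev_add, ev_comb]
      ring
    have hfac : ∀ s s' : ℕ, G (t + (fun j => (s : ℤ) * a j + (s' : ℤ) * b j)) =
        φ i0 ((u i0 + ev W t (n i0)) + (W * ∑ j : Fin d, a j * (n i0 : ℤ) ^ (j : ℕ)) * (s : ℤ) +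
          (W * ∑ j : Fin d, b j * (n i0 : ℤ) ^ (j : ℕ)) * (s' : ℤ)) * (f s * h s') := by
      intro s s'
      rw [hG]
      simp only
      rw [← mul_prod_erase univ _ (mem_univ i0), ← prod_sdiff hAs, ← hA']
      congr 1
      · rw [hval]
        congr 1
        ring
      · congr 1
        · rw [hf]
          apply prod_congr rfl
          intro i hi
          rw [hval, hPBi i hi]
          congr 1
          ring
        · rw [hh]
          apply prod_congr rfl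
          intro i hi
          rw [hval, hPAi i hi]
          congr 1
          ring
    have hfb : ∀ s ∈ range S, |f s| ≤ R ^ k := by
      intro s hs
      apply prod_abs_le _ _ R hR
      intro i hi
      apply hφ
      have h1 := hK _ (htv t ht s hs 0 (mem_range.2 hS)) i
      rw [hval] at h1
      rw [Nat.cast_zero, zero_mul, mul_zero, add_zero] at h1
      exact h1
    have hhb : ∀ s ∈ range S, |h s| ≤ R ^ k := by
      intro s hs
      apply prod_abs_le _ _ R hR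
      intro i hi
      apply hφ
      have h1 := hK _ (htv t ht 0 (mem_range.2 hS) s hs) i
      rw [hval] at h1
      rw [Nat.cast_zero, zero_mul, mul_zero, add_zero] at h1
      exact h1
    have hVK : |u i0 + ev W t (n i0)| ≤ K := by
      have h1 := hK _ (htv t ht 0 (mem_range.2 hS) 0 (mem_range.2 hS)) i0
      rw [hval] at h1
      simp only [Nat.cast_zero, zero_mul, mul_zero, add_zero] at h1
      exact h1
    have h1 := hBIL S' (fun m => φ i0 (u i0 + ev W t (n i0) + m)) (Bd (u i0 + ev W t (n i0))) (hB _ hVK) S 0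
      (W * ∑ j : Fin d, a j * (n i0 : ℤ) ^ (j : ℕ)) (W * ∑ j : Fin d, b j * (n i0 : ℤ) ^ (j : ℕ)) hα hβ (by
        intro s hs s' hs'
        rw [mem_range] at hs hs'
        rw [zero_add]
        have g1 : |(W * ∑ j : Fin d, a j * (n i0 : ℤ) ^ (j : ℕ)) * (s : ℤ)| ≤ W * (Hn : ℤ) ^ (d - 1) * S := by
          rw [abs_mul, Nat.abs_cast]
          apply mul_le_mul hαb _ (Nat.cast_nonneg _) (by positivity)
          exact_mod_cast hs.le
        have g2 : |(W * ∑ j : Fin d, b j * (n i0 : ℤ) ^ (j : ℕ)) * (s' : ℤ)| ≤ W * (Hn : ℤ) ^ (d - 1) * S := by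
          rw [abs_mul, Nat.abs_cast]
          apply mul_le_mul hβb _ (Nat.cast_nonneg _) (by positivity)
          exact_mod_cast hs'.le
        have g3 := abs_add_le ((W * ∑ j : Fin d, a j * (n i0 : ℤ) ^ (j : ℕ)) * (s : ℤ)) ((W * ∑ j : Fin d, b j * (n i0 : ℤ) ^ (j : ℕ)) * (s' : ℤ))
        have g4 : ((2 * W * S * Hn ^ (d - 1) : ℕ) : ℤ) ≤ S' := by exact_mod_cast hS'
        push_cast at g4
        linarith) f h (R ^ k) (by positivity) hfb hhb
    simp only [zero_add] at h1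
    have hfac2 : ∀ s s' : ℕ, G (t + (fun j => (s : ℤ) * a j + (s' : ℤ) * b j)) =
        φ i0 (u i0 + ev W t (n i0) + ((W * ∑ j : Fin d, a j * (n i0 : ℤ) ^ (j : ℕ)) * (s : ℤ) +
          (W * ∑ j : Fin d, b j * (n i0 : ℤ) ^ (j : ℕ)) * (s' : ℤ))) * (f s * h s') := by
      intro s s'
      rw [hfac, add_assoc]
    rw [sum_congr rfl (fun s _ => sum_congr rfl (fun s' _ => hfac2 s s'))]
    exact h1
  -- conclusion
  set P : ℝ := ∏ j, (Y j : ℝ) with hP
  have hP0 : 0 ≤ P := by positivity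
  have hcb : ((box Y).card : ℝ) = P := by
    rw [card_box, hP]
    push_cast
    rfl
  set SB : ℝ := ∑ t ∈ box Y, Bd (u i0 + ev W t (n i0)) with hSB
  set Er : ℝ := 2 * d * H * R ^ k * P with hEr
  have h1 : |∑ s ∈ range S, ∑ s' ∈ range S, (∑ t ∈ box Y, G (t + (fun j => (s : ℤ) * a j + (s' : ℤ) * b j)) - ∑ t ∈ box Y, G t)| ≤
      S * (S * Er) := by
    refine (abs_sum_le_sum_abs _ _).trans ?_
    calc ∑ s ∈ range S, |∑ s' ∈ range S, (∑ t ∈ box Y, G (t + (fun j => (s : ℤ) * a j + (s' : ℤ) * b j)) - ∑ t ∈ box Y, G t)| ≤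
        ∑ s ∈ range S, (S * Er) := by
          apply sum_le_sum
          intro s hs
          refine (abs_sum_le_sum_abs _ _).trans ?_
          calc ∑ s' ∈ range S, |∑ t ∈ box Y, G (t + (fun j => (s : ℤ) * a j + (s' : ℤ) * b j)) - ∑ t ∈ box Y, G t| ≤
              ∑ s' ∈ range S, Er := sum_le_sum (fun s' hs' => hsh s hs s' hs')
            _ = S * Er := by rw [sum_const, card_range, nsmul_eq_mul]
      _ = S * (S * Er) := by rw [sum_const, card_range, nsmul_eq_mul]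
  have h2 : |∑ s ∈ range S, ∑ s' ∈ range S, ∑ t ∈ box Y, G (t + (fun j => (s : ℤ) * a j + (s' : ℤ) * b j))| ≤
      SB * S * (R ^ k) ^ 2 := by
    have e : ∑ s ∈ range S, ∑ s' ∈ range S, ∑ t ∈ box Y, G (t + (fun j => (s : ℤ) * a j + (s' : ℤ) * b j)) =
        ∑ t ∈ box Y, ∑ s ∈ range S, ∑ s' ∈ range S, G (t + (fun j => (s : ℤ) * a j + (s' : ℤ) * b j)) := by
      rw [sum_congr rfl (fun s _ => sum_comm), sum_comm]
    rw [e]
    refine (abs_sum_le_sum_abs _ _).trans ((sum_le_sum hin).trans (le_of_eq ?_))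
    rw [hSB, sum_mul, sum_mul]
  have h3 : ∑ s ∈ range S, ∑ s' ∈ range S, (∑ t ∈ box Y, G (t + (fun j => (s : ℤ) * a j + (s' : ℤ) * b j)) - ∑ t ∈ box Y, G t) =
      ∑ s ∈ range S, ∑ s' ∈ range S, ∑ t ∈ box Y, G (t + (fun j => (s : ℤ) * a j + (s' : ℤ) * b j)) - S * (S * ∑ t ∈ box Y, G t) := by
    rw [sum_congr rfl (fun s _ => sum_sub_distrib _ _), sum_sub_distrib]
    congr 1
    rw [sum_const, sum_const, card_range, nsmul_eq_mul, nsmul_eq_mul]
  rw [h3] at h1
  have h4 : |S * (S * ∑ t ∈ box Y, G t)| ≤ S * (S * Er) + SB * S * (R ^ k) ^ 2 := by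
    rw [abs_le] at h1 h2 ⊢
    constructor <;> linarith [h1.1, h1.2, h2.1, h2.2]
  have h5 : |S * (S * ∑ t ∈ box Y, G t)| = S * (S * |∑ t ∈ box Y, G t|) := by
    rw [abs_mul, abs_mul, abs_of_pos hS0]
  rw [h5] at h4
  have h6 : (S : ℝ) * (S * |∑ t ∈ box Y, G t|) ≤ S * (S * (R ^ (2 * k) / S * SB + 2 * d * H * R ^ k * P)) := by
    refine h4.trans (le_of_eq ?_)
    rw [hEr, ← pow_mul, mul_comm k 2]
    field_simp
    ring
  exact le_of_mul_le_mul_left (le_of_mul_le_mul_left h6 hS0) hS0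

theorem t_TERM2 : S_TERM2 := t_TERM2' t_BIL Pool.Agent.Run7.h416.PO.t_SHIFT

end Pool.Agent.Run7.h385.PQ
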