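import Pool.Agent.Run7.h385.PQ.STAT
import Pool.Agent.Run7.h385.PQ.TERM2
import Pool.Agent.Run7.h13.PQ.PRIMES2
import Pool.Agent.Run7.h270.PQ.DIST
import Pool.Agent.Run7.h270.PQ.MINZ
import Pool.Agent.Run7.h270.PQ.SUPT
import Pool.Agent.Run7.h376.PQ.DIFF2
import Pool.Agent.Run7.h376.PQ.JM
import Pool.Agent.Run7.h760.PQ.MIN
import Pool.Agent.Run7.h760.PQ.TII
import Pool.Agent.Run7.h373.CR.Sia
import Pool.Agent.Run7.h373.CR.Lz
import Pool.Agent.Run7.h373.CR.Win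
import Pool.Agent.Run7.h292.CR.SIC
import Pool.Agent.Run7.h292.CR.FD
import Pool.Agent.Run7.h292.CR.MOC
import Pool.Agent.Run7.h545.CR.DPL
import Pool.Agent.Run7.h437.CR.PW
import Pool.Agent.Run7.h437.CR.LZF
import Pool.Agent.Run7.h18.CR.Lup
import Pool.Agent.Run7.h18.CR.Chr

/-! # Project PQ: assembly of all pieces but the exponential sums in almost all intervals -/

set_option autoImplicit false

namespace Pool.Agent.Run7.h385.PQ

open Pool.Agent.Run7.h385.PO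

theorem b_SIA : Pool.Agent.Q236.CR.S_SIA :=
  _root_.Run7.h373.CR.sia (_root_.Run7.h292.CR.sic (_root_.Run7.h545.CR.dpl (_root_.Run7.h437.CR.pw
    _root_.Run7.h18.CR.chr (_root_.Run7.h292.CR.moc (_root_.Run7.h437.CR.lzf _root_.Run7.h18.CR.lup)))
    _root_.Run7.h18.CR.chr _root_.Run7.h292.CR.fd) _root_.Run7.h373.CR.win)

theorem b_LZ : Pool.Agent.Q236.CR.S_LZ := _root_.Run7.h373.CR.lz

theorem b_MIN : S_MIN := Run7.h760.PQ.t_MIN Run7.h760.PQ.t_TII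

theorem b_MINZ : S_MINZ := Run7.h270.PQ.t_MINZ

theorem b_DIFF2 (h : S_SUPA) : S_DIFF2 :=
  Run7.h376.PQ.t_DIFF2 t_TERM2 Run7.h270.PQ.t_DIST (Run7.h270.PQ.t_SUPT h)

theorem b_JM (h : S_SUPA) : S_JM :=
  Run7.h376.PQ.t_JM (Run7.h13.PQ.t_PRIMES2 (b_DIFF2 h) Run7.h270.PQ.t_DIST)

theorem b_ALLJ (h : S_SUPA) : S_ALLJ :=
  t_ALLJ (t_CLSJ (b_JM h) Run7.h215.PO.t_TINY2 Run7.h215.PO.t_WSMALL) Run7.h416.PO.t_SPLIT Run7.h215.PO.t_WSMALL

end Pool.Agent.Run7.h385.PQ
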