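import Pool.Agent.Run7.h385.PQ.Stm

/-! # Project PQ: one class modulo `W`, joint moments over two disjoint sets of arguments -/

set_option autoImplicit false

namespace Pool.Agent.Run7.h385.PQ

open Finset
open Pool.Agent.H373R2.T7
open Pool.Agent.H807R2.Dav
open Pool.Agent.Run7.h385.PO

/-- the expected number of prime values on `A`, given the classes modulo the primes up to `w` -/
noncomputable def lamB {g : ℕ} (X d m : ℕ) (f : Fin g → ℕ → ℤ) (A : Finset ℕ) : ℝ :=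
  (A.filter (fun n => ∀ l, ∀ p ∈ pz (ww X), ¬ (p : ℤ) ∣ f l n)).card * rho2 X d m ^ g

/-- one class modulo `W`, two disjoint sets of arguments -/
def S_CLSJ : Prop :=
  ∀ (d g k k' C : ℕ), 2 ≤ d → 1 ≤ g → k + k' + 1 ≤ 2 * d → ∃ B : ℕ, ∀ Lam ε : ℝ, 0 < Lam → 0 < ε →
    ∃ X0 : ℕ, ∀ X : ℕ, X0 ≤ X → ∀ m : ℕ, ((m : ℝ) + 1) ^ (5 * (d - 1)) * Real.log X ^ B ≤ X →
    ∀ (u : Fin g → ℕ → ℤ) (A A' : Finset ℕ), Disjoint A A' →
    (∀ n, n ∈ A ∨ n ∈ A' → m < n ∧ (n : ℝ) ≤ m + Real.log X ^ C) →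
    (∀ l, ∀ n, n ∈ A ∨ n ∈ A' → |(u l n : ℝ)| ≤ X * ((m : ℝ) + 1) ^ (d - 1) * Real.log X ^ C) →
    lamB X d m u A ≤ Lam → lamB X d m u A' ≤ Lam →
    ∀ Y : Fin g → Fin d → ℕ, (∀ l j, (X : ℝ) / Real.log X ^ C ≤ Y l j ∧ (Y l j : ℝ) ≤ X) →
    |∑ t ∈ Fintype.piFinset (fun l => box (Y l)),
        (((cntA (fun l n => u l n + ev (WW X) (t l) n) A).descFactorial k : ℕ) : ℝ) *
          (((cntA (fun l n => u l n + ev (WW X) (t l) n) A').descFactorial k' : ℕ) : ℝ) -
        lamB X d m u A ^ k * lamB X d m u A' ^ k' * ∏ l, ∏ j, (Y l j : ℝ)| ≤ ε * ∏ l, ∏ j, (Y l j : ℝ)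

lemma lg_ge (X d m : ℕ) (hX : 1 ≤ X) : Real.log X ≤ lg X d m := by
  unfold lg
  have hXr : (1 : ℝ) ≤ X := by exact_mod_cast hX
  apply Real.log_le_log (by linarith)
  have h1 : (1 : ℝ) ≤ ((m : ℝ) + 1) ^ (d - 1) := by
    apply one_le_pow₀
    have : (0 : ℝ) ≤ m := Nat.cast_nonneg _
    linarith
  nlinarith

lemma prod_close (a b a0 b0 Lk η ε : ℝ) (hLk : 1 ≤ Lk) (ha0 : 0 ≤ a0) (hb0 : 0 ≤ b0) (ha : a0 ≤ Lk) (hb : b0 ≤ Lk)
    (h1 : |a - a0| ≤ η) (h2 : |b - b0| ≤ η) (hη0 : 0 ≤ η) (hη1 : η ≤ 1) (hη : 3 * Lk * η ≤ ε) :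
    |a * b - a0 * b0| ≤ ε := by
  have e : a * b - a0 * b0 = (a - a0) * (b - b0) + (a - a0) * b0 + a0 * (b - b0) := by ring
  rw [e]
  refine (abs_add_le _ _).trans ?_
  have h3 := abs_add_le ((a - a0) * (b - b0)) ((a - a0) * b0)
  rw [abs_mul, abs_mul, abs_of_nonneg hb0] at h3
  rw [abs_mul a0, abs_of_nonneg ha0]
  have h4 : |a - a0| * |b - b0| ≤ η * Lk := by
    apply mul_le_mul h1 (h2.trans (hη1.trans hLk)) (abs_nonneg _) hη0
  have h5 : |a - a0| * b0 ≤ η * Lk := mul_le_mul h1 hb hb0 hη0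
  have h6 : a0 * |b - b0| ≤ Lk * η := mul_le_mul ha h2 (abs_nonneg _) (by linarith)
  linarith

set_option maxHeartbeats 4000000 in
theorem t_CLSJ (hJM : S_JM) (hTI : S_TINY2) (hWS : S_WSMALL) : S_CLSJ := by
  intro d g k k' C hd hg hk
  obtain ⟨B, hB⟩ := hJM d g k k' C hd hk
  refine ⟨B, ?_⟩
  intro Lam ε hLam hε
  set Lk : ℝ := 1 + Lam ^ k + Lam ^ k' with hLk
  have hLk1 : 1 ≤ Lk := by
    have : 0 < Lam ^ k := by positivity
    have : 0 < Lam ^ k' := by positivity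
    linarith
  set η : ℝ := min 1 (min (ε / (12 * Lk)) 1) with hη
  have hη0 : 0 < η := by
    rw [hη]
    apply lt_min one_pos (lt_min (by positivity) one_pos)
  have hη1 : η ≤ 1 := min_le_left _ _
  have hη2 : 3 * Lk * η ≤ ε / 4 := by
    have h1 : η ≤ ε / (12 * Lk) := (min_le_right _ _).trans (min_le_left _ _)
    rw [le_div_iff₀ (by positivity)] at h1
    linarith
  obtain ⟨δ, hδ0, hδ⟩ := df_lim2 k Lam hLam η hη0
  obtain ⟨δ', hδ0', hδ'⟩ := df_lim2 k' Lam hLam η hη0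
  obtain ⟨n1, h1⟩ := hB (ε / (4 * (Lk + 1) ^ 2)) (by positivity)
  obtain ⟨n2, h2⟩ := hWS.2
  obtain ⟨n3, h3⟩ := ev_L' 2
  obtain ⟨n4, h4⟩ := ev_log' ((C + 2) * (k + k' + 1) + C + 1) (3 * g * (4 / ε))
  have hlim : Filter.Tendsto (fun N : ℕ => Real.log (N : ℝ)) Filter.atTop Filter.atTop :=
    Real.tendsto_log_atTop.comp (tendsto_natCast_atTop_atTop (R := ℝ))
  have hδm : 0 < min δ δ' := lt_min hδ0 hδ0'
  have hev : ∀ᶠ N : ℕ in Filter.atTop, 2 * Real.log (Real.log N) ≤ (min δ δ') * √(Real.log N) := by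
    have h5 := (isLittleO_log_rpow_atTop (show (0 : ℝ) < 1 / 2 by norm_num)).bound (show (0 : ℝ) < (min δ δ') / 2 by positivity)
    have h6 := hlim.eventually h5
    filter_upwards [h6, hlim.eventually_ge_atTop 1] with N h7 h8
    rw [Real.norm_of_nonneg (Real.log_nonneg h8), Real.norm_of_nonneg (by positivity), ← Real.sqrt_eq_rpow] at h7
    linarith
  obtain ⟨n5, h5⟩ := Filter.eventually_atTop.1 hev
  refine ⟨max (max (max n1 n2) (max n3 n4)) (max n5 2), fun X hX m hm u A A' hdis hAn hub hlA hlA' Y hY => ?_⟩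
  have hX1 : n1 ≤ X := le_trans (le_trans (le_trans (le_max_left _ _) (le_max_left _ _)) (le_max_left _ _)) hX
  have hX2 : n2 ≤ X := le_trans (le_trans (le_trans (le_max_right _ _) (le_max_left _ _)) (le_max_left _ _)) hX
  have hX3 : n3 ≤ X := le_trans (le_trans (le_trans (le_max_left _ _) (le_max_right _ _)) (le_max_left _ _)) hX
  have hX4 : n4 ≤ X := le_trans (le_trans (le_trans (le_max_right _ _) (le_max_right _ _)) (le_max_left _ _)) hX
  have hX5 : n5 ≤ X := le_trans (le_trans (le_max_left _ _) (le_max_right _ _)) hX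
  have hX6 : 2 ≤ X := le_trans (le_trans (le_max_right _ _) (le_max_right _ _)) hX
  have a1 := h1 X hX1
  obtain ⟨hWsq, hW1, hVinv⟩ := h2 X hX2
  have a3 := h3 X hX3
  have a4 := h4 X hX4
  have a5 := h5 X hX5
  set L := Real.log X with hL
  have hL2 : 2 ≤ L := a3
  have hL0 : 0 < L := by linarith
  have hL1 : 1 ≤ L := by linarith
  have hXr : (2 : ℝ) ≤ X := by exact_mod_cast hX6
  have hX0 : (0 : ℝ) < X := by linarith
  set w := ww X with hw
  set W := WW X with hW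
  have hWr1 : (1 : ℝ) ≤ W := by exact_mod_cast hW1
  have hVpos := Vz_pos w
  set V := Vz w with hV
  set P : ℝ := ∏ l, ∏ j, (Y l j : ℝ) with hP
  have hP0 : 0 ≤ P := by positivity
  set AA := A ∪ A' with hAA
  have hAAn : ∀ n ∈ AA, m < n ∧ (n : ℝ) ≤ m + L ^ C := fun n hn => hAn n (mem_union.1 hn)
  set N := AA.card with hN
  have hLC1 : 1 ≤ L ^ C := one_le_pow₀ hL1
  have hNL : (N : ℝ) ≤ L ^ (C + 2) := by
    have h6 : AA ⊆ Ioc m (m + ⌊L ^ C⌋₊) := by
      intro n hn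
      obtain ⟨g1, g2⟩ := hAAn n hn
      rw [mem_Ioc]
      refine ⟨g1, ?_⟩
      have g3 : ((n - m : ℕ) : ℝ) ≤ L ^ C := by
        rw [Nat.cast_sub g1.le]; linarith
      have g4 := Nat.le_floor g3
      omega
    have h7 := card_le_card h6
    rw [Nat.card_Ioc] at h7
    have h8 : (N : ℝ) ≤ ⌊L ^ C⌋₊ := by exact_mod_cast (by omega : N ≤ ⌊L ^ C⌋₊)
    have h9 : (⌊L ^ C⌋₊ : ℝ) ≤ L ^ C := Nat.floor_le (by positivity)
    have h10 : L ^ C ≤ L ^ (C + 2) := pow_le_pow_right₀ hL1 (by omega)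
    linarith
  -- the sets `T`
  set T := A.filter (fun n => ∀ l, ∀ p ∈ pz w, ¬ (p : ℤ) ∣ u l n) with hT
  set T' := A'.filter (fun n => ∀ l, ∀ p ∈ pz w, ¬ (p : ℤ) ∣ u l n) with hT'
  have hLlg : L ≤ lg X d m := lg_ge X d m (by omega)
  have hlg0 : 0 < lg X d m := by linarith
  set R := rho2 X d m with hR
  have hRdef : R = V⁻¹ / lg X d m := rfl
  have hR0 : 0 < R := by rw [hRdef]; positivity
  have hlogL : 0 ≤ Real.log L := Real.log_nonneg hL1
  have hsL : √L * √L = L := Real.mul_self_sqrt hL0.le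
  have hsL1 : 1 ≤ √L := by rw [Real.one_le_sqrt]; exact hL1
  have hRle : R ≤ Real.log L / L := by
    rw [hRdef]
    apply div_le_div₀ hlogL hVinv hL0 hLlg
  have hR2 : R ≤ min δ δ' := by
    calc R ≤ (2 * √L) * (Real.log L / L) := by
          have h6 : 0 ≤ Real.log L / L := by positivity
          nlinarith
      _ = (2 * Real.log L) / √L := by
          have e : Real.log L / L = Real.log L / (√L * √L) := by rw [hsL]
          rw [e]
          field_simp
      _ ≤ min δ δ' := by rw [div_le_iff₀ (by positivity)]; exact a5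
  have hR3 : R ≤ 1 := by
    refine hRle.trans ?_
    rw [div_le_one hL0]
    have := Real.log_le_sub_one_of_pos hL0
    linarith
  have hRg : R ^ g ≤ R := by
    calc R ^ g ≤ R ^ 1 := pow_le_pow_of_le_one hR0.le hR3 hg
      _ = R := pow_one R
  have hRg0 : 0 < R ^ g := by positivity
  set lam : ℝ := lamB X d m u A with hlam
  set lam' : ℝ := lamB X d m u A' with hlam'
  have hlamdef : lam = (T.card : ℝ) * R ^ g := rfl
  have hlamdef' : lam' = (T'.card : ℝ) * R ^ g := rfl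
  have hlam0 : 0 ≤ lam := by rw [hlamdef]; positivity
  have hlam0' : 0 ≤ lam' := by rw [hlamdef']; positivity
  have hdf := hδ T.card (R ^ g) hRg0.le (hRg.trans (hR2.trans (min_le_left _ _))) hlA
  rw [← pow_mul, ← hlamdef] at hdf
  have hdf' := hδ' T'.card (R ^ g) hRg0.le (hRg.trans (hR2.trans (min_le_right _ _))) hlA'
  rw [← pow_mul, ← hlamdef'] at hdf'
  set D : ℝ := ((T.card.descFactorial k : ℕ) : ℝ) with hD
  set D' : ℝ := ((T'.card.descFactorial k' : ℕ) : ℝ) with hD'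
  have hD0 : 0 ≤ D := Nat.cast_nonneg _
  have hD0' : 0 ≤ D' := Nat.cast_nonneg _
  -- moments over `T`
  have hmom := a1 m hm T T' (disjoint_filter_filter hdis)
    (fun n hn => hAn n (Or.inl (mem_filter.1 hn).1)) (fun n hn => hAn n (Or.inr (mem_filter.1 hn).1)) u
    (fun l n hn => by
      rcases hn with hn | hn
      · exact ⟨hub l n (Or.inl (mem_filter.1 hn).1), cop_of _ ((mem_filter.1 hn).2 l)⟩
      · exact ⟨hub l n (Or.inr (mem_filter.1 hn).1), cop_of _ ((mem_filter.1 hn).2 l)⟩) Y hY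
  rw [← hP, ← hD, ← hD', ← hR] at hmom
  -- the tiny values
  set bx := Fintype.piFinset (fun l => box (Y l)) with hbx
  set Ym : ℕ := ⌈(X : ℝ) / L ^ C⌉₊ with hYm
  have hYm1 : 1 ≤ Ym := by
    rw [hYm, Nat.one_le_ceil_iff]; positivity
  have hYmY : ∀ l j, Ym ≤ Y l j := by
    intro l j
    rw [hYm]
    exact Nat.ceil_le.2 (hY l j).1
  have hYmr : (X : ℝ) / L ^ C ≤ Ym := Nat.le_ceil _
  have htiny := hTI g d W (by omega) hW1 Y u AA w Ym hYm1 hYmY
  set Ti := bx.filter (fun t : Fin g → Fin d → ℤ => ∃ n ∈ AA, ∃ l, |u l n + ev W (t l) n| ≤ w) with hTi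
  rw [← hN, ← hP] at htiny
  have hTiS : (N : ℝ) ^ (k + k') * Ti.card ≤ ε / 4 * P := by
    have hNn : (0 : ℝ) ≤ N := Nat.cast_nonneg _
    have hwL : (w : ℝ) ≤ L := ww_le X hL1
    have h6 : (N : ℝ) ^ (k + k') * (N * g * (2 * w + 1) / Ym) ≤ ε / 4 := by
      have h7 : (N : ℝ) ^ (k + k') * (N * g * (2 * w + 1) / Ym) ≤
          (L ^ (C + 2)) ^ (k + k') * (L ^ (C + 2) * g * (2 * L + L) / (X / L ^ C)) := by
        gcongr
      have h8 : (L ^ (C + 2)) ^ (k + k') * (L ^ (C + 2) * g * (2 * L + L) / (X / L ^ C)) =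
          (3 * g * L ^ ((C + 2) * (k + k' + 1) + C + 1)) / X := by
        rw [div_div_eq_mul_div, ← pow_mul]
        rw [← mul_div_assoc]
        congr 1
        rw [pow_add, pow_add, mul_add (C + 2) (k + k') 1, pow_add, pow_one, mul_one]
        ring
      rw [h8] at h7
      refine h7.trans ?_
      rw [div_le_iff₀ hX0]
      have h9 : √(X : ℝ) ≤ X := by
        rw [Real.sqrt_le_left (by positivity)]; nlinarith
      have h10 := a4.trans h9
      have h11 : 3 * g * (4 / ε) * L ^ ((C + 2) * (k + k' + 1) + C + 1) =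
          (4 / ε) * (3 * g * L ^ ((C + 2) * (k + k' + 1) + C + 1)) := by ring
      rw [h11, div_mul_eq_mul_div, div_le_iff₀ hε] at h10
      linarith
    calc (N : ℝ) ^ (k + k') * Ti.card ≤ (N : ℝ) ^ (k + k') * ((N * g * (2 * w + 1) / Ym) * P) :=
          mul_le_mul_of_nonneg_left htiny (by positivity)
      _ = ((N : ℝ) ^ (k + k') * (N * g * (2 * w + 1) / Ym)) * P := by ring
      _ ≤ ε / 4 * P := mul_le_mul_of_nonneg_right h6 hP0
  -- comparison of the two counts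
  have hsame : ∀ (S : Finset ℕ), S ⊆ AA → ∀ t ∈ bx, t ∉ Ti →
      S.filter (fun n => ∀ l, (u l n + ev W (t l) n).natAbs.Prime) =
        (S.filter (fun n => ∀ l, ∀ p ∈ pz w, ¬ (p : ℤ) ∣ u l n)).filter
          (fun n => ∀ l, (u l n + ev W (t l) n).natAbs.Prime) := by
    intro S hS t ht htT
    ext n
    rw [mem_filter, mem_filter, mem_filter]
    constructor
    · rintro ⟨h8, h9⟩
      refine ⟨⟨h8, ?_⟩, h9⟩
      intro l p hp hd'
      apply htT
      rw [hTi, mem_filter]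
      refine ⟨ht, n, hS h8, l, ?_⟩
      have h10 : (p : ℤ) ∣ u l n + ev W (t l) n := by
        apply dvd_add hd'
        unfold ev
        exact (dvd_WW hp).mul_right _
      have h11 : p ∣ (u l n + ev W (t l) n).natAbs := Int.natCast_dvd.1 h10
      have h12 : p = (u l n + ev W (t l) n).natAbs :=
        (Nat.prime_dvd_prime_iff_eq (mem_pz.1 hp).2 (h9 l)).1 h11
      rw [Int.abs_eq_natAbs, ← h12]
      exact_mod_cast (mem_pz.1 hp).1
    · rintro ⟨⟨h8, _⟩, h9⟩
      exact ⟨h8, h9⟩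
  have hcN : ∀ (s : Finset ℕ) (k : ℕ), s ⊆ AA → (((s.card.descFactorial k : ℕ)) : ℝ) ≤ (N : ℝ) ^ k := by
    intro s k hss
    have h7 : s.card ≤ N := card_le_card hss
    have h8 : s.card.descFactorial k ≤ N ^ k := (Nat.descFactorial_le_pow _ _).trans (Nat.pow_le_pow_left h7 k)
    exact_mod_cast h8
  have hA1 : A ⊆ AA := subset_union_left
  have hA2 : A' ⊆ AA := subset_union_right
  have hcomp : |∑ t ∈ bx, (((cntA (fun l n => u l n + ev W (t l) n) A).descFactorial k : ℕ) : ℝ) *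
        (((cntA (fun l n => u l n + ev W (t l) n) A').descFactorial k' : ℕ) : ℝ) -
      ∑ t ∈ bx, (((pc W u t T).descFactorial k : ℕ) : ℝ) * (((pc W u t T').descFactorial k' : ℕ) : ℝ)| ≤
      (N : ℝ) ^ (k + k') * Ti.card := by
    rw [← sum_sub_distrib]
    refine (abs_sum_le_sum_abs _ _).trans ?_
    have h6 : ∀ t ∈ bx, |(((cntA (fun l n => u l n + ev W (t l) n) A).descFactorial k : ℕ) : ℝ) *
        (((cntA (fun l n => u l n + ev W (t l) n) A').descFactorial k' : ℕ) : ℝ) -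
        (((pc W u t T).descFactorial k : ℕ) : ℝ) * (((pc W u t T').descFactorial k' : ℕ) : ℝ)| ≤
        if t ∈ Ti then (N : ℝ) ^ (k + k') else 0 := by
      intro t ht
      by_cases htT : t ∈ Ti
      · rw [if_pos htT]
        have b1 := hcN (A.filter (fun n => ∀ l, (u l n + ev W (t l) n).natAbs.Prime)) k
          ((filter_subset _ _).trans hA1)
        have b2 := hcN (A'.filter (fun n => ∀ l, (u l n + ev W (t l) n).natAbs.Prime)) k'
          ((filter_subset _ _).trans hA2)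
        have b3 := hcN (T.filter (fun n => ∀ l, (u l n + ev W (t l) n).natAbs.Prime)) k
          ((filter_subset _ _).trans ((filter_subset _ _).trans hA1))
        have b4 := hcN (T'.filter (fun n => ∀ l, (u l n + ev W (t l) n).natAbs.Prime)) k'
          ((filter_subset _ _).trans ((filter_subset _ _).trans hA2))
        have c1 := mul_le_mul b1 b2 (Nat.cast_nonneg _) (by positivity)
        have c2 := mul_le_mul b3 b4 (Nat.cast_nonneg _) (by positivity)
        rw [← pow_add] at c1 c2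
        unfold cntA pc
        rw [abs_le]
        have d1 : (0 : ℝ) ≤ (((A.filter (fun n => ∀ l, (u l n + ev W (t l) n).natAbs.Prime)).card.descFactorial k : ℕ) : ℝ) *
          (((A'.filter (fun n => ∀ l, (u l n + ev W (t l) n).natAbs.Prime)).card.descFactorial k' : ℕ) : ℝ) := by positivity
        have d2 : (0 : ℝ) ≤ (((T.filter (fun n => ∀ l, (u l n + ev W (t l) n).natAbs.Prime)).card.descFactorial k : ℕ) : ℝ) *
          (((T'.filter (fun n => ∀ l, (u l n + ev W (t l) n).natAbs.Prime)).card.descFactorial k' : ℕ) : ℝ) := by positivity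
        constructor <;> linarith
      · rw [if_neg htT]
        unfold cntA pc
        rw [hsame A hA1 t ht htT, hsame A' hA2 t ht htT, ← hT, ← hT', sub_self, abs_zero]
    refine (sum_le_sum h6).trans (le_of_eq ?_)
    rw [sum_ite_mem, sum_const, nsmul_eq_mul]
    have h7 : bx ∩ Ti = Ti := by
      rw [hTi]; exact inter_eq_right.2 (filter_subset _ _)
    rw [h7, mul_comm]
  -- conclusion
  have hlkk : lam ^ k ≤ Lk := by
    have h6 : lam ^ k ≤ Lam ^ k := pow_le_pow_left₀ hlam0 hlA k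
    have h7 : 0 < Lam ^ k' := by positivity
    linarith
  have hlkk' : lam' ^ k' ≤ Lk := by
    have h6 : lam' ^ k' ≤ Lam ^ k' := pow_le_pow_left₀ hlam0' hlA' k'
    have h7 : 0 < Lam ^ k := by positivity
    linarith
  have h6 : |D * R ^ (g * k) * (D' * R ^ (g * k')) - lam ^ k * lam' ^ k'| ≤ ε / 4 :=
    prod_close _ _ _ _ Lk η _ hLk1 (by positivity) (by positivity) hlkk hlkk' hdf hdf' hη0.le hη1 hη2
  have e1 : D * R ^ (g * k) * (D' * R ^ (g * k')) = D * D' * R ^ (g * (k + k')) := by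
    rw [mul_add, pow_add]; ring
  rw [e1] at h6
  have h8 : D * D' * R ^ (g * (k + k')) ≤ (Lk + 1) ^ 2 := by
    rw [← e1]
    have g1 : D * R ^ (g * k) ≤ Lk + 1 := by
      have := (abs_le.1 hdf).2; linarith
    have g2 : D' * R ^ (g * k') ≤ Lk + 1 := by
      have := (abs_le.1 hdf').2; linarith
    calc D * R ^ (g * k) * (D' * R ^ (g * k')) ≤ (Lk + 1) * (Lk + 1) :=
          mul_le_mul g1 g2 (by positivity) (by linarith)
      _ = _ := by ring
  have h9 : ε / (4 * (Lk + 1) ^ 2) * (P * (D * D') * R ^ (g * (k + k'))) ≤ ε / 4 * P := by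
    calc ε / (4 * (Lk + 1) ^ 2) * (P * (D * D') * R ^ (g * (k + k'))) =
          ε / (4 * (Lk + 1) ^ 2) * P * (D * D' * R ^ (g * (k + k'))) := by ring
      _ ≤ ε / (4 * (Lk + 1) ^ 2) * P * (Lk + 1) ^ 2 := by
          apply mul_le_mul_of_nonneg_left h8
          positivity
      _ = ε / 4 * P := by field_simp
  have h10 : |P * (D * D') * R ^ (g * (k + k')) - lam ^ k * lam' ^ k' * P| ≤ ε / 4 * P := by
    have e : P * (D * D') * R ^ (g * (k + k')) - lam ^ k * lam' ^ k' * P =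
        P * (D * D' * R ^ (g * (k + k')) - lam ^ k * lam' ^ k') := by ring
    rw [e, abs_mul, abs_of_nonneg hP0]
    calc P * |D * D' * R ^ (g * (k + k')) - lam ^ k * lam' ^ k'| ≤ P * (ε / 4) := mul_le_mul_of_nonneg_left h6 hP0
      _ = _ := by ring
  have h11 := hmom.trans h9
  have h12 := hcomp.trans hTiS
  have h13 : 0 ≤ ε * P := by positivity
  rw [abs_le] at h10 h11 h12 ⊢
  constructor <;> linarith [h10.1, h10.2, h11.1, h11.2, h12.1, h12.2]

end Pool.Agent.Run7.h385.PQ
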