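import Pool.Agent.Run7.h385.PQ.QUE

/-! # Project PQ: quenched moments over long ranges of places -/

set_option autoImplicit false

namespace Pool.Agent.Run7.h385.PQ

open Finset hiding box
open Pool.Agent.H373R2.T7
open Pool.Agent.H807R2.Dav
open Pool.Agent.Run7.h385.PO

lemma sed (x y M M' : ℝ) (hM : 0 < M) (hM' : 0 < M') : (x + y) ^ 2 / (M + M') ≤ x ^ 2 / M + y ^ 2 / M' := by
  rw [div_add_div _ _ hM.ne' hM'.ne', div_le_div_iff₀ (by positivity) (by positivity)]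
  nlinarith [sq_nonneg (M' * x - M * y), mul_pos hM hM']

/-- from short blocks to long ranges -/
lemma glue {ι : Type*} (A : Finset ι) (s : ℕ → ι → ℝ) (lk ε : ℝ) (m M b : ℕ) (hb : 1 ≤ b)
    (h : ∀ m' M' : ℕ, m ≤ m' → m' + M' ≤ m + M → b ≤ M' → M' < 2 * b →
      ∑ c ∈ A, ((∑ i ∈ Ioc m' (m' + M'), s i c) / M' - lk) ^ 2 ≤ ε * A.card) :
    ∀ M' m' : ℕ, m ≤ m' → m' + M' ≤ m + M → b ≤ M' →
      ∑ c ∈ A, ((∑ i ∈ Ioc m' (m' + M'), s i c) / M' - lk) ^ 2 ≤ ε * A.card := by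
  intro M'
  induction M' using Nat.strong_induction_on with
  | _ M' ih =>
    intro m' hm' hmM hbM
    rcases lt_or_ge M' (2 * b) with h1 | h1
    · exact h m' M' hm' hmM hbM h1
    · have hb0 : (0 : ℝ) < b := by exact_mod_cast hb
      set R := M' - b with hR
      have hRb : b ≤ R := by omega
      have hR0 : (0 : ℝ) < R := by exact_mod_cast (by omega : 0 < R)
      have hM' : M' = b + R := by omega
      have i1 := h m' b hm' (by omega) le_rfl (by omega)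
      have i2 := ih R (by omega) (m' + b) (by omega) (by omega) hRb
      have e1 : ∀ c, ∑ i ∈ Ioc m' (m' + M'), s i c =
          ∑ i ∈ Ioc m' (m' + b), s i c + ∑ i ∈ Ioc (m' + b) (m' + b + R), s i c := by
        intro c
        rw [sum_Ioc_consecutive _ (by omega) (by omega)]
        congr 2
        omega
      have h2 : ∀ c ∈ A, ((∑ i ∈ Ioc m' (m' + M'), s i c) / M' - lk) ^ 2 ≤
          (b / M') * ((∑ i ∈ Ioc m' (m' + b), s i c) / b - lk) ^ 2 +
            (R / M') * ((∑ i ∈ Ioc (m' + b) (m' + b + R), s i c) / R - lk) ^ 2 := by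
        intro c _
        rw [e1]
        set x := ∑ i ∈ Ioc m' (m' + b), s i c
        set y := ∑ i ∈ Ioc (m' + b) (m' + b + R), s i c
        have hMr : (M' : ℝ) = b + R := by rw [hM']; push_cast; ring
        have hM0 : (0 : ℝ) < M' := by rw [hMr]; linarith
        have h3 := sed (x - b * lk) (y - R * lk) b R hb0 hR0
        rw [← hMr] at h3
        have e2 : ((x + y) / M' - lk) ^ 2 = ((x - b * lk + (y - R * lk)) ^ 2 / M') / M' := by
          have : x - b * lk + (y - R * lk) = x + y - M' * lk := by rw [hMr]; ring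
          rw [this]
          field_simp
        have e3 : (b / M') * (x / b - lk) ^ 2 = ((x - b * lk) ^ 2 / b) / M' := by field_simp
        have e4 : (R / M') * (y / R - lk) ^ 2 = ((y - R * lk) ^ 2 / R) / M' := by field_simp
        rw [e2, e3, e4, ← add_div]
        exact div_le_div_of_nonneg_right h3 hM0.le
      refine (sum_le_sum h2).trans ?_
      rw [sum_add_distrib, ← mul_sum, ← mul_sum]
      have hMr : (M' : ℝ) = b + R := by rw [hM']; push_cast; ring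
      have hM0 : (0 : ℝ) < M' := by rw [hMr]; linarith
      have h3 := mul_le_mul_of_nonneg_left i1 (show 0 ≤ (b : ℝ) / M' by positivity)
      have h4 := mul_le_mul_of_nonneg_left i2 (show 0 ≤ (R : ℝ) / M' by positivity)
      have h5 : (b : ℝ) / M' * (ε * A.card) + (R : ℝ) / M' * (ε * A.card) = ε * A.card := by
        rw [← add_mul, ← add_div, ← hMr, div_self hM0.ne', one_mul]
      linarith

/-- the standing hypotheses for the places between `m` and `m + M` -/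
def Hyp2 {g d : ℕ} (C1 X m M : ℕ) (F : Fin g → ℕ → ℤ) (a : Fin g → Fin d → ℤ) (Y : Fin g → Fin d → ℕ) : Prop :=
  (∀ l, ∀ p n : ℕ, (p : ℤ) ∣ F l (n + p) - F l n) ∧
  (∀ l, ∀ n : ℕ, m < n → (n : ℝ) ≤ m + M + Real.log X ^ (g + 5) →
      |(F l n : ℝ)| ≤ X * (n : ℝ) ^ (d - 1) * Real.log X ^ C1) ∧
  (∀ l j, |(a l j : ℝ)| ≤ X ∧ (X : ℝ) / Real.log X ^ C1 ≤ Y l j ∧ (Y l j : ℝ) ≤ X)

lemma hyp_of {g d : ℕ} (C1 X m M m' : ℕ) (hX : 1 ≤ X) (hL : 2 ≤ Real.log X) (hmm : m ≤ m') (hm' : m' ≤ m + M)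
    (F : Fin g → ℕ → ℤ) (a : Fin g → Fin d → ℤ) (Y : Fin g → Fin d → ℕ) (h : Hyp2 C1 X m M F a Y) :
    Hyp (C1 + (g + 5) * (d - 1)) X m' F a Y := by
  obtain ⟨h1, h2, h3⟩ := h
  set L := Real.log X with hLd
  have hX0 : (0 : ℝ) < X := by exact_mod_cast hX
  have hm0 : (0 : ℝ) ≤ m' := Nat.cast_nonneg _
  refine ⟨h1, fun l n hn hn2 => ?_, fun l j => ⟨(h3 l j).1, ?_, (h3 l j).2.2⟩⟩
  · have hmm' : (m' : ℝ) ≤ m + M := by exact_mod_cast hm'
    have h4 := h2 l n (by omega) (by linarith)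
    refine h4.trans ?_
    have h5 : (n : ℝ) ≤ (m' + 1) * L ^ (g + 5) := by
      have h6 : 1 ≤ L ^ (g + 5) := one_le_pow₀ (by linarith)
      nlinarith
    have h6 : (n : ℝ) ^ (d - 1) ≤ ((m' : ℝ) + 1) ^ (d - 1) * L ^ ((g + 5) * (d - 1)) := by
      rw [pow_mul, ← mul_pow]
      exact pow_le_pow_left₀ (Nat.cast_nonneg _) h5 _
    calc X * (n : ℝ) ^ (d - 1) * L ^ C1 ≤ X * (((m' : ℝ) + 1) ^ (d - 1) * L ^ ((g + 5) * (d - 1))) * L ^ C1 := by
          gcongr
      _ = _ := by rw [pow_add]; ring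
  · refine le_trans ?_ (h3 l j).2.1
    apply div_le_div_of_nonneg_left hX0.le (by positivity)
    exact pow_le_pow_right₀ (by linarith) (Nat.le_add_right _ _)

/-- quenched moments: mean square over the admissible systems -/
theorem quenched (hA : S_ALLJ) (hTC : S_TCOUNT) (hWS : S_WSMALL) (d g k C1 : ℕ) (hd : 2 ≤ d) (hg : 1 ≤ g)
    (hk : 2 * k + 1 ≤ 2 * d) : ∃ B : ℕ, ∀ lam ε : ℝ, 0 < lam → 0 < ε → ∃ X0 : ℕ, ∀ X : ℕ, X0 ≤ X → ∀ m M : ℕ,
      Real.log X ^ (g + 3) ≤ M → ((m : ℝ) + M + 1) ^ (5 * (d - 1)) * Real.log X ^ B ≤ X →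
      ∀ (F : Fin g → ℕ → ℤ) (a : Fin g → Fin d → ℤ) (Y : Fin g → Fin d → ℕ), Hyp2 C1 X m M F a Y →
      ∑ c ∈ Adm X F a Y, (qm X d k lam (fv F c) m M - lam ^ k) ^ 2 ≤ ε * (Adm X F a Y).card := by
  obtain ⟨B, hB⟩ := block hA hTC hWS d g k (C1 + (g + 5) * (d - 1)) hd hg hk
  refine ⟨B, fun lam ε hlam hε => ?_⟩
  obtain ⟨X1, h1⟩ := hB lam ε hlam hε
  obtain ⟨X2, h2⟩ := ev_L' 4
  refine ⟨max X1 (max X2 1), fun X hX m M hM hm F a Y hH => ?_⟩
  have a1 := h1 X (le_trans (le_max_left _ _) hX)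
  have a2 := h2 X (le_trans (le_trans (le_max_left _ _) (le_max_right _ _)) hX)
  have hX1 : 1 ≤ X := le_trans (le_trans (le_max_right _ _) (le_max_right _ _)) hX
  set L := Real.log X with hL
  set b : ℕ := ⌈L ^ (g + 3)⌉₊ with hb
  have hb1 : L ^ (g + 3) ≤ b := Nat.le_ceil _
  have hLg : 1 ≤ L ^ (g + 3) := one_le_pow₀ (by linarith)
  have hb2 : (b : ℝ) ≤ 2 * L ^ (g + 3) := by
    have := (Nat.ceil_lt_add_one (show 0 ≤ L ^ (g + 3) by positivity)).le
    linarith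
  have hb3 : 1 ≤ b := by
    have : (1 : ℝ) ≤ b := hLg.trans hb1
    exact_mod_cast this
  have hbM : b ≤ M := Nat.ceil_le.2 hM
  refine glue (Adm X F a Y) (fun i c => sk X d k lam (fv F c) i) (lam ^ k) ε m M b hb3 ?_ M m le_rfl le_rfl hbM
  intro m' M' hm' hmM hbM' hM'
  refine a1 m' M' (hb1.trans (by exact_mod_cast hbM')) ?_ ?_ F a Y
    (hyp_of C1 X m M m' hX1 (by linarith) hm' (by omega) F a Y hH)
  · have h3 : (M' : ℝ) ≤ 2 * b := by exact_mod_cast hM'.le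
    have h4 : L ^ (g + 4) = L ^ (g + 3) * L := by ring
    rw [h4]
    nlinarith
  · refine le_trans ?_ hm
    apply mul_le_mul_of_nonneg_right _ (by positivity)
    apply pow_le_pow_left₀ (by positivity)
    have h3 : (m' : ℝ) ≤ m + M := by exact_mod_cast (by omega : m' ≤ m + M)
    linarith

/-- quenched moments: almost all admissible systems, all orders at once -/
theorem quenched_all (hA : S_ALLJ) (hTC : S_TCOUNT) (hWS : S_WSMALL) (d g C1 : ℕ) (hd : 2 ≤ d) (hg : 1 ≤ g) :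
    ∃ B : ℕ, ∀ lam ε : ℝ, 0 < lam → 0 < ε → ∃ X0 : ℕ, ∀ X : ℕ, X0 ≤ X → ∀ m M : ℕ,
      Real.log X ^ (g + 3) ≤ M → ((m : ℝ) + M + 1) ^ (5 * (d - 1)) * Real.log X ^ B ≤ X →
      ∀ (F : Fin g → ℕ → ℤ) (a : Fin g → Fin d → ℤ) (Y : Fin g → Fin d → ℕ), Hyp2 C1 X m M F a Y →
      (((Adm X F a Y).filter (fun c => ∃ k ≤ d - 1, ε < |qm X d k lam (fv F c) m M - lam ^ k|)).card : ℝ) ≤
        ε * (Adm X F a Y).card := by
  classical
  have hall : ∀ k : ℕ, ∃ B : ℕ, k ≤ d - 1 → ∀ lam ε : ℝ, 0 < lam → 0 < ε → ∃ X0 : ℕ, ∀ X : ℕ, X0 ≤ X → ∀ m M : ℕ,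
      Real.log X ^ (g + 3) ≤ M → ((m : ℝ) + M + 1) ^ (5 * (d - 1)) * Real.log X ^ B ≤ X →
      ∀ (F : Fin g → ℕ → ℤ) (a : Fin g → Fin d → ℤ) (Y : Fin g → Fin d → ℕ), Hyp2 C1 X m M F a Y →
      ∑ c ∈ Adm X F a Y, (qm X d k lam (fv F c) m M - lam ^ k) ^ 2 ≤ ε * (Adm X F a Y).card := by
    intro k
    by_cases hk : k ≤ d - 1
    · obtain ⟨B, h⟩ := quenched hA hTC hWS d g k C1 hd hg (by omega)
      exact ⟨B, fun _ => h⟩
    · exact ⟨0, fun h => absurd h hk⟩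
  choose BB hBB using hall
  refine ⟨(range d).sup BB, fun lam ε hlam hε => ?_⟩
  have hd0 : (0 : ℝ) < d := by exact_mod_cast (by omega : 0 < d)
  have hall2 : ∀ k : ℕ, ∃ X0 : ℕ, k ≤ d - 1 → ∀ X : ℕ, X0 ≤ X → ∀ m M : ℕ,
      Real.log X ^ (g + 3) ≤ M → ((m : ℝ) + M + 1) ^ (5 * (d - 1)) * Real.log X ^ (BB k) ≤ X →
      ∀ (F : Fin g → ℕ → ℤ) (a : Fin g → Fin d → ℤ) (Y : Fin g → Fin d → ℕ), Hyp2 C1 X m M F a Y →
      ∑ c ∈ Adm X F a Y, (qm X d k lam (fv F c) m M - lam ^ k) ^ 2 ≤ (ε ^ 3 / d) * (Adm X F a Y).card := by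
    intro k
    by_cases hk : k ≤ d - 1
    · obtain ⟨X0, h⟩ := hBB k hk lam (ε ^ 3 / d) hlam (by positivity)
      exact ⟨X0, fun _ => h⟩
    · exact ⟨0, fun h => absurd h hk⟩
  choose XX hXX using hall2
  obtain ⟨X2, h2⟩ := ev_L' 1
  refine ⟨max ((range d).sup XX) X2, fun X hX m M hM hm F a Y hH => ?_⟩
  have hL1 := h2 X (le_trans (le_max_right _ _) hX)
  set s := Adm X F a Y with hs
  have h3 : s.filter (fun c => ∃ k ≤ d - 1, ε < |qm X d k lam (fv F c) m M - lam ^ k|) ⊆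
      (range d).biUnion (fun k => s.filter (fun c => ε < |qm X d k lam (fv F c) m M - lam ^ k|)) := by
    intro c hc
    rw [mem_filter] at hc
    obtain ⟨hc1, k, hk, hk2⟩ := hc
    rw [mem_biUnion]
    exact ⟨k, mem_range.2 (by omega), mem_filter.2 ⟨hc1, hk2⟩⟩
  have h4 : ∀ k ∈ range d, (((s.filter (fun c => ε < |qm X d k lam (fv F c) m M - lam ^ k|)).card : ℕ) : ℝ) ≤
      (ε / d) * s.card := by
    intro k hk
    have hk1 : k ≤ d - 1 := by have := mem_range.1 hk; omega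
    have h5 := hXX k hk1 X (le_trans (le_trans (le_sup (f := XX) hk) (le_max_left _ _)) hX) m M hM (by
      refine le_trans ?_ hm
      apply mul_le_mul_of_nonneg_left _ (by positivity)
      exact pow_le_pow_right₀ hL1 (le_sup (f := BB) hk)) F a Y hH
    have h6 : ε ^ 2 * (((s.filter (fun c => ε < |qm X d k lam (fv F c) m M - lam ^ k|)).card : ℕ) : ℝ) ≤
        ∑ c ∈ s, (qm X d k lam (fv F c) m M - lam ^ k) ^ 2 := by
      calc ε ^ 2 * (((s.filter (fun c => ε < |qm X d k lam (fv F c) m M - lam ^ k|)).card : ℕ) : ℝ) =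
            ∑ c ∈ s.filter (fun c => ε < |qm X d k lam (fv F c) m M - lam ^ k|), ε ^ 2 := by
              rw [sum_const, nsmul_eq_mul, mul_comm]
        _ ≤ ∑ c ∈ s.filter (fun c => ε < |qm X d k lam (fv F c) m M - lam ^ k|),
              (qm X d k lam (fv F c) m M - lam ^ k) ^ 2 := by
              apply sum_le_sum
              intro c hc
              rw [mem_filter] at hc
              rw [← sq_abs (qm X d k lam (fv F c) m M - lam ^ k)]
              exact pow_le_pow_left₀ hε.le hc.2.le 2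
        _ ≤ _ := sum_le_sum_of_subset_of_nonneg (filter_subset _ _) (fun _ _ _ => sq_nonneg _)
    have h7 := h6.trans h5
    have h8 : ε ^ 3 / d * s.card = ε ^ 2 * ((ε / d) * s.card) := by ring
    rw [h8] at h7
    exact le_of_mul_le_mul_left h7 (by positivity)
  calc (((s.filter (fun c => ∃ k ≤ d - 1, ε < |qm X d k lam (fv F c) m M - lam ^ k|)).card : ℕ) : ℝ)
      ≤ ((((range d).biUnion (fun k => s.filter (fun c => ε < |qm X d k lam (fv F c) m M - lam ^ k|))).card : ℕ) : ℝ) := by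
        exact_mod_cast card_le_card h3
    _ ≤ ∑ k ∈ range d, (((s.filter (fun c => ε < |qm X d k lam (fv F c) m M - lam ^ k|)).card : ℕ) : ℝ) := by
        exact_mod_cast card_biUnion_le
    _ ≤ ∑ k ∈ range d, (ε / d) * s.card := sum_le_sum h4
    _ = ε * s.card := by
        rw [sum_const, card_range, nsmul_eq_mul]
        field_simp

end Pool.Agent.Run7.h385.PQ
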