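import Pool.Agent.Run7.h385.PQ.QUEB

/-! # Project PQ: quenched moments -/

set_option autoImplicit false

namespace Pool.Agent.Run7.h385.PQ

open Finset hiding box
open Pool.Agent.H373R2.T7
open Pool.Agent.H807R2.Dav
open Pool.Agent.Run7.h385.PO

lemma sk_nonneg {g : ℕ} (X d k : ℕ) (lam : ℝ) (f : Fin g → ℕ → ℤ) (m' : ℕ) : 0 ≤ sk X d k lam f m' := by
  unfold sk; positivity

/-- abstract variance computation: `s i c` for `i` in a set of `M` places -/
lemma variance {ι : Type*} (A : Finset ι) (m M D : ℕ) (hM : 1 ≤ M) (s : ℕ → ι → ℝ) (lk ε1 C0 : ℝ) (hlk : 0 ≤ lk)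
    (hε1 : 0 ≤ ε1) (hC0 : 0 ≤ C0)
    (hE : ∀ i ∈ Ioc m (m + M), |∑ c ∈ A, s i c - lk * A.card| ≤ ε1 * A.card)
    (hP : ∀ i ∈ Ioc m (m + M), ∀ j ∈ Ioc m (m + M), i + D ≤ j →
      |∑ c ∈ A, s i c * s j c - lk ^ 2 * A.card| ≤ ε1 * A.card)
    (hQ : ∀ i ∈ Ioc m (m + M), ∑ c ∈ A, s i c ^ 2 ≤ C0 * A.card) :
    ∑ c ∈ A, ((∑ i ∈ Ioc m (m + M), s i c) / M - lk) ^ 2 ≤ (ε1 + 2 * lk * ε1 + 2 * D * C0 / M) * A.card := by
  set I := Ioc m (m + M) with hI
  have hIc : I.card = M := by rw [hI, Nat.card_Ioc]; omega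
  have hMr : (0 : ℝ) < M := by exact_mod_cast hM
  set n0 : ℝ := (A.card : ℝ) with hn0
  have hn00 : 0 ≤ n0 := Nat.cast_nonneg _
  set P : ℕ → ℕ → ℝ := fun i j => ∑ c ∈ A, s i c * s j c with hPd
  have hPs : ∀ i j, P i j = P j i := by
    intro i j
    rw [hPd]
    exact sum_congr rfl fun c _ => mul_comm _ _
  have hnear : ∀ i ∈ I, ∀ j ∈ I, P i j ≤ C0 * n0 := by
    intro i hi j hj
    have h1 : P i j ≤ ∑ c ∈ A, (s i c ^ 2 / 2 + s j c ^ 2 / 2) := by
      rw [hPd]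
      apply sum_le_sum
      intro c _
      nlinarith [sq_nonneg (s i c - s j c)]
    rw [sum_add_distrib, ← sum_div, ← sum_div] at h1
    have h2 := hQ i hi
    have h3 := hQ j hj
    linarith
  have hall : ∀ i ∈ I, ∀ j ∈ I, P i j ≤ (lk ^ 2 + ε1) * n0 + (if i < j + D ∧ j < i + D then C0 * n0 else 0) := by
    intro i hi j hj
    by_cases h : i < j + D ∧ j < i + D
    · rw [if_pos h]
      have h1 := hnear i hi j hj
      have h2 : 0 ≤ (lk ^ 2 + ε1) * n0 := by positivity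
      linarith
    · rw [if_neg h, add_zero]
      rcases not_and_or.1 h with h1 | h1
      · have h2 := (abs_le.1 (hP j hj i hi (by omega))).2
        have h3 : P i j = ∑ c ∈ A, s j c * s i c := by rw [hPs]
        rw [h3]
        linarith
      · have h2 := (abs_le.1 (hP i hi j hj (by omega))).2
        have h3 : P i j = ∑ c ∈ A, s i c * s j c := rfl
        rw [h3]
        linarith
  have hcount : ∀ i ∈ I, ∑ j ∈ I, (if i < j + D ∧ j < i + D then C0 * n0 else 0) ≤ 2 * D * (C0 * n0) := by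
    intro i _
    rw [← sum_filter, sum_const, nsmul_eq_mul]
    apply mul_le_mul_of_nonneg_right _ (by positivity)
    have h1 : I.filter (fun j => i < j + D ∧ j < i + D) ⊆ Ico (i + 1 - D) (i + D) := by
      intro j hj
      rw [mem_filter] at hj
      rw [mem_Ico]
      omega
    have h2 := card_le_card h1
    rw [Nat.card_Ico] at h2
    have h3 : (I.filter (fun j => i < j + D ∧ j < i + D)).card ≤ 2 * D := by omega
    exact_mod_cast h3
  have hPsum : ∑ i ∈ I, ∑ j ∈ I, P i j ≤ M * (M * ((lk ^ 2 + ε1) * n0) + 2 * D * (C0 * n0)) := by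
    calc ∑ i ∈ I, ∑ j ∈ I, P i j ≤ ∑ i ∈ I, (M * ((lk ^ 2 + ε1) * n0) + 2 * D * (C0 * n0)) := by
          apply sum_le_sum
          intro i hi
          refine (sum_le_sum (hall i hi)).trans ?_
          rw [sum_add_distrib, sum_const, nsmul_eq_mul, hIc]
          have := hcount i hi
          linarith
      _ = _ := by rw [sum_const, nsmul_eq_mul, hIc]
  have hEsum : M * ((lk - ε1) * n0) ≤ ∑ i ∈ I, ∑ c ∈ A, s i c := by
    calc M * ((lk - ε1) * n0) = ∑ i ∈ I, (lk - ε1) * n0 := by rw [sum_const, nsmul_eq_mul, hIc]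
      _ ≤ _ := by
        apply sum_le_sum
        intro i hi
        have := (abs_le.1 (hE i hi)).1
        linarith
  -- expansion
  have hexp : ∑ c ∈ A, ((∑ i ∈ I, s i c) / M - lk) ^ 2 =
      (∑ i ∈ I, ∑ j ∈ I, P i j) / M ^ 2 - 2 * lk * (∑ i ∈ I, ∑ c ∈ A, s i c) / M + lk ^ 2 * n0 := by
    have h1 : ∀ c ∈ A, ((∑ i ∈ I, s i c) / M - lk) ^ 2 =
        (∑ i ∈ I, ∑ j ∈ I, s i c * s j c) / M ^ 2 - 2 * lk * (∑ i ∈ I, s i c) / M + lk ^ 2 := by
      intro c _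
      have h2 : (∑ i ∈ I, s i c) ^ 2 = ∑ i ∈ I, ∑ j ∈ I, s i c * s j c := by
        rw [sq, sum_mul_sum]
      rw [← h2]
      ring
    rw [sum_congr rfl h1, sum_add_distrib, sum_sub_distrib, ← sum_div, ← sum_div, ← mul_sum, sum_const, nsmul_eq_mul]
    have h3 : ∑ c ∈ A, ∑ i ∈ I, ∑ j ∈ I, s i c * s j c = ∑ i ∈ I, ∑ j ∈ I, P i j := by
      rw [sum_comm]
      apply sum_congr rfl
      intro i _
      rw [sum_comm]
    have h4 : ∑ c ∈ A, ∑ i ∈ I, s i c = ∑ i ∈ I, ∑ c ∈ A, s i c := sum_comm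
    rw [h3, h4]
    ring
  rw [hexp]
  have h1 : (∑ i ∈ I, ∑ j ∈ I, P i j) / M ^ 2 ≤ (lk ^ 2 + ε1) * n0 + 2 * D * C0 / M * n0 := by
    rw [div_le_iff₀ (by positivity)]
    refine hPsum.trans (le_of_eq ?_)
    field_simp
  have h2 : 2 * lk * ((lk - ε1) * n0) ≤ 2 * lk * (∑ i ∈ I, ∑ c ∈ A, s i c) / M := by
    rw [le_div_iff₀ hMr]
    have h3 := mul_le_mul_of_nonneg_left hEsum (show 0 ≤ 2 * lk by linarith)
    linarith
  have e : (ε1 + 2 * lk * ε1 + 2 * D * C0 / M) * n0 = ((lk ^ 2 + ε1) * n0 + 2 * D * C0 / M * n0) -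
      2 * lk * ((lk - ε1) * n0) + lk ^ 2 * n0 := by ring
  rw [e]
  linarith

/-- the mean over the places `m < i ≤ m + M` -/
noncomputable def qm {g : ℕ} (X d k : ℕ) (lam : ℝ) (f : Fin g → ℕ → ℤ) (m M : ℕ) : ℝ :=
  (∑ i ∈ Ioc m (m + M), sk X d k lam f i) / M

/-- one block -/
theorem block (hA : S_ALLJ) (hTC : S_TCOUNT) (hWS : S_WSMALL) (d g k C1 : ℕ) (hd : 2 ≤ d) (hg : 1 ≤ g)
    (hk : 2 * k + 1 ≤ 2 * d) : ∃ B : ℕ, ∀ lam ε : ℝ, 0 < lam → 0 < ε → ∃ X0 : ℕ, ∀ X : ℕ, X0 ≤ X → ∀ m M : ℕ,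
      Real.log X ^ (g + 3) ≤ M → (M : ℝ) ≤ Real.log X ^ (g + 4) →
      ((m : ℝ) + 1) ^ (5 * (d - 1)) * Real.log X ^ B ≤ X →
      ∀ (F : Fin g → ℕ → ℤ) (a : Fin g → Fin d → ℤ) (Y : Fin g → Fin d → ℕ), Hyp C1 X m F a Y →
      ∑ c ∈ Adm X F a Y, (qm X d k lam (fv F c) m M - lam ^ k) ^ 2 ≤ ε * (Adm X F a Y).card := by
  obtain ⟨B1, hB1⟩ := mom1 hA hTC hWS d g k C1 hd hg (by omega)
  obtain ⟨B2, hB2⟩ := mom1 hA hTC hWS d g (2 * k) C1 hd hg (by omega)
  obtain ⟨B3, hB3⟩ := mom2 hA hTC hWS d g k k C1 hd hg (by omega)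
  refine ⟨max B1 (max B2 B3), fun lam ε hlam hε => ?_⟩
  set ε1 : ℝ := min 1 (ε / (2 * (1 + 2 * lam ^ k))) with hε1
  have hlk : 0 < lam ^ k := by positivity
  have hε10 : 0 < ε1 := lt_min one_pos (by positivity)
  have hε11 : ε1 + 2 * lam ^ k * ε1 ≤ ε / 2 := by
    have h1 : ε1 ≤ ε / (2 * (1 + 2 * lam ^ k)) := min_le_right _ _
    rw [le_div_iff₀ (by positivity)] at h1
    linarith
  set C0 : ℝ := (2 * k + 1) ^ k * (lam ^ (2 * k) + 1) + (2 * k) ^ (2 * k) with hC0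
  have hC00 : 0 ≤ C0 := by positivity
  obtain ⟨X1, h1⟩ := hB1 lam ε1 hlam hε10
  obtain ⟨X2, h2⟩ := hB2 lam 1 hlam one_pos
  obtain ⟨X3, h3⟩ := hB3 lam ε1 hlam hε10
  obtain ⟨X4, h4⟩ := ev_L' (max 2 (8 * C0 / ε))
  refine ⟨max (max X1 X2) (max X3 X4), fun X hX m M hM1 hM2 hm F a Y hH => ?_⟩
  have a1 := h1 X (le_trans (le_trans (le_max_left _ _) (le_max_left _ _)) hX)
  have a2 := h2 X (le_trans (le_trans (le_max_right _ _) (le_max_left _ _)) hX)
  have a3 := h3 X (le_trans (le_trans (le_max_left _ _) (le_max_right _ _)) hX)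
  have a4 := h4 X (le_trans (le_trans (le_max_right _ _) (le_max_right _ _)) hX)
  set L := Real.log X with hL
  have hL2 : 2 ≤ L := (le_max_left _ _).trans a4
  have hLC : 8 * C0 / ε ≤ L := (le_max_right _ _).trans a4
  have hmB : ∀ B', B' ≤ max B1 (max B2 B3) → ((m : ℝ) + 1) ^ (5 * (d - 1)) * L ^ B' ≤ X := by
    intro B' hB'
    refine le_trans ?_ hm
    apply mul_le_mul_of_nonneg_left _ (by positivity)
    exact pow_le_pow_right₀ (by linarith) hB'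
  have hplace : ∀ i ∈ Ioc m (m + M), m ≤ i ∧ (i : ℝ) ≤ m + L ^ (g + 4) := by
    intro i hi
    rw [mem_Ioc] at hi
    refine ⟨hi.1.le, ?_⟩
    have h5 : (i : ℝ) ≤ m + M := by exact_mod_cast hi.2
    linarith
  have hMr : 1 ≤ (M : ℝ) := le_trans (one_le_pow₀ (by linarith)) hM1
  have hM1' : 1 ≤ M := by exact_mod_cast hMr
  set D : ℕ := ⌈L ^ (g + 2)⌉₊ with hD
  have hD1 : L ^ (g + 2) ≤ D := Nat.le_ceil _
  have hLg : 1 ≤ L ^ (g + 2) := one_le_pow₀ (by linarith)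
  have hD2 : (D : ℝ) ≤ 2 * L ^ (g + 2) := by
    have := (Nat.ceil_lt_add_one (show 0 ≤ L ^ (g + 2) by positivity)).le
    linarith
  have hv := variance (Adm X F a Y) m M D hM1' (fun i c => sk X d k lam (fv F c) i) (lam ^ k) ε1 C0 hlk.le hε10.le hC00
    (fun i hi => a1 m i (hplace i hi).1 (hplace i hi).2 (hmB _ (le_max_left _ _)) F a Y hH)
    (fun i hi j hj hij => by
      have h5 : (i : ℝ) + L ^ (g + 2) ≤ j := by
        have : (i : ℝ) + D ≤ j := by exact_mod_cast hij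
        linarith
      have h6 := a3 m i j (hplace i hi).1 h5 (hplace j hj).2
        (hmB _ ((le_max_right _ _).trans (le_max_right _ _))) F a Y hH
      have h7 : (lam ^ k) ^ 2 = lam ^ (k + k) := by rw [← pow_mul]; ring_nf
      rw [h7]
      exact h6)
    (fun i hi => by
      have h5 := (abs_le.1 (a2 m i (hplace i hi).1 (hplace i hi).2
        (hmB _ ((le_max_left _ _).trans (le_max_right _ _))) F a Y hH)).2
      have h6 : ∑ c ∈ Adm X F a Y, sk X d k lam (fv F c) i ^ 2 ≤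
          ∑ c ∈ Adm X F a Y, ((2 * k + 1) ^ k * sk X d (2 * k) lam (fv F c) i + (2 * k) ^ (2 * k)) := by
        apply sum_le_sum
        intro c _
        exact sq_df _ k
      rw [sum_add_distrib, ← mul_sum, sum_const, nsmul_eq_mul] at h6
      have h7 : (0 : ℝ) ≤ (2 * k + 1) ^ k := by positivity
      have h8 : ((2 : ℝ) * k + 1) ^ k * ∑ c ∈ Adm X F a Y, sk X d (2 * k) lam (fv F c) i ≤
          (2 * k + 1) ^ k * (lam ^ (2 * k) * (Adm X F a Y).card + 1 * (Adm X F a Y).card) :=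
        mul_le_mul_of_nonneg_left (by linarith) h7
      refine h6.trans ?_
      rw [hC0]
      linarith)
  unfold qm
  refine hv.trans ?_
  apply mul_le_mul_of_nonneg_right _ (Nat.cast_nonneg _)
  have h9 : 2 * (D : ℝ) * C0 / M ≤ ε / 2 := by
    rw [div_le_iff₀ (by linarith)]
    rw [div_le_iff₀ hε] at hLC
    have h10 : 2 * (D : ℝ) * C0 ≤ 4 * L ^ (g + 2) * C0 := by
      have := mul_le_mul_of_nonneg_right hD2 hC00
      linarith
    have h11 : ε / 2 * L ^ (g + 3) ≤ ε / 2 * M := mul_le_mul_of_nonneg_left hM1 (by positivity)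
    have h12 : L ^ (g + 3) = L ^ (g + 2) * L := by ring
    have h13 : L ^ (g + 2) * (8 * C0) ≤ L ^ (g + 2) * (L * ε) := mul_le_mul_of_nonneg_left hLC (by positivity)
    rw [h12] at h11
    nlinarith
  linarith

end Pool.Agent.Run7.h385.PQ
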