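import Pool.Agent.Run7.h385.PQ.WIN

/-! # Project PQ: quenched moments in one block of windows -/

set_option autoImplicit false

namespace Pool.Agent.Run7.h385.PQ

open Finset hiding box
open Pool.Agent.H373R2.T7
open Pool.Agent.H807R2.Dav
open Pool.Agent.Run7.h385.PO

lemma pow_close (lam : ℝ) (k : ℕ) (η : ℝ) (hη : 0 < η) : ∃ δ : ℝ, 0 < δ ∧ ∀ x : ℝ, |x - lam| ≤ δ → |x ^ k - lam ^ k| ≤ η := by
  have h1 : Continuous fun x : ℝ => x ^ k := continuous_pow k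
  have h2 := Metric.continuousAt_iff.1 (h1.continuousAt (x := lam)) η hη
  obtain ⟨δ, hδ, h3⟩ := h2
  refine ⟨δ / 2, by positivity, fun x hx => ?_⟩
  have h4 : dist x lam < δ := by rw [Real.dist_eq]; linarith
  have h5 := h3 h4
  rw [Real.dist_eq] at h5
  exact h5.le

theorem core (hA : S_ALLJ) (d g k k' C C1 : ℕ) (hd : 2 ≤ d) (hg : 1 ≤ g) (hk : k + k' + 1 ≤ 2 * d) :
    ∃ B : ℕ, ∀ lam ε : ℝ, 0 < lam → 0 < ε → ∃ δ : ℝ, 0 < δ ∧ ∃ X0 : ℕ, ∀ X : ℕ, X0 ≤ X → ∀ m : ℕ,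
    ((m : ℝ) + 1) ^ (5 * (d - 1)) * Real.log X ^ B ≤ X → ∀ F : Fin g → ℕ → ℤ,
    (∀ l, ∀ n : ℕ, m < n → (n : ℝ) ≤ m + Real.log X ^ C →
      |(F l n : ℝ)| ≤ X * ((m : ℝ) + 1) ^ (d - 1) * Real.log X ^ C1) →
    ∀ (a : Fin g → Fin d → ℤ) (Y : Fin g → Fin d → ℕ),
    (∀ l j, |(a l j : ℝ)| ≤ X ∧ (X : ℝ) / Real.log X ^ C1 ≤ Y l j ∧ (Y l j : ℝ) ≤ X) →
    ∀ (AA AA' : (Fin g → Fin d → ℤ) → Finset ℕ) (EE : (Fin g → Fin d → ℤ) → Prop) [DecidablePred EE],
    (∀ c c', (∀ l j, (WW X : ℤ) ∣ c l j - c' l j) → AA c = AA c' ∧ AA' c = AA' c' ∧ (EE c ↔ EE c')) →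
    (∀ c, EE c → Disjoint (AA c) (AA' c) ∧
      (∀ n, n ∈ AA c ∨ n ∈ AA' c → m < n ∧ (n : ℝ) ≤ m + Real.log X ^ C) ∧
      |lamB X d m (fv F c) (AA c) - lam| ≤ δ ∧ lamB X d m (fv F c) (AA' c) ≤ 2 * lam ∧
      (k' = 0 ∨ |lamB X d m (fv F c) (AA' c) - lam| ≤ δ)) →
    |∑ c ∈ (cbox a Y).filter EE, (((cntA (fv F c) (AA c)).descFactorial k : ℕ) : ℝ) *
        (((cntA (fv F c) (AA' c)).descFactorial k' : ℕ) : ℝ) -
        lam ^ (k + k') * ((cbox a Y).filter EE).card| ≤ ε * ((cbox a Y).filter EE).card := by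
  obtain ⟨B, hB⟩ := hA d g k k' C C1 hd hg hk
  refine ⟨B, fun lam ε hlam hε => ?_⟩
  set Lk : ℝ := 1 + lam ^ k + lam ^ k' with hLk
  have hLk1 : 1 ≤ Lk := by
    have : 0 < lam ^ k := by positivity
    have : 0 < lam ^ k' := by positivity
    linarith
  set η : ℝ := min 1 (ε / (6 * Lk)) with hη
  have hη0 : 0 < η := lt_min one_pos (by positivity)
  have hη2 : 3 * Lk * η ≤ ε / 2 := by
    have h1 : η ≤ ε / (6 * Lk) := min_le_right _ _
    rw [le_div_iff₀ (by positivity)] at h1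
    linarith
  obtain ⟨δ1, hδ1, hp1⟩ := pow_close lam k η hη0
  obtain ⟨δ2, hδ2, hp2⟩ := pow_close lam k' η hη0
  obtain ⟨X0, h0⟩ := hB (2 * lam) (ε / 2) (by positivity) (by positivity)
  refine ⟨min lam (min δ1 δ2), lt_min hlam (lt_min hδ1 hδ2), X0, fun X hX m hm F hF a Y haY AA AA' EE _ hper hAE => ?_⟩
  have h1 := h0 X hX m hm F hF a Y haY AA AA' EE hper (fun c hc => by
    obtain ⟨b1, b2, b3, b4, _⟩ := hAE c hc
    refine ⟨b1, b2, ?_, b4⟩
    have := (abs_le.1 (b3.trans (min_le_left _ _))).2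
    linarith)
  set s := (cbox a Y).filter EE with hs
  have h2 : |∑ c ∈ s, (lamB X d m (fv F c) (AA c) ^ k * lamB X d m (fv F c) (AA' c) ^ k' - lam ^ (k + k'))| ≤
      (ε / 2) * s.card := by
    refine (abs_sum_le_sum_abs _ _).trans ?_
    have h3 : ∀ c ∈ s, |lamB X d m (fv F c) (AA c) ^ k * lamB X d m (fv F c) (AA' c) ^ k' - lam ^ (k + k')| ≤ ε / 2 := by
      intro c hc
      rw [hs, mem_filter] at hc
      obtain ⟨b1, b2, b3, b4, b5⟩ := hAE c hc.2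
      rw [pow_add]
      apply prod_close _ _ _ _ Lk η _ hLk1 (by positivity) (by positivity) _ _
        (hp1 _ (b3.trans ((min_le_right _ _).trans (min_le_left _ _)))) _ hη0.le (min_le_left _ _) hη2
      · have : 0 < lam ^ k' := by positivity
        linarith
      · have : 0 < lam ^ k := by positivity
        linarith
      · rcases b5 with b5 | b5
        · rw [b5, pow_zero, pow_zero, sub_self, abs_zero]; exact hη0.le
        · exact hp2 _ (b5.trans ((min_le_right _ _).trans (min_le_right _ _)))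
    refine (sum_le_sum h3).trans (le_of_eq ?_)
    rw [sum_const, nsmul_eq_mul, mul_comm]
  have h3 : ∑ c ∈ s, (((cntA (fv F c) (AA c)).descFactorial k : ℕ) : ℝ) *
        (((cntA (fv F c) (AA' c)).descFactorial k' : ℕ) : ℝ) - lam ^ (k + k') * s.card =
      ∑ c ∈ s, ((((cntA (fv F c) (AA c)).descFactorial k : ℕ) : ℝ) *
        (((cntA (fv F c) (AA' c)).descFactorial k' : ℕ) : ℝ) -
        lamB X d m (fv F c) (AA c) ^ k * lamB X d m (fv F c) (AA' c) ^ k') +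
      ∑ c ∈ s, (lamB X d m (fv F c) (AA c) ^ k * lamB X d m (fv F c) (AA' c) ^ k' - lam ^ (k + k')) := by
    rw [← sum_add_distrib]
    simp only [sub_add_sub_cancel]
    rw [sum_sub_distrib, sum_const, nsmul_eq_mul, mul_comm (lam ^ (k + k'))]
  rw [h3]
  refine (abs_add_le _ _).trans ?_
  linarith

/-- the admissible systems of the box -/
noncomputable def Adm {g d : ℕ} (X : ℕ) (F : Fin g → ℕ → ℤ) (a : Fin g → Fin d → ℤ) (Y : Fin g → Fin d → ℕ) :
    Finset (Fin g → Fin d → ℤ) := (cbox a Y).filter (fun c => 0 < sing (fv F c) (ww X))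

/-- the window at `m'` -/
noncomputable def wd {g : ℕ} (X d m' : ℕ) (lam : ℝ) (f : Fin g → ℕ → ℤ) : Finset ℕ := Ioc m' (m' + len2 X d m' lam f)

/-- the factorial power of the number of prime values in the window at `m'` -/
noncomputable def sk {g : ℕ} (X d k : ℕ) (lam : ℝ) (f : Fin g → ℕ → ℤ) (m' : ℕ) : ℝ :=
  (((cntA f (wd X d m' lam f)).descFactorial k : ℕ) : ℝ)

/-- the standing hypotheses on `F`, `a`, `Y` at the place `m` -/
def Hyp {g d : ℕ} (C1 X m : ℕ) (F : Fin g → ℕ → ℤ) (a : Fin g → Fin d → ℤ) (Y : Fin g → Fin d → ℕ) : Prop :=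
  (∀ l, ∀ p n : ℕ, (p : ℤ) ∣ F l (n + p) - F l n) ∧
  (∀ l, ∀ n : ℕ, m < n → (n : ℝ) ≤ m + Real.log X ^ (g + 5) →
      |(F l n : ℝ)| ≤ X * ((m : ℝ) + 1) ^ (d - 1) * Real.log X ^ C1) ∧
  (∀ l j, |(a l j : ℝ)| ≤ X ∧ (X : ℝ) / Real.log X ^ C1 ≤ Y l j ∧ (Y l j : ℝ) ≤ X)

lemma fv_dvd {g d : ℕ} (F : Fin g → ℕ → ℤ) (c c' : Fin g → Fin d → ℤ) (W : ℤ) (h : ∀ l j, W ∣ c l j - c' l j) :
    ∀ l n, W ∣ fv F c l n - fv F c' l n := by
  intro l n
  unfold fv
  have e : F l n + ∑ j : Fin d, c l j * (n : ℤ) ^ (j : ℕ) - (F l n + ∑ j : Fin d, c' l j * (n : ℤ) ^ (j : ℕ)) =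
      ∑ j : Fin d, (c l j - c' l j) * (n : ℤ) ^ (j : ℕ) := by
    have h1 : ∑ j : Fin d, (c l j - c' l j) * (n : ℤ) ^ (j : ℕ) =
        ∑ j : Fin d, c l j * (n : ℤ) ^ (j : ℕ) - ∑ j : Fin d, c' l j * (n : ℤ) ^ (j : ℕ) := by
      rw [← sum_sub_distrib]
      apply sum_congr rfl
      intro j _
      ring
    rw [h1]; ring
  rw [e]
  apply dvd_sum
  intro j _
  exact (h l j).mul_right _

lemma sing_cc {g d : ℕ} (X : ℕ) (F : Fin g → ℕ → ℤ) (c c' : Fin g → Fin d → ℤ)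
    (h : ∀ l j, (WW X : ℤ) ∣ c l j - c' l j) : sing (fv F c) (ww X) = sing (fv F c') (ww X) := by
  apply sing_congr
  intro p hp l n
  exact (dvd_WW hp).trans (fv_dvd F c c' _ h l n)

lemma wd_cc {g d : ℕ} (X m' : ℕ) (lam : ℝ) (F : Fin g → ℕ → ℤ) (c c' : Fin g → Fin d → ℤ)
    (h : ∀ l j, (WW X : ℤ) ∣ c l j - c' l j) : wd X d m' lam (fv F c) = wd X d m' lam (fv F c') := by
  unfold wd len2
  rw [sing_cc X F c c' h]

/-- the size of the later places of a block -/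
lemma place (d g : ℕ) (X m m' : ℕ) (hL : 2 ≤ Real.log X) (B : ℕ) (hB : (g + 5) * (5 * (d - 1)) ≤ B)
    (hm : ((m : ℝ) + 1) ^ (5 * (d - 1)) * Real.log X ^ B ≤ X) (hm' : (m' : ℝ) ≤ m + Real.log X ^ (g + 4)) :
    ((m' : ℝ) + 1) ^ (5 * (d - 1)) ≤ X := by
  set L := Real.log X with hLd
  have hm0 : (0 : ℝ) ≤ m := Nat.cast_nonneg _
  have h1 : (m' : ℝ) + 1 ≤ (m + 1) * L ^ (g + 5) := by
    have h2 : 1 ≤ L ^ (g + 4) := one_le_pow₀ (by linarith)
    have h3 : L ^ (g + 5) = L ^ (g + 4) * L := by ring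
    have h4 : L ^ (g + 4) * 2 ≤ L ^ (g + 4) * L := mul_le_mul_of_nonneg_left hL (by positivity)
    rw [h3]
    nlinarith
  calc ((m' : ℝ) + 1) ^ (5 * (d - 1)) ≤ (((m : ℝ) + 1) * L ^ (g + 5)) ^ (5 * (d - 1)) :=
        pow_le_pow_left₀ (by positivity) h1 _
    _ = ((m : ℝ) + 1) ^ (5 * (d - 1)) * L ^ ((g + 5) * (5 * (d - 1))) := by rw [mul_pow, ← pow_mul]
    _ ≤ ((m : ℝ) + 1) ^ (5 * (d - 1)) * L ^ B := by
        apply mul_le_mul_of_nonneg_left _ (by positivity)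
        exact pow_le_pow_right₀ (by linarith) hB
    _ ≤ X := hm

/-- one window, all moments -/
theorem mom1 (hA : S_ALLJ) (hTC : S_TCOUNT) (hWS : S_WSMALL) (d g k C1 : ℕ) (hd : 2 ≤ d) (hg : 1 ≤ g)
    (hk : k + 1 ≤ 2 * d) : ∃ B : ℕ, ∀ lam ε : ℝ, 0 < lam → 0 < ε → ∃ X0 : ℕ, ∀ X : ℕ, X0 ≤ X → ∀ m m' : ℕ, m ≤ m' →
      (m' : ℝ) ≤ m + Real.log X ^ (g + 4) → ((m : ℝ) + 1) ^ (5 * (d - 1)) * Real.log X ^ B ≤ X →
      ∀ (F : Fin g → ℕ → ℤ) (a : Fin g → Fin d → ℤ) (Y : Fin g → Fin d → ℕ), Hyp C1 X m F a Y →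
      |∑ c ∈ Adm X F a Y, sk X d k lam (fv F c) m' - lam ^ k * (Adm X F a Y).card| ≤ ε * (Adm X F a Y).card := by
  obtain ⟨B, hB⟩ := core hA d g k 0 (g + 5) C1 hd hg (by omega)
  refine ⟨max B ((g + 5) * (5 * (d - 1))), fun lam ε hlam hε => ?_⟩
  obtain ⟨δ, hδ, X0, h0⟩ := hB lam ε hlam hε
  obtain ⟨X1, h1⟩ := win hTC hWS d g (g + 4) hd hg lam δ hlam hδ
  obtain ⟨X2, h2⟩ := ev_L' 2
  refine ⟨max X0 (max X1 X2), fun X hX m m' hmm hm' hm F a Y hH => ?_⟩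
  have a0 := h0 X (le_trans (le_max_left _ _) hX)
  have a1 := h1 X (le_trans (le_trans (le_max_left _ _) (le_max_right _ _)) hX)
  have a2 := h2 X (le_trans (le_trans (le_max_right _ _) (le_max_right _ _)) hX)
  obtain ⟨hper, hFb, haY⟩ := hH
  set L := Real.log X with hL
  have hm'X := place d g X m m' a2 _ (le_max_right _ _) hm hm'
  have hmB : ((m : ℝ) + 1) ^ (5 * (d - 1)) * L ^ B ≤ X := by
    refine le_trans ?_ hm
    apply mul_le_mul_of_nonneg_left _ (by positivity)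
    exact pow_le_pow_right₀ (by linarith) (le_max_left _ _)
  have h3 := a0 m hmB F hFb a Y haY (fun c => wd X d m' lam (fv F c)) (fun _ => ∅)
    (fun c => 0 < sing (fv F c) (ww X)) (fun c c' h => ⟨wd_cc X m' lam F c c' h, rfl, by rw [sing_cc X F c c' h]⟩)
    (fun c hc => by
      obtain ⟨b1, b2⟩ := a1 m m' hmm hm' hm'X (fv F c) (per_fv F c hper) hc
      refine ⟨disjoint_empty_right _, fun n hn => ?_, b1, ?_, Or.inl rfl⟩
      · rcases hn with hn | hn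
        · unfold wd at hn
          rw [mem_Ioc] at hn
          refine ⟨lt_of_le_of_lt hmm hn.1, ?_⟩
          have h4 : (n : ℝ) ≤ m' + len2 X d m' lam (fv F c) := by exact_mod_cast hn.2
          have h5 : L ^ (g + 2) ≤ L ^ (g + 4) := pow_le_pow_right₀ (by linarith) (by omega)
          have h6 : L ^ (g + 5) = L ^ (g + 4) * L := by ring
          have h7 : L ^ (g + 4) * 2 ≤ L ^ (g + 4) * L := mul_le_mul_of_nonneg_left a2 (by positivity)
          rw [h6]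
          linarith
        · exact absurd hn (notMem_empty n)
      · unfold lamB
        rw [filter_empty, card_empty, Nat.cast_zero, zero_mul]
        positivity)
  rw [add_zero] at h3
  simp only [Nat.descFactorial_zero, Nat.cast_one, mul_one] at h3
  exact h3

/-- two windows far apart -/
theorem mom2 (hA : S_ALLJ) (hTC : S_TCOUNT) (hWS : S_WSMALL) (d g k k' C1 : ℕ) (hd : 2 ≤ d) (hg : 1 ≤ g)
    (hk : k + k' + 1 ≤ 2 * d) : ∃ B : ℕ, ∀ lam ε : ℝ, 0 < lam → 0 < ε → ∃ X0 : ℕ, ∀ X : ℕ, X0 ≤ X → ∀ m m' m'' : ℕ, m ≤ m' →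
      (m' : ℝ) + Real.log X ^ (g + 2) ≤ m'' →
      (m'' : ℝ) ≤ m + Real.log X ^ (g + 4) → ((m : ℝ) + 1) ^ (5 * (d - 1)) * Real.log X ^ B ≤ X →
      ∀ (F : Fin g → ℕ → ℤ) (a : Fin g → Fin d → ℤ) (Y : Fin g → Fin d → ℕ), Hyp C1 X m F a Y →
      |∑ c ∈ Adm X F a Y, sk X d k lam (fv F c) m' * sk X d k' lam (fv F c) m'' -
        lam ^ (k + k') * (Adm X F a Y).card| ≤ ε * (Adm X F a Y).card := by
  obtain ⟨B, hB⟩ := core hA d g k k' (g + 5) C1 hd hg hk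
  refine ⟨max B ((g + 5) * (5 * (d - 1))), fun lam ε hlam hε => ?_⟩
  obtain ⟨δ, hδ, X0, h0⟩ := hB lam ε hlam hε
  obtain ⟨X1, h1⟩ := win hTC hWS d g (g + 4) hd hg lam (min δ lam) hlam (lt_min hδ hlam)
  obtain ⟨X2, h2⟩ := ev_L' 2
  refine ⟨max X0 (max X1 X2), fun X hX m m' m'' hmm hmm' hm'' hm F a Y hH => ?_⟩
  have a0 := h0 X (le_trans (le_max_left _ _) hX)
  have a1 := h1 X (le_trans (le_trans (le_max_left _ _) (le_max_right _ _)) hX)
  have a2 := h2 X (le_trans (le_trans (le_max_right _ _) (le_max_right _ _)) hX)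
  obtain ⟨hper, hFb, haY⟩ := hH
  set L := Real.log X with hL
  have hLp : 0 < L ^ (g + 2) := by positivity
  have hm' : (m' : ℝ) ≤ m + L ^ (g + 4) := by linarith
  have hmr : (m : ℝ) ≤ m' := by exact_mod_cast hmm
  have hmmr : (m : ℝ) ≤ m'' := by linarith
  have hmm'' : m ≤ m'' := by exact_mod_cast hmmr
  have hm'X := place d g X m m' a2 _ (le_max_right _ _) hm hm'
  have hm''X := place d g X m m'' a2 _ (le_max_right _ _) hm hm''
  have hmB : ((m : ℝ) + 1) ^ (5 * (d - 1)) * L ^ B ≤ X := by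
    refine le_trans ?_ hm
    apply mul_le_mul_of_nonneg_left _ (by positivity)
    exact pow_le_pow_right₀ (by linarith) (le_max_left _ _)
  have hbd : ∀ (m0 : ℕ) (N : ℕ), m ≤ m0 → (m0 : ℝ) ≤ m + L ^ (g + 4) → (N : ℝ) ≤ L ^ (g + 2) → ∀ n ∈ Ioc m0 (m0 + N),
      m < n ∧ (n : ℝ) ≤ m + L ^ (g + 5) := by
    intro m0 N g1 g2 g3 n hn
    rw [mem_Ioc] at hn
    refine ⟨lt_of_le_of_lt g1 hn.1, ?_⟩
    have h4 : (n : ℝ) ≤ m0 + N := by exact_mod_cast hn.2
    have h5 : L ^ (g + 2) ≤ L ^ (g + 4) := pow_le_pow_right₀ (by linarith) (by omega)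
    have h6 : L ^ (g + 5) = L ^ (g + 4) * L := by ring
    have h7 : L ^ (g + 4) * 2 ≤ L ^ (g + 4) * L := mul_le_mul_of_nonneg_left a2 (by positivity)
    rw [h6]
    linarith
  have h3 := a0 m hmB F hFb a Y haY (fun c => wd X d m' lam (fv F c)) (fun c => wd X d m'' lam (fv F c))
    (fun c => 0 < sing (fv F c) (ww X))
    (fun c c' h => ⟨wd_cc X m' lam F c c' h, wd_cc X m'' lam F c c' h, by rw [sing_cc X F c c' h]⟩)
    (fun c hc => by
      obtain ⟨b1, b2⟩ := a1 m m' hmm hm' hm'X (fv F c) (per_fv F c hper) hc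
      obtain ⟨b3, b4⟩ := a1 m m'' hmm'' hm'' hm''X (fv F c) (per_fv F c hper) hc
      refine ⟨?_, fun n hn => ?_, b1.trans (min_le_left _ _), ?_, Or.inr (b3.trans (min_le_left _ _))⟩
      · rw [Finset.disjoint_left]
        intro n hn hn'
        unfold wd at hn hn'
        rw [mem_Ioc] at hn hn'
        have g1 : (n : ℝ) ≤ m' + len2 X d m' lam (fv F c) := by exact_mod_cast hn.2
        have g2 : (m'' : ℝ) < n := by exact_mod_cast hn'.1
        linarith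
      · rcases hn with hn | hn
        · exact hbd m' _ hmm hm' b2 n hn
        · exact hbd m'' _ hmm'' hm'' b4 n hn
      · have := (abs_le.1 (b3.trans (min_le_right _ _))).2
        unfold wd
        linarith)
  exact h3

lemma sq_df (n k : ℕ) : (((n.descFactorial k : ℕ) : ℝ)) ^ 2 ≤
    (2 * k + 1) ^ k * ((n.descFactorial (2 * k) : ℕ) : ℝ) + (2 * k) ^ (2 * k) := by
  have key : (n.descFactorial k) ^ 2 ≤ (2 * k + 1) ^ k * n.descFactorial (2 * k) + (2 * k) ^ (2 * k) := by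
    rcases lt_or_ge n (2 * k) with h | h
    · have h1 : n.descFactorial k ≤ (2 * k) ^ k := (Nat.descFactorial_le_pow _ _).trans (Nat.pow_le_pow_left h.le k)
      calc (n.descFactorial k) ^ 2 ≤ ((2 * k) ^ k) ^ 2 := Nat.pow_le_pow_left h1 2
        _ = (2 * k) ^ (2 * k) := by rw [← pow_mul, mul_comm k 2]
        _ ≤ _ := Nat.le_add_left _ _
    · have h1 := Nat.descFactorial_mul_descFactorial (n := n) (k := k) (m := 2 * k) (by omega)
      have h2 : 2 * k - k = k := by omega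
      rw [h2] at h1
      have h3 : n.descFactorial k ≤ (2 * k + 1) ^ k * (n - k).descFactorial k := by
        have h4 := Nat.pow_sub_le_descFactorial (n - k) k
        calc n.descFactorial k ≤ n ^ k := Nat.descFactorial_le_pow _ _
          _ ≤ ((2 * k + 1) * (n - k + 1 - k)) ^ k := by
              apply Nat.pow_le_pow_left
              obtain ⟨j, hj⟩ : ∃ j, n = 2 * k + j := ⟨n - 2 * k, by omega⟩
              have : n - k + 1 - k = j + 1 := by omega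
              rw [this, hj]
              nlinarith
          _ = (2 * k + 1) ^ k * (n - k + 1 - k) ^ k := by rw [mul_pow]
          _ ≤ _ := Nat.mul_le_mul_left _ h4
      calc (n.descFactorial k) ^ 2 = n.descFactorial k * n.descFactorial k := by ring
        _ ≤ ((2 * k + 1) ^ k * (n - k).descFactorial k) * n.descFactorial k := Nat.mul_le_mul_right _ h3
        _ = (2 * k + 1) ^ k * ((n - k).descFactorial k * n.descFactorial k) := by ring
        _ = (2 * k + 1) ^ k * n.descFactorial (2 * k) := by rw [h1]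
        _ ≤ _ := Nat.le_add_right _ _
  exact_mod_cast key

end Pool.Agent.Run7.h385.PQ
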