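import Pool.Agent.Run7.h385.PQ.Asm

/-! # Project PQ: quadratic polynomials -/

set_option autoImplicit false

namespace Pool.Agent.Run7.h385.PQ.Quad

open Finset hiding box
open scoped Polynomial
open Pool.Agent.H373R2.T7
open Pool.Agent.Run7.h385
open Pool.Agent.Run7.h385.PO.Fin1
open Pool.Agent.Run7.h385.PQ.Fin2

/-- the value `a t² + b t + c` -/
def val (q : ℤ × ℤ × ℤ) (t : ℕ) : ℤ := q.1 * (t : ℤ) ^ 2 + q.2.1 * t + q.2.2

/-- the number of zeros modulo `p` -/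
def om (q : ℤ × ℤ × ℤ) (p : ℕ) : ℕ := ((range p).filter (fun t : ℕ => (p : ℤ) ∣ val q t)).card

noncomputable def cst (q : ℤ × ℤ × ℤ) (w : ℕ) : ℝ :=
  ∏ p ∈ (range (w + 1)).filter Nat.Prime, (1 - (om q p : ℝ) / p) / (1 - 1 / (p : ℝ))

/-- the number of prime values in the window at `n` -/
noncomputable def SQ (X : ℕ) (lam : ℝ) (q : ℤ × ℤ × ℤ) (n : ℕ) : ℕ :=
  ((Ioc n (n + ⌈lam * Real.log (X * ((n : ℝ) + 1) ^ 2) / cst q (w X)⌉₊)).filter (fun t : ℕ => (val q t).natAbs.Prime)).card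

noncomputable def bx (A : ℤ × ℤ × ℤ) (Y : ℕ × ℕ × ℕ) : Finset (ℤ × ℤ × ℤ) :=
  Ico A.1 (A.1 + Y.1) ×ˢ Ico A.2.1 (A.2.1 + Y.2.1) ×ˢ Ico A.2.2 (A.2.2 + Y.2.2)

noncomputable def am (X : ℕ) (A : ℤ × ℤ × ℤ) (Y : ℕ × ℕ × ℕ) : Finset (ℤ × ℤ × ℤ) :=
  (bx A Y).filter (fun q => 0 < cst q (w X))

/-- triples as coefficient vectors -/
def tc (q : ℤ × ℤ × ℤ) : Fin 1 → Fin 3 → ℤ := fun _ => ![q.2.2, q.2.1, q.1]

lemma tc_inj : Function.Injective tc := by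
  intro q q' h
  have h1 := congrFun (congrFun h 0) 0
  have h2 := congrFun (congrFun h 0) 1
  have h3 := congrFun (congrFun h 0) 2
  simp [tc] at h1 h2 h3
  ext <;> simp [h1, h2, h3]

lemma tc_surj (c : Fin 1 → Fin 3 → ℤ) : tc (c 0 2, c 0 1, c 0 0) = c := by
  funext l j
  have hl : l = 0 := Subsingleton.elim _ _
  subst hl
  fin_cases j <;> rfl

def te : (ℤ × ℤ × ℤ) ↪ (Fin 1 → Fin 3 → ℤ) := ⟨tc, tc_inj⟩

lemma eval_tc (q : ℤ × ℤ × ℤ) (l : Fin 1) (t : ℕ) : ((poly (0 : Fin 1 → ℤ[X]) (tc q) l).eval (t : ℤ)) = val q t := by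
  unfold poly val tc
  simp [Fin.sum_univ_three, Polynomial.eval_add, Polynomial.eval_mul, Polynomial.eval_pow]
  ring

lemma omega_tc (q : ℤ × ℤ × ℤ) (p : ℕ) : omega (poly (0 : Fin 1 → ℤ[X]) (tc q)) p = om q p := by
  unfold omega om
  congr 1
  apply filter_congr
  intro t _
  simp only [eval_tc]
  constructor
  · rintro ⟨_, h⟩; exact h
  · intro h; exact ⟨0, h⟩

lemma const_tc (q : ℤ × ℤ × ℤ) (w : ℕ) : const (poly (0 : Fin 1 → ℤ[X]) (tc q)) w = cst q w := by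
  unfold const cst primes
  apply prod_congr rfl
  intro p _
  rw [omega_tc, pow_one]

lemma pw_tc (X : ℕ) (lam : ℝ) (q : ℤ × ℤ × ℤ) (n : ℕ) : pw X 3 lam (poly (0 : Fin 1 → ℤ[X]) (tc q)) n = SQ X lam q n := by
  unfold pw P len SQ
  rw [const_tc, pow_one]
  congr 1
  apply filter_congr
  intro t _
  simp only [eval_tc]
  constructor
  · intro h; exact h 0
  · intro h _; exact h

def tY (Y : ℕ × ℕ × ℕ) : Fin 1 → Fin 3 → ℕ := fun _ => ![Y.2.2, Y.2.1, Y.1]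

lemma mem_box_tc (A : ℤ × ℤ × ℤ) (Y : ℕ × ℕ × ℕ) (q : ℤ × ℤ × ℤ) : tc q ∈ PO.Fin1.box (tc A) (tY Y) ↔ q ∈ bx A Y := by
  unfold PO.Fin1.box bx
  rw [Fintype.mem_piFinset, mem_product, mem_product, mem_Ico, mem_Ico, mem_Ico]
  constructor
  · intro h
    have h0 := Fintype.mem_piFinset.1 (h 0) 0
    have h1 := Fintype.mem_piFinset.1 (h 0) 1
    have h2 := Fintype.mem_piFinset.1 (h 0) 2
    rw [mem_Ico] at h0 h1 h2
    exact ⟨h2, h1, h0⟩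
  · rintro ⟨h2, h1, h0⟩ l
    rw [Fintype.mem_piFinset]
    intro j
    rw [mem_Ico]
    fin_cases j
    · exact h0
    · exact h1
    · exact h2

lemma adm_tc (X : ℕ) (A : ℤ × ℤ × ℤ) (Y : ℕ × ℕ × ℕ) :
    adm X (0 : Fin 1 → ℤ[X]) (tc A) (tY Y) = (am X A Y).map te := by
  ext c
  rw [mem_map]
  constructor
  · intro h
    refine ⟨(c 0 2, c 0 1, c 0 0), ?_, tc_surj c⟩
    rw [← tc_surj c] at h
    unfold adm at h
    rw [mem_filter, mem_box_tc, const_tc] at h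
    unfold am
    rw [mem_filter]
    exact h
  · rintro ⟨q, hq, rfl⟩
    unfold am at hq
    rw [mem_filter] at hq
    unfold adm
    rw [mem_filter]
    change tc q ∈ _ ∧ 0 < const (poly 0 (tc q)) (w X)
    rw [mem_box_tc, const_tc]
    exact hq

lemma stats_map {ι κ : Type} (e : ι ↪ κ) (K : ℕ) (lam ε : ℝ) (s : Finset ι) (T : κ → ℕ)
    (h : Stats K lam ε (s.map e) T) : Stats K lam ε s (fun i => T (e i)) := by
  unfold Stats at h ⊢
  rw [card_map] at h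
  refine ⟨fun k hk => ?_, fun j hj => ?_, ?_⟩
  · have h1 := h.1 k hk
    rw [sum_map] at h1
    exact h1
  · have h1 := h.2.1 j hj
    rw [filter_map, card_map] at h1
    exact h1
  · have h1 := h.2.2
    rw [filter_map, card_map] at h1
    exact h1

theorem main (C : ℕ) : ∃ B : ℕ, ∀ lam ε : ℝ, 0 < lam → 0 < ε → ∃ c0 : ℝ, 0 < c0 ∧ ∃ X0 : ℕ, ∀ X : ℕ, X0 ≤ X → ∀ N : ℕ,
      (N : ℝ) ^ 10 * Real.log X ^ B ≤ X →
      ∀ (A : ℤ × ℤ × ℤ) (Y : ℕ × ℕ × ℕ), (|(A.1 : ℝ)| ≤ X ∧ |(A.2.1 : ℝ)| ≤ X ∧ |(A.2.2 : ℝ)| ≤ X) →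
      ((X : ℝ) / Real.log X ^ C ≤ Y.1 ∧ (X : ℝ) / Real.log X ^ C ≤ Y.2.1 ∧ (X : ℝ) / Real.log X ^ C ≤ Y.2.2) →
      ((Y.1 : ℝ) ≤ X ∧ (Y.2.1 : ℝ) ≤ X ∧ (Y.2.2 : ℝ) ≤ X) →
      (∀ m M : ℕ, Real.log X ^ 4 ≤ M → (m : ℝ) + M + Real.log X ^ 6 ≤ N →
        ∃ bad : Finset (ℤ × ℤ × ℤ), bad ⊆ am X A Y ∧ (bad.card : ℝ) ≤ ε * (am X A Y).card ∧
          ∀ q ∈ am X A Y, q ∉ bad → Stats 2 lam ε (Ioc m (m + M)) (SQ X lam q) ∧
            c0 * M ≤ (((Ioc m (m + M)).filter (fun i => 2 ≤ SQ X lam q i)).card : ℝ)) ∧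
      (∀ m : ℕ, (m : ℝ) + Real.log X ^ 6 ≤ N → Stats 5 lam ε (am X A Y) (fun q => SQ X lam q m)) := by
  classical
  obtain ⟨B, hB⟩ := Fin2.main a_ALLJ 3 1 C (by norm_num) le_rfl
  refine ⟨B, fun lam ε hlam hε => ?_⟩
  obtain ⟨c0, hc0, X0, h0⟩ := hB lam ε hlam hε
  refine ⟨c0, hc0, X0, fun X hX N hN A Y hA hY1 hY2 => ?_⟩
  have hS : Sizes2 C X N (0 : Fin 1 → ℤ[X]) (tc A) (tY Y) := by
    refine ⟨fun l n _ _ => ?_, fun l j => ?_⟩
    · simp only [Pi.zero_apply, Polynomial.eval_zero, Int.cast_zero, abs_zero]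
      have : 0 ≤ Real.log X := Real.log_natCast_nonneg X
      positivity
    · fin_cases j
      · exact ⟨hA.2.2, hY1.2.2, hY2.2.2⟩
      · exact ⟨hA.2.1, hY1.2.1, hY2.2.1⟩
      · exact ⟨hA.1, hY1.1, hY2.1⟩
  obtain ⟨h1, h2⟩ := h0 X hX N hN 0 (tc A) (tY Y) hS
  rw [adm_tc] at h1 h2
  refine ⟨fun m M hM hmM => ?_, fun m hm => ?_⟩
  · obtain ⟨bad, hb1, hb2, hb3⟩ := h1 m M hM hmM
    rw [card_map] at hb2
    refine ⟨(am X A Y).filter (fun q => tc q ∈ bad), filter_subset _ _, ?_, fun q hq hqb => ?_⟩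
    · refine le_trans ?_ hb2
      have h3 : ((am X A Y).filter (fun q => tc q ∈ bad)).map te ⊆ bad := by
        intro c hc
        rw [mem_map] at hc
        obtain ⟨q, hq, rfl⟩ := hc
        exact (mem_filter.1 hq).2
      have h4 := card_le_card h3
      rw [card_map] at h4
      exact_mod_cast h4
    · rw [mem_filter, not_and] at hqb
      have h3 := hb3 (tc q) (mem_map_of_mem te hq) (hqb hq)
      have e : pw X 3 lam (poly 0 (tc q)) = SQ X lam q := by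
        funext n
        exact pw_tc X lam q n
      rw [e] at h3
      exact h3
  · have h3 := stats_map te _ _ _ _ _ (h2 m hm)
    have e : (fun q => pw X 3 lam (poly 0 (te q)) m) = fun q => SQ X lam q m := by
      funext q
      exact pw_tc X lam q m
    rw [e] at h3
    exact h3

theorem main_adm (C : ℕ) : ∃ c1 : ℝ, 0 < c1 ∧ ∃ X0 : ℕ, ∀ X : ℕ, X0 ≤ X → ∀ (A : ℤ × ℤ × ℤ) (Y : ℕ × ℕ × ℕ),
      ((X : ℝ) / Real.log X ^ C ≤ Y.1 ∧ (X : ℝ) / Real.log X ^ C ≤ Y.2.1 ∧ (X : ℝ) / Real.log X ^ C ≤ Y.2.2) →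
      c1 * (bx A Y).card ≤ (am X A Y).card := by
  obtain ⟨c1, hc1, X0, h⟩ := adm_main 3 1 C (by norm_num)
  refine ⟨c1, hc1, X0, fun X hX A Y hY => ?_⟩
  have h1 := h X hX 0 (tc A) (tY Y) (by
    intro l j
    fin_cases j
    · exact hY.2.2
    · exact hY.2.1
    · exact hY.1)
  rw [adm_tc, card_map] at h1
  have e : (PO.Fin1.box (tc A) (tY Y)).card = (bx A Y).card := by
    have : PO.Fin1.box (tc A) (tY Y) = (bx A Y).map te := by
      ext c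
      rw [mem_map]
      constructor
      · intro h
        refine ⟨(c 0 2, c 0 1, c 0 0), ?_, tc_surj c⟩
        rw [← tc_surj c, mem_box_tc] at h
        exact h
      · rintro ⟨q, hq, rfl⟩
        exact (mem_box_tc A Y q).2 hq
    rw [this, card_map]
  rw [e] at h1
  exact h1

end Pool.Agent.Run7.h385.PQ.Quad
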