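import Pool.Agent.Run7.h385.PQ.GLOB
import Pool.Agent.Run7.h385.PO.Fin1
import Pool.Agent.Run7.h779.PO.CHR

/-! # Project PQ: statistics from moments -/

set_option autoImplicit false

namespace Pool.Agent.Run7.h385.PQ

open Finset hiding box
open Pool.Agent.H373R2.T7
open Pool.Agent.H807R2.Dav
open Pool.Agent.Run7.h385.PO

/-- factorial moments, distribution and voids up to the order `K` -/
def Stats {ι : Type} (K : ℕ) (lam ε : ℝ) (s : Finset ι) (S : ι → ℕ) : Prop :=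
  (∀ k ≤ K, |∑ c ∈ s, (((S c).descFactorial k : ℕ) : ℝ) - lam ^ k * s.card| ≤ ε * s.card) ∧
  (∀ j ≤ K, |((s.filter (fun c => S c = j)).card : ℝ) - Real.exp (-lam) * lam ^ j / j.factorial * s.card| ≤
    (lam ^ K / (j.factorial * (K - j).factorial) + ε) * s.card) ∧
  ((s.filter (fun c => S c = 0)).card : ℝ) ≤
    (1 / (∑ i ∈ range (K / 2 + 1), lam ^ i / (i.factorial : ℝ)) + ε) * s.card

theorem stats_of (K : ℕ) (lam ε : ℝ) (hlam : 0 < lam) (hε : 0 < ε) : ∃ η : ℝ, 0 < η ∧ ∀ (ι : Type) (s : Finset ι) (S : ι → ℕ),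
    (∀ k ≤ K, |∑ c ∈ s, (((S c).descFactorial k : ℕ) : ℝ) - lam ^ k * s.card| ≤ η * s.card) → Stats K lam ε s S := by
  obtain ⟨ε1, hε1, hchr⟩ := Run7.h779.PO.t_CHR (K / 2) lam ε hlam hε
  set η : ℝ := min ε1 (ε / 3) with hη
  have hη0 : 0 < η := lt_min hε1 (by positivity)
  have hη1 : η ≤ ε1 := min_le_left _ _
  have hη2 : η ≤ ε / 3 := min_le_right _ _
  refine ⟨η, hη0, fun ι s S hmom => ?_⟩
  have hs0 : (0 : ℝ) ≤ s.card := Nat.cast_nonneg _
  refine ⟨fun k hk => (hmom k hk).trans ?_, fun j hj => ?_, ?_⟩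
  · apply mul_le_mul_of_nonneg_right _ hs0
    linarith
  · have h5 := Run7.h871.PO.t_POIS ι s S K lam η hlam.le hη0.le hmom j hj
    refine h5.trans ?_
    apply mul_le_mul_of_nonneg_right _ hs0
    linarith
  · exact hchr ι s S (fun k hk => (hmom k (by omega)).trans (mul_le_mul_of_nonneg_right hη1 hs0))

/-- clusters from the moments of orders `K` and `2 K` -/
lemma cluster {ι : Type} (K : ℕ) (lam R : ℝ) (hlam : 0 < lam) (hR : 0 ≤ R) (s : Finset ι) (S : ι → ℕ)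
    (h1 : |∑ c ∈ s, (((S c).descFactorial K : ℕ) : ℝ) - lam ^ K * s.card| ≤ lam ^ K / 2 * s.card)
    (h2 : ∑ c ∈ s, (((S c).descFactorial (2 * K) : ℕ) : ℝ) ≤ R * s.card) :
    (lam ^ K / 2) ^ 2 / ((2 * K + 1) ^ K * R + (2 * K) ^ (2 * K) + 1) * s.card ≤
      ((s.filter (fun c => K ≤ S c)).card : ℝ) := by
  set Q : ℝ := (2 * K + 1) ^ K * R + (2 * K) ^ (2 * K) + 1 with hQ
  have hQ0 : 0 < Q := by positivity
  have hs0 : (0 : ℝ) ≤ s.card := Nat.cast_nonneg _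
  rcases eq_or_lt_of_le hs0 with h0 | h0
  · rw [← h0, mul_zero]; positivity
  have hlk : 0 < lam ^ K := by positivity
  have h3 : lam ^ K / 2 * s.card ≤ ∑ c ∈ s, (((S c).descFactorial K : ℕ) : ℝ) := by
    have := (abs_le.1 h1).1
    linarith
  have h4 : ∑ c ∈ s, (((S c).descFactorial K : ℕ) : ℝ) =
      ∑ c ∈ s.filter (fun c => K ≤ S c), (((S c).descFactorial K : ℕ) : ℝ) := by
    rw [sum_filter]
    apply sum_congr rfl
    intro c _
    by_cases h : K ≤ S c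
    · rw [if_pos h]
    · rw [if_neg h, Nat.descFactorial_of_lt (by omega), Nat.cast_zero]
  have h5 : (∑ c ∈ s.filter (fun c => K ≤ S c), (((S c).descFactorial K : ℕ) : ℝ)) ^ 2 ≤
      ((s.filter (fun c => K ≤ S c)).card : ℝ) * ∑ c ∈ s, (((S c).descFactorial K : ℕ) : ℝ) ^ 2 := by
    refine (sq_sum_le_card_mul_sum_sq).trans ?_
    apply mul_le_mul_of_nonneg_left _ (Nat.cast_nonneg _)
    exact sum_le_sum_of_subset_of_nonneg (filter_subset _ _) (fun _ _ _ => sq_nonneg _)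
  have h6 : ∑ c ∈ s, (((S c).descFactorial K : ℕ) : ℝ) ^ 2 ≤ Q * s.card := by
    refine (sum_le_sum (fun c _ => sq_df (S c) K)).trans ?_
    rw [sum_add_distrib, ← mul_sum, sum_const, nsmul_eq_mul]
    have h7 := mul_le_mul_of_nonneg_left h2 (show (0 : ℝ) ≤ (2 * K + 1) ^ K by positivity)
    rw [hQ]
    nlinarith
  rw [div_mul_eq_mul_div, div_le_iff₀ hQ0]
  have h8 : (lam ^ K / 2 * s.card) ^ 2 ≤ ((s.filter (fun c => K ≤ S c)).card : ℝ) * (Q * s.card) := by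
    calc (lam ^ K / 2 * s.card) ^ 2 ≤ (∑ c ∈ s, (((S c).descFactorial K : ℕ) : ℝ)) ^ 2 :=
          pow_le_pow_left₀ (by positivity) h3 2
      _ = (∑ c ∈ s.filter (fun c => K ≤ S c), (((S c).descFactorial K : ℕ) : ℝ)) ^ 2 := by rw [h4]
      _ ≤ _ := h5
      _ ≤ _ := mul_le_mul_of_nonneg_left h6 (Nat.cast_nonneg _)
  have h9 : (lam ^ K / 2) ^ 2 * s.card * s.card ≤ (((s.filter (fun c => K ≤ S c)).card : ℝ) * Q) * s.card := by
    calc (lam ^ K / 2) ^ 2 * s.card * s.card = (lam ^ K / 2 * s.card) ^ 2 := by ring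
      _ ≤ _ := h8
      _ = _ := by ring
  exact le_of_mul_le_mul_right h9 h0

/-- the number of prime values in the window at `m'` -/
noncomputable def cw {g : ℕ} (X d : ℕ) (lam : ℝ) (f : Fin g → ℕ → ℤ) (m' : ℕ) : ℕ := cntA f (wd X d m' lam f)

lemma sk_eq {g : ℕ} (X d k : ℕ) (lam : ℝ) (f : Fin g → ℕ → ℤ) (m' : ℕ) :
    sk X d k lam f m' = (((cw X d lam f m').descFactorial k : ℕ) : ℝ) := rfl

/-- annealed moments at all places of a range -/
theorem annealed (hA : S_ALLJ) (hTC : S_TCOUNT) (hWS : S_WSMALL) (d g k C1 : ℕ) (hd : 2 ≤ d) (hg : 1 ≤ g)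
    (hk : k + 1 ≤ 2 * d) : ∃ B : ℕ, ∀ lam ε : ℝ, 0 < lam → 0 < ε → ∃ X0 : ℕ, ∀ X : ℕ, X0 ≤ X → ∀ m M : ℕ,
      ((m : ℝ) + M + 1) ^ (5 * (d - 1)) * Real.log X ^ B ≤ X →
      ∀ (F : Fin g → ℕ → ℤ) (a : Fin g → Fin d → ℤ) (Y : Fin g → Fin d → ℕ), Hyp2 C1 X m M F a Y →
      ∀ m' : ℕ, m ≤ m' → m' ≤ m + M →
      |∑ c ∈ Adm X F a Y, sk X d k lam (fv F c) m' - lam ^ k * (Adm X F a Y).card| ≤ ε * (Adm X F a Y).card := by
  obtain ⟨B, hB⟩ := mom1 hA hTC hWS d g k (C1 + (g + 5) * (d - 1)) hd hg hk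
  refine ⟨B, fun lam ε hlam hε => ?_⟩
  obtain ⟨X1, h1⟩ := hB lam ε hlam hε
  obtain ⟨X2, h2⟩ := ev_L' 4
  refine ⟨max X1 (max X2 1), fun X hX m M hm F a Y hH m' hm1 hm2 => ?_⟩
  have a1 := h1 X (le_trans (le_max_left _ _) hX)
  have a2 := h2 X (le_trans (le_trans (le_max_left _ _) (le_max_right _ _)) hX)
  have hX1 : 1 ≤ X := le_trans (le_trans (le_max_right _ _) (le_max_right _ _)) hX
  refine a1 m' m' le_rfl ?_ ?_ F a Y (hyp_of C1 X m M m' hX1 (by linarith) hm1 hm2 F a Y hH)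
  · have : 0 ≤ Real.log X ^ (g + 4) := by positivity
    linarith
  · refine le_trans ?_ hm
    apply mul_le_mul_of_nonneg_right _ (by positivity)
    apply pow_le_pow_left₀ (by positivity)
    have h3 : (m' : ℝ) ≤ m + M := by exact_mod_cast hm2
    linarith

/-- annealed statistics -/
theorem annealed_stats (hA : S_ALLJ) (hTC : S_TCOUNT) (hWS : S_WSMALL) (d g C1 : ℕ) (hd : 2 ≤ d) (hg : 1 ≤ g) :
    ∃ B : ℕ, ∀ lam ε : ℝ, 0 < lam → 0 < ε → ∃ X0 : ℕ, ∀ X : ℕ, X0 ≤ X → ∀ m M : ℕ,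
      ((m : ℝ) + M + 1) ^ (5 * (d - 1)) * Real.log X ^ B ≤ X →
      ∀ (F : Fin g → ℕ → ℤ) (a : Fin g → Fin d → ℤ) (Y : Fin g → Fin d → ℕ), Hyp2 C1 X m M F a Y →
      ∀ m' : ℕ, m ≤ m' → m' ≤ m + M →
      Stats (2 * d - 1) lam ε (Adm X F a Y) (fun c => cw X d lam (fv F c) m') := by
  have hall : ∀ k : ℕ, ∃ B : ℕ, k ≤ 2 * d - 1 → ∀ lam ε : ℝ, 0 < lam → 0 < ε → ∃ X0 : ℕ, ∀ X : ℕ, X0 ≤ X → ∀ m M : ℕ,
      ((m : ℝ) + M + 1) ^ (5 * (d - 1)) * Real.log X ^ B ≤ X →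
      ∀ (F : Fin g → ℕ → ℤ) (a : Fin g → Fin d → ℤ) (Y : Fin g → Fin d → ℕ), Hyp2 C1 X m M F a Y →
      ∀ m' : ℕ, m ≤ m' → m' ≤ m + M →
      |∑ c ∈ Adm X F a Y, sk X d k lam (fv F c) m' - lam ^ k * (Adm X F a Y).card| ≤ ε * (Adm X F a Y).card := by
    intro k
    by_cases hk : k ≤ 2 * d - 1
    · obtain ⟨B, h⟩ := annealed hA hTC hWS d g k C1 hd hg (by omega)
      exact ⟨B, fun _ => h⟩
    · exact ⟨0, fun h => absurd h hk⟩
  choose BB hBB using hall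
  refine ⟨(range (2 * d)).sup BB, fun lam ε hlam hε => ?_⟩
  obtain ⟨η, hη, hst⟩ := stats_of (2 * d - 1) lam ε hlam hε
  have hall2 : ∀ k : ℕ, ∃ X0 : ℕ, k ≤ 2 * d - 1 → ∀ X : ℕ, X0 ≤ X → ∀ m M : ℕ,
      ((m : ℝ) + M + 1) ^ (5 * (d - 1)) * Real.log X ^ (BB k) ≤ X →
      ∀ (F : Fin g → ℕ → ℤ) (a : Fin g → Fin d → ℤ) (Y : Fin g → Fin d → ℕ), Hyp2 C1 X m M F a Y →
      ∀ m' : ℕ, m ≤ m' → m' ≤ m + M →
      |∑ c ∈ Adm X F a Y, sk X d k lam (fv F c) m' - lam ^ k * (Adm X F a Y).card| ≤ η * (Adm X F a Y).card := by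
    intro k
    by_cases hk : k ≤ 2 * d - 1
    · obtain ⟨X0, h⟩ := hBB k hk lam η hlam hη
      exact ⟨X0, fun _ => h⟩
    · exact ⟨0, fun h => absurd h hk⟩
  choose XX hXX using hall2
  obtain ⟨X2, h2⟩ := ev_L' 1
  refine ⟨max ((range (2 * d)).sup XX) X2, fun X hX m M hm F a Y hH m' hm1 hm2 => ?_⟩
  have hL1 := h2 X (le_trans (le_max_right _ _) hX)
  apply hst
  intro k hk
  have hk' : k ∈ range (2 * d) := mem_range.2 (by omega)
  exact hXX k hk X (le_trans (le_trans (le_sup (f := XX) hk') (le_max_left _ _)) hX) m M (by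
      refine le_trans ?_ hm
      apply mul_le_mul_of_nonneg_left _ (by positivity)
      exact pow_le_pow_right₀ hL1 (le_sup (f := BB) hk')) F a Y hH m' hm1 hm2

/-- the good systems -/
def Good {g : ℕ} (X d m M : ℕ) (lam ε c0 : ℝ) (f : Fin g → ℕ → ℤ) : Prop :=
  Stats (d - 1) lam ε (Ioc m (m + M)) (fun i => cw X d lam f i) ∧
    c0 * M ≤ (((Ioc m (m + M)).filter (fun i => d - 1 ≤ cw X d lam f i)).card : ℝ)

/-- quenched statistics -/
theorem quenched_stats (hA : S_ALLJ) (hTC : S_TCOUNT) (hWS : S_WSMALL) (d g C1 : ℕ) (hd : 2 ≤ d) (hg : 1 ≤ g) :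
    ∃ B : ℕ, ∀ lam ε : ℝ, 0 < lam → 0 < ε → ∃ c0 : ℝ, 0 < c0 ∧ ∃ X0 : ℕ, ∀ X : ℕ, X0 ≤ X → ∀ m M : ℕ,
      Real.log X ^ (g + 3) ≤ M → ((m : ℝ) + M + 1) ^ (5 * (d - 1)) * Real.log X ^ B ≤ X →
      ∀ (F : Fin g → ℕ → ℤ) (a : Fin g → Fin d → ℤ) (Y : Fin g → Fin d → ℕ), Hyp2 C1 X m M F a Y →
      ∃ bad : Finset (Fin g → Fin d → ℤ), bad ⊆ Adm X F a Y ∧ (bad.card : ℝ) ≤ ε * (Adm X F a Y).card ∧
        ∀ c ∈ Adm X F a Y, c ∉ bad → Good X d m M lam ε c0 (fv F c) := by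
  classical
  obtain ⟨B1, hB1⟩ := quenched_all hA hTC hWS d g C1 hd hg
  obtain ⟨B2, hB2⟩ := annealed hA hTC hWS d g (2 * (d - 1)) C1 hd hg (by omega)
  refine ⟨max B1 B2, fun lam ε hlam hε => ?_⟩
  obtain ⟨η, hη, hst⟩ := stats_of (d - 1) lam ε hlam hε
  have hlk : 0 < lam ^ (d - 1) := by positivity
  set η1 : ℝ := min (min η (ε / 2)) (lam ^ (d - 1) / 2) with hη1
  have hη10 : 0 < η1 := lt_min (lt_min hη (by positivity)) (by positivity)
  obtain ⟨X1, h1⟩ := hB1 lam η1 hlam hη10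
  obtain ⟨X2, h2⟩ := hB2 lam 1 hlam one_pos
  obtain ⟨X3, h3⟩ := ev_L' 1
  set R : ℝ := (lam ^ (2 * (d - 1)) + 1) * (2 / ε) with hR
  have hR0 : 0 < R := by positivity
  set K := d - 1 with hK
  refine ⟨(lam ^ K / 2) ^ 2 / ((2 * K + 1) ^ K * R + (2 * K) ^ (2 * K) + 1), by positivity,
    max X1 (max X2 X3), fun X hX m M hM hm F a Y hH => ?_⟩
  have hL1 := h3 X (le_trans (le_trans (le_max_right _ _) (le_max_right _ _)) hX)
  have hmB : ∀ B' ≤ max B1 B2, ((m : ℝ) + M + 1) ^ (5 * K) * Real.log X ^ B' ≤ X := by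
    intro B' hB'
    refine le_trans ?_ hm
    apply mul_le_mul_of_nonneg_left _ (by positivity)
    exact pow_le_pow_right₀ hL1 hB'
  have a1 := h1 X (le_trans (le_max_left _ _) hX) m M hM (hmB _ (le_max_left _ _)) F a Y hH
  have a2 := h2 X (le_trans (le_trans (le_max_left _ _) (le_max_right _ _)) hX) m M (hmB _ (le_max_right _ _)) F a Y hH
  have hM1 : (1 : ℝ) ≤ M := le_trans (one_le_pow₀ hL1) hM
  have hM0 : (0 : ℝ) < M := by linarith
  set A := Adm X F a Y with hAd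
  set bad1 := A.filter (fun c => ∃ k ≤ d - 1, η1 < |qm X d k lam (fv F c) m M - lam ^ k|) with hb1
  set bad2 := A.filter (fun c => R < qm X d (2 * K) lam (fv F c) m M) with hb2
  have hA0 : (0 : ℝ) ≤ A.card := Nat.cast_nonneg _
  have hbad2 : (bad2.card : ℝ) ≤ ε / 2 * A.card := by
    have h4 : R * bad2.card ≤ ∑ c ∈ A, qm X d (2 * K) lam (fv F c) m M := by
      calc R * bad2.card = ∑ c ∈ bad2, R := by rw [sum_const, nsmul_eq_mul, mul_comm]
        _ ≤ ∑ c ∈ bad2, qm X d (2 * K) lam (fv F c) m M := by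
            apply sum_le_sum
            intro c hc
            rw [hb2, mem_filter] at hc
            exact hc.2.le
        _ ≤ _ := by
            apply sum_le_sum_of_subset_of_nonneg (filter_subset _ _)
            intro c _ _
            unfold qm
            apply div_nonneg _ hM0.le
            exact sum_nonneg fun i _ => sk_nonneg _ _ _ _ _ _
    have h5 : ∑ c ∈ A, qm X d (2 * K) lam (fv F c) m M ≤ (lam ^ (2 * K) + 1) * A.card := by
      unfold qm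
      rw [← sum_div, sum_comm, div_le_iff₀ hM0]
      have h6 : ∀ i ∈ Ioc m (m + M), ∑ c ∈ A, sk X d (2 * K) lam (fv F c) i ≤ (lam ^ (2 * K) + 1) * A.card := by
        intro i hi
        rw [mem_Ioc] at hi
        have := (abs_le.1 (a2 i hi.1.le hi.2)).2
        linarith
      refine (sum_le_sum h6).trans (le_of_eq ?_)
      rw [sum_const, nsmul_eq_mul, Nat.card_Ioc]
      have : m + M - m = M := by omega
      rw [this]
      ring
    have h6 := h4.trans h5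
    rw [hR] at h6
    have h7 : 0 < lam ^ (2 * K) + 1 := by positivity
    have h8 : (lam ^ (2 * K) + 1) * (2 / ε * bad2.card) ≤ (lam ^ (2 * K) + 1) * A.card := by
      calc (lam ^ (2 * K) + 1) * (2 / ε * bad2.card) = (lam ^ (2 * K) + 1) * (2 / ε) * bad2.card := by ring
        _ ≤ _ := h6
    have h9 := le_of_mul_le_mul_left h8 h7
    have h10 : (bad2.card : ℝ) = ε / 2 * (2 / ε * bad2.card) := by
      field_simp
    rw [h10]
    exact mul_le_mul_of_nonneg_left h9 (by positivity)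
  refine ⟨bad1 ∪ bad2, union_subset (filter_subset _ _) (filter_subset _ _), ?_, ?_⟩
  · have h4 : ((bad1 ∪ bad2).card : ℝ) ≤ bad1.card + bad2.card := by exact_mod_cast card_union_le _ _
    have h5 : η1 ≤ ε / 2 := (min_le_left _ _).trans (min_le_right _ _)
    have h6 : (bad1.card : ℝ) ≤ ε / 2 * A.card := a1.trans (mul_le_mul_of_nonneg_right h5 hA0)
    linarith
  · intro c hc hcb
    rw [mem_union, not_or] at hcb
    obtain ⟨g1, g2⟩ := hcb
    rw [hb1, mem_filter, not_and] at g1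
    rw [hb2, mem_filter, not_and] at g2
    have g3 := g2 hc
    have g4 := g1 hc
    push Not at g3 g4
    have hcard : ((Ioc m (m + M)).card : ℝ) = M := by
      rw [Nat.card_Ioc]
      congr 1
      omega
    have hmomk : ∀ k ≤ K, |∑ i ∈ Ioc m (m + M), (((cw X d lam (fv F c) i).descFactorial k : ℕ) : ℝ) -
        lam ^ k * (Ioc m (m + M)).card| ≤ η1 * (Ioc m (m + M)).card := by
      intro k hk
      rw [hcard]
      have h5 := g4 k hk
      unfold qm at h5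
      have e : ∑ i ∈ Ioc m (m + M), (((cw X d lam (fv F c) i).descFactorial k : ℕ) : ℝ) - lam ^ k * M =
          ((∑ i ∈ Ioc m (m + M), sk X d k lam (fv F c) i) / M - lam ^ k) * M := by
        rw [sub_mul, div_mul_cancel₀ _ hM0.ne']
        rfl
      rw [e, abs_mul, abs_of_pos hM0]
      exact mul_le_mul_of_nonneg_right h5 hM0.le
    refine ⟨hst ℕ _ _ (fun k hk => (hmomk k hk).trans ?_), ?_⟩
    · apply mul_le_mul_of_nonneg_right _ (Nat.cast_nonneg _)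
      exact (min_le_left _ _).trans (min_le_left _ _)
    · have h5 := cluster K lam R hlam hR0.le (Ioc m (m + M)) (fun i => cw X d lam (fv F c) i)
        ((hmomk K le_rfl).trans (mul_le_mul_of_nonneg_right (min_le_right _ _) (Nat.cast_nonneg _))) (by
          rw [hcard]
          unfold qm at g3
          rw [div_le_iff₀ hM0] at g3
          exact g3)
      rw [hcard] at h5
      exact h5

end Pool.Agent.Run7.h385.PQ
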