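import Pool.Agent.Run7.h385.PQ.ALLJ

/-! # Project PQ: windows of the length of the mean spacing -/

set_option autoImplicit false

namespace Pool.Agent.Run7.h385.PQ

open Finset hiding box
open Pool.Agent.H373R2.T7
open Pool.Agent.H807R2.Dav
open Pool.Agent.Run7.h385.PO

noncomputable def len2 {g : ℕ} (X d m : ℕ) (lam : ℝ) (f : Fin g → ℕ → ℤ) : ℕ :=
  ⌈lam * lg X d m ^ g / sing f (ww X)⌉₊

lemma pow_lin' (η : ℝ) (h0 : 0 ≤ η) (h1 : η ≤ 1) (g : ℕ) : (1 + η) ^ g ≤ 1 + (2 ^ g - 1) * η := by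
  induction g with
  | zero => simp
  | succ g ih =>
    rw [pow_succ]
    have h2 : (1 : ℝ) ≤ 2 ^ g := one_le_pow₀ (by norm_num)
    have h3 : ((2 : ℝ) ^ g - 1) * η * η ≤ (2 ^ g - 1) * η * 1 := by
      apply mul_le_mul_of_nonneg_left h1
      apply mul_nonneg (by linarith) h0
    calc (1 + η) ^ g * (1 + η) ≤ (1 + (2 ^ g - 1) * η) * (1 + η) := mul_le_mul_of_nonneg_right ih (by linarith)
      _ = 1 + η + (2 ^ g - 1) * η + (2 ^ g - 1) * η * η := by ring
      _ ≤ 1 + η + (2 ^ g - 1) * η + (2 ^ g - 1) * η * 1 := by linarith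
      _ = 1 + (2 ^ (g + 1) - 1) * η := by ring

lemma pow_lin (η : ℝ) (h0 : 0 ≤ η) (h1 : η ≤ 1) (g : ℕ) : (1 + η) ^ g ≤ 1 + 2 ^ g * η := by
  have h2 := pow_lin' η h0 h1 g
  nlinarith

set_option maxHeartbeats 4000000 in
/-- the expected number of prime values in a window is close to `lam` -/
theorem win (hTC : S_TCOUNT) (hWS : S_WSMALL) (d g C : ℕ) (hd : 2 ≤ d) (hg : 1 ≤ g) (lam δ : ℝ) (hlam : 0 < lam)
    (hδ : 0 < δ) : ∃ X0 : ℕ, ∀ X : ℕ, X0 ≤ X → ∀ m m' : ℕ, m ≤ m' → (m' : ℝ) ≤ m + Real.log X ^ C →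
      ((m' : ℝ) + 1) ^ (5 * (d - 1)) ≤ X → ∀ f : Fin g → ℕ → ℤ, (∀ l, ∀ p n : ℕ, (p : ℤ) ∣ f l (n + p) - f l n) →
      0 < sing f (ww X) →
      |lamB X d m f (Ioc m' (m' + len2 X d m' lam f)) - lam| ≤ δ ∧ (len2 X d m' lam f : ℝ) ≤ Real.log X ^ (g + 2) := by
  set η0 : ℝ := min 1 (δ / (2 * lam * 2 ^ g)) with hη0
  have hη0p : 0 < η0 := lt_min one_pos (by positivity)
  obtain ⟨n2, h2⟩ := hWS.2
  obtain ⟨n3, h3⟩ := ev_L' (max 2 (lam * 2 ^ g + 1))
  have hlim : Filter.Tendsto (fun N : ℕ => Real.log (N : ℝ)) Filter.atTop Filter.atTop :=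
    Real.tendsto_log_atTop.comp (tendsto_natCast_atTop_atTop (R := ℝ))
  have hev : ∀ᶠ N : ℕ in Filter.atTop, 2 * Real.log (Real.log N) ≤ (δ / 2) * √(Real.log N) := by
    have h5 := (isLittleO_log_rpow_atTop (show (0 : ℝ) < 1 / 2 by norm_num)).bound (show (0 : ℝ) < (δ / 2) / 2 by positivity)
    have h6 := hlim.eventually h5
    filter_upwards [h6, hlim.eventually_ge_atTop 1] with N h7 h8
    rw [Real.norm_of_nonneg (Real.log_nonneg h8), Real.norm_of_nonneg (by positivity), ← Real.sqrt_eq_rpow] at h7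
    linarith
  obtain ⟨n5, h5⟩ := Filter.eventually_atTop.1 hev
  have hev2 : ∀ᶠ N : ℕ in Filter.atTop, ((d : ℝ) * (C + 1)) * Real.log (Real.log N) ≤ η0 * Real.log N := by
    have h5 := (Real.isLittleO_log_id_atTop).bound (show (0 : ℝ) < η0 / (d * (C + 1) + 1) by positivity)
    have h6 := hlim.eventually h5
    filter_upwards [h6, hlim.eventually_ge_atTop 1] with N h7 h8
    rw [Real.norm_of_nonneg (Real.log_nonneg h8), id, Real.norm_of_nonneg (by linarith), div_mul_eq_mul_div,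
      le_div_iff₀ (by positivity)] at h7
    have h9 := Real.log_nonneg h8
    nlinarith
  obtain ⟨n6, h6⟩ := Filter.eventually_atTop.1 hev2
  refine ⟨max (max n2 n3) (max (max n5 n6) 2), fun X hX m m' hmm hm' hm'X f hper hs => ?_⟩
  have hX2 : n2 ≤ X := le_trans (le_trans (le_max_left _ _) (le_max_left _ _)) hX
  have hX3 : n3 ≤ X := le_trans (le_trans (le_max_right _ _) (le_max_left _ _)) hX
  have hX5 : n5 ≤ X := le_trans (le_trans (le_trans (le_max_left _ _) (le_max_left _ _)) (le_max_right _ _)) hX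
  have hX6' : n6 ≤ X := le_trans (le_trans (le_trans (le_max_right _ _) (le_max_left _ _)) (le_max_right _ _)) hX
  have hX6 : 2 ≤ X := le_trans (le_trans (le_max_right _ _) (le_max_right _ _)) hX
  obtain ⟨hWsq, hW1, hVinv⟩ := h2 X hX2
  have a3 := h3 X hX3
  have a5 := h5 X hX5
  have a6 := h6 X hX6'
  set L := Real.log X with hL
  have hL2 : 2 ≤ L := (le_max_left _ _).trans a3
  have hLlam : lam * 2 ^ g + 1 ≤ L := (le_max_right _ _).trans a3
  have hL0 : 0 < L := by linarith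
  have hL1 : 1 ≤ L := by linarith
  have hXr : (2 : ℝ) ≤ X := by exact_mod_cast hX6
  have hX0 : (0 : ℝ) < X := by linarith
  set w := ww X with hw
  set W := WW X with hW
  have hWr1 : (1 : ℝ) ≤ W := by exact_mod_cast hW1
  have hWL : (W : ℝ) ≤ √L := by
    rw [← Real.sqrt_sq (show (0 : ℝ) ≤ W by positivity)]
    exact Real.sqrt_le_sqrt hWsq
  have hWL' : (W : ℝ) ≤ L := by nlinarith
  have hVpos := Vz_pos w
  set V := Vz w with hV
  -- the logarithms
  have hm0 : (0 : ℝ) ≤ m := Nat.cast_nonneg _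
  have hm0' : (0 : ℝ) ≤ m' := Nat.cast_nonneg _
  have hmm' : (m : ℝ) ≤ m' := by exact_mod_cast hmm
  set lm := lg X d m with hlm
  set lm' := lg X d m' with hlm'
  have hlmL : L ≤ lm := lg_ge X d m (by omega)
  have hlm0 : 0 < lm := by linarith
  have hlm1 : lm ≤ lm' := by
    rw [hlm, hlm']
    unfold lg
    apply Real.log_le_log (by positivity)
    gcongr
  have hlm2 : lm' ≤ 2 * L := by
    rw [hlm']
    unfold lg
    rw [Real.log_mul hX0.ne' (by positivity)]
    have h7 : ((m' : ℝ) + 1) ^ (d - 1) ≤ X := by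
      refine le_trans ?_ hm'X
      apply pow_le_pow_right₀ (by linarith)
      omega
    have h8 := Real.log_le_log (by positivity) h7
    linarith
  have hlm3 : lm' ≤ lm * (1 + η0) := by
    have h7 : lm' ≤ lm + d * ((C + 1) * Real.log L) := by
      rw [hlm, hlm']
      unfold lg
      rw [Real.log_mul hX0.ne' (by positivity), Real.log_mul hX0.ne' (by positivity), Real.log_pow, Real.log_pow]
      have h8 : (m' : ℝ) + 1 ≤ (m + 1) * L ^ (C + 1) := by
        have h9 : 1 ≤ L ^ C := one_le_pow₀ hL1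
        rw [pow_succ]
        have h10 : L ^ C * 2 ≤ L ^ C * L := mul_le_mul_of_nonneg_left hL2 (by positivity)
        nlinarith
      have h9 := Real.log_le_log (by positivity) h8
      rw [Real.log_mul (by positivity) (by positivity), Real.log_pow] at h9
      have h10 : ((d - 1 : ℕ) : ℝ) ≤ d := by exact_mod_cast Nat.sub_le d 1
      have h11 : (0 : ℝ) ≤ ((d - 1 : ℕ) : ℝ) := Nat.cast_nonneg _
      have h12 : 0 ≤ Real.log L := Real.log_nonneg hL1
      have h13 : ((d - 1 : ℕ) : ℝ) * Real.log ((m' : ℝ) + 1) ≤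
          ((d - 1 : ℕ) : ℝ) * (Real.log ((m : ℝ) + 1) + ((C + 1 : ℕ) : ℝ) * Real.log L) := mul_le_mul_of_nonneg_left h9 h11
      push_cast at h13
      have h14 : ((d - 1 : ℕ) : ℝ) * (((C : ℝ) + 1) * Real.log L) ≤ d * (((C : ℝ) + 1) * Real.log L) := by
        apply mul_le_mul_of_nonneg_right h10
        positivity
      linarith
    have h8 : (d : ℝ) * ((C + 1) * Real.log L) ≤ η0 * lm := by
      calc (d : ℝ) * ((C + 1) * Real.log L) = ((d : ℝ) * (C + 1)) * Real.log L := by ring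
        _ ≤ η0 * L := a6
        _ ≤ η0 * lm := mul_le_mul_of_nonneg_left hlmL hη0p.le
    linarith
  have hlm0' : 0 < lm' := by linarith
  set σ := sing f w with hσ
  set N := len2 X d m' lam f with hN
  have hNdef : N = ⌈lam * lm' ^ g / σ⌉₊ := rfl
  have hσW : 1 / (W : ℝ) ≤ σ := sing_ge f w hs
  have hN1 : lam * lm' ^ g / σ ≤ N := by rw [hNdef]; exact Nat.le_ceil _
  have hN2 : (N : ℝ) ≤ lam * lm' ^ g / σ + 1 := by
    rw [hNdef]; exact (Nat.ceil_lt_add_one (by positivity)).le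
  have hNL : (N : ℝ) ≤ L ^ (g + 2) := by
    have h7 : lam * lm' ^ g / σ ≤ lam * lm' ^ g * W := by
      rw [div_le_iff₀ hs]
      have h8 : 1 ≤ W * σ := by
        rw [div_le_iff₀ (by positivity)] at hσW
        linarith
      have h9 : 0 ≤ lam * lm' ^ g := by positivity
      nlinarith
    have h8 : lam * lm' ^ g * W ≤ lam * (2 * L) ^ g * L := by gcongr
    have h9 : lam * (2 * L) ^ g * L = (lam * 2 ^ g) * L ^ (g + 1) := by rw [mul_pow]; ring
    have h10 : 1 ≤ L ^ (g + 1) := one_le_pow₀ hL1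
    have h11 : L ^ (g + 2) = L * L ^ (g + 1) := by ring
    rw [h11]
    nlinarith
  refine ⟨?_, hNL⟩
  -- the set `T`
  set T := (Ioc m' (m' + N)).filter (fun n => ∀ l, ∀ p ∈ pz w, ¬ (p : ℤ) ∣ f l n) with hT
  have hTc : |(T.card : ℝ) - N * (σ * V ^ g)| ≤ W := by
    have h7 := hTC g f w (fun l p _ n => hper l p n) m' N
    rw [sing_mul] at h7
    exact h7
  have hσV1 : σ * V ^ g ≤ 1 := by
    rw [← sing_mul]
    apply prod_le_one
    · intro p hp
      have h7 : (omega f p : ℝ) ≤ p := by exact_mod_cast omega_le f p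
      have hp0 : (0 : ℝ) < p := by exact_mod_cast (mem_pz.1 hp).2.pos
      rw [sub_nonneg, div_le_one hp0]
      exact h7
    · intro p _
      have : 0 ≤ (omega f p : ℝ) / p := by positivity
      linarith
  have hσV0 : 0 < σ * V ^ g := by positivity
  have hTc2 : |(T.card : ℝ) - lam * (lm' * V) ^ g| ≤ W + 1 := by
    have h7 : lam * (lm' * V) ^ g = (lam * lm' ^ g / σ) * (σ * V ^ g) := by
      rw [mul_pow]; field_simp
    rw [abs_le] at hTc ⊢
    rw [h7]
    have h8 := mul_le_mul_of_nonneg_right hN1 hσV0.le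
    have h9 := mul_le_mul_of_nonneg_right hN2 hσV0.le
    constructor
    · linarith [hTc.1, hTc.2]
    · have h10 : (lam * lm' ^ g / σ + 1) * (σ * V ^ g) = lam * lm' ^ g / σ * (σ * V ^ g) + σ * V ^ g := by ring
      linarith [hTc.1, hTc.2]
  set R := rho2 X d m with hR
  have hRdef : R = V⁻¹ / lm := rfl
  have hR0 : 0 < R := by rw [hRdef]; positivity
  have hlogL : 0 ≤ Real.log L := Real.log_nonneg hL1
  have hsL : √L * √L = L := Real.mul_self_sqrt hL0.le
  have hsL1 : 1 ≤ √L := by rw [Real.one_le_sqrt]; exact hL1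
  have hRle : R ≤ Real.log L / L := by
    rw [hRdef]
    exact div_le_div₀ hlogL hVinv hL0 hlmL
  have hR1 : (W + 1) * R ≤ δ / 2 := by
    calc ((W : ℝ) + 1) * R ≤ (2 * √L) * (Real.log L / L) := by
          apply mul_le_mul _ hRle hR0.le (by positivity)
          linarith
      _ = (2 * Real.log L) / √L := by
          have e : Real.log L / L = Real.log L / (√L * √L) := by rw [hsL]
          rw [e]
          field_simp
      _ ≤ δ / 2 := by rw [div_le_iff₀ (by positivity)]; exact a5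
  have hR3 : R ≤ 1 := by
    refine hRle.trans ?_
    rw [div_le_one hL0]
    have := Real.log_le_sub_one_of_pos hL0
    linarith
  have hRg : R ^ g ≤ R := by
    calc R ^ g ≤ R ^ 1 := pow_le_pow_of_le_one hR0.le hR3 hg
      _ = R := pow_one R
  have hRg0 : 0 < R ^ g := by positivity
  have h7 : |(T.card : ℝ) * R ^ g - lam * (lm' * V) ^ g * R ^ g| ≤ δ / 2 := by
    rw [← sub_mul, abs_mul, abs_of_pos hRg0]
    calc |(T.card : ℝ) - lam * (lm' * V) ^ g| * R ^ g ≤ (W + 1) * R :=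
          mul_le_mul hTc2 hRg hRg0.le (by positivity)
      _ ≤ δ / 2 := hR1
  have h8 : lam * (lm' * V) ^ g * R ^ g = lam * (lm' / lm) ^ g := by
    rw [mul_assoc, ← mul_pow, hRdef]
    congr 2
    field_simp
  have h9 : (1 : ℝ) ≤ (lm' / lm) ^ g := by
    apply one_le_pow₀
    rw [le_div_iff₀ hlm0]; linarith
  have h10 : (lm' / lm) ^ g ≤ 1 + 2 ^ g * η0 := by
    refine le_trans ?_ (pow_lin η0 hη0p.le (min_le_left _ _) g)
    apply pow_le_pow_left₀ (by positivity)
    rw [div_le_iff₀ hlm0]; linarith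
  have h11 : lam * (2 ^ g * η0) ≤ δ / 2 := by
    have h12 : η0 ≤ δ / (2 * lam * 2 ^ g) := min_le_right _ _
    rw [le_div_iff₀ (by positivity)] at h12
    linarith
  have h12 : |lam * (lm' / lm) ^ g - lam| ≤ δ / 2 := by
    rw [abs_le]
    constructor
    · nlinarith
    · nlinarith
  have h13 : lamB X d m f (Ioc m' (m' + N)) = (T.card : ℝ) * R ^ g := rfl
  rw [h13]
  rw [h8] at h7
  rw [abs_le] at h7 h12 ⊢
  constructor <;> linarith [h7.1, h7.2, h12.1, h12.2]

end Pool.Agent.Run7.h385.PQ
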